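import Pool.Agent.Lib.MP_77ea03_lc.Spec

/-!
# The final algebraic step
-/

set_option autoImplicit false

namespace Pool.Agent.Lib.MP_77ea03_lc

open Set

namespace Fnl

theorem half_pos' {K : Type} [Field K] [LinearOrder K] [IsOrderedAddMonoid K] {y : K}
    (hy : 0 < y) : ∃ z : K, 0 < z ∧ z < y ∧ z + z = y := by
  have h2 : (2 : K) ≠ 0 := by
    intro h
    have h1 : y + y = 0 := by rw [← two_mul, h, zero_mul]
    have h3 : 0 < y + y := add_pos hy hy
    exact h3.ne' h1
  refine ⟨y / 2, ?_, ?_, ?_⟩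
  · by_contra h
    push Not at h
    have h1 : y / 2 + y / 2 ≤ 0 := add_nonpos h h
    rw [← two_mul, mul_div_cancel₀ _ h2] at h1
    exact not_le_of_gt hy h1
  · by_contra h
    push Not at h
    have h1 : y + y ≤ y / 2 + y / 2 := add_le_add h h
    rw [← two_mul (y / 2), mul_div_cancel₀ _ h2] at h1
    have h3 : y < y + y := lt_add_of_pos_left y hy
    exact absurd h1 (not_le_of_gt h3)
  · rw [← two_mul, mul_div_cancel₀ _ h2]

/-- The convex subgroup generated by `u`. -/
def WW {K : Type} [Field K] [LinearOrder K] [IsOrderedAddMonoid K] (u : K) : AddSubgroup K where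
  carrier := {w | ∃ N : ℕ, |w| ≤ N • u}
  add_mem' := by
    rintro a b ⟨N, hN⟩ ⟨M, hM⟩
    exact ⟨N + M, (abs_add_le a b).trans (by rw [add_nsmul]; exact add_le_add hN hM)⟩
  zero_mem' := ⟨0, by simp⟩
  neg_mem' := by
    rintro a ⟨N, hN⟩
    exact ⟨N, by rwa [abs_neg]⟩

theorem exists_theta {K : Type} [Field K] [LinearOrder K] [IsOrderedAddMonoid K] {p q : ℝ}
    {ι : ℝ → K} (hpq : p < q) (hι : StrictMonoOn ι (Icc p q))
    (hsurj : ∀ w, ι p ≤ w → w ≤ ι q → ∃ x ∈ Icc p q, ι x = w)
    (harch : ∀ k > 0, ∃ n : ℕ, ι q - ι p ≤ n • k) :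
    ∃ θ : ℝ →+ K, StrictMono θ ∧ θ 1 = ι q - ι p ∧
      ∀ w, 0 ≤ w → w ≤ ι q - ι p → ∃ r, θ r = w := by
  set u := ι q - ι p with hu
  have hu0 : 0 < u := sub_pos.2 (hι (left_mem_Icc.2 hpq.le) (right_mem_Icc.2 hpq.le) hpq)
  have hmem : ∀ w : K, 0 ≤ w → w ≤ u → w ∈ WW u := by
    intro w h0 h1
    exact ⟨1, by rw [one_nsmul, abs_of_nonneg h0]; exact h1⟩
  have : Archimedean (WW u) := by
    refine ⟨fun x y hy => ?_⟩
    obtain ⟨N, hN⟩ := x.2
    have hy' : (0 : K) < y := hy
    obtain ⟨n, hn⟩ := harch _ hy'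
    refine ⟨N * n, ?_⟩
    change (x : K) ≤ ((N * n) • y : WW u)
    have h1 : (((N * n) • y : WW u) : K) = N • (n • (y : K)) := by
      rw [AddSubgroup.coe_nsmul, mul_nsmul']
    rw [h1]
    exact (le_abs_self _).trans (hN.trans (nsmul_le_nsmul_right hn N))
  obtain ⟨f, hf⟩ := Archimedean.exists_orderAddMonoidHom_real_injective (WW u)
  have hfm : StrictMono f := f.monotone'.strictMono_of_injective hf
  let U : WW u := ⟨u, hmem u hu0.le le_rfl⟩
  have hU0 : (0 : WW u) < U := hu0
  have hc0 : 0 < f U := by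
    have := hfm hU0
    rwa [map_zero] at this
  set c := f U with hc
  -- the image is dense
  have hdense : Dense ((AddMonoidHom.range (f : WW u →+ ℝ) : AddSubgroup ℝ) : Set ℝ) := by
    apply AddSubgroup.dense_of_not_isolated_zero
    intro ε hε
    have key : ∀ n : ℕ, ∃ y : WW u, 0 < y ∧ f y * 2 ^ n = c := by
      intro n
      induction n with
      | zero => exact ⟨U, hU0, by simp [hc]⟩
      | succ n ih =>
        obtain ⟨y, hy, h1⟩ := ih
        have hy' : (0 : K) < y := hy
        obtain ⟨z, hz0, hzy, hzz⟩ := half_pos' hy'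
        have hz : z ∈ WW u := by
          obtain ⟨N, hN⟩ := y.2
          refine ⟨N, ?_⟩
          rw [abs_of_pos hz0]
          rw [abs_of_pos hy'] at hN
          exact hzy.le.trans hN
        refine ⟨⟨z, hz⟩, hz0, ?_⟩
        have h2 : f ⟨z, hz⟩ + f ⟨z, hz⟩ = f y := by
          rw [← map_add]
          congr 1
          exact Subtype.ext hzz
        rw [← h1, ← h2]
        ring
    obtain ⟨n, hn⟩ := exists_nat_gt (c / ε)
    obtain ⟨y, hy, h1⟩ := key n
    refine ⟨f y, ⟨y, rfl⟩, ?_, ?_⟩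
    · have := hfm hy
      rwa [map_zero] at this
    · have h3 : (n : ℝ) < 2 ^ n := by exact_mod_cast Nat.lt_two_pow_self
      have h4 : c < ε * 2 ^ n := by
        rw [div_lt_iff₀ hε] at hn
        nlinarith
      rw [← h1] at h4
      exact lt_of_mul_lt_mul_right h4 (by positivity)
  -- the parametrization
  have hpar : ∀ w : WW u, 0 ≤ w → w ≤ U → ∃ x ∈ Icc p q, (w : K) = ι x - ι p := by
    intro w h0 h1
    have h0' : (0 : K) ≤ w := h0
    have h1' : (w : K) ≤ ι q - ι p := h1
    obtain ⟨x, hx, hxw⟩ := hsurj (ι p + w) (le_add_of_nonneg_right h0') (by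
      have := add_le_add_left h1' (ι p)
      rw [add_comm]
      exact le_sub_iff_add_le.1 h1')
    exact ⟨x, hx, by rw [hxw, add_sub_cancel_left]⟩
  have hιm : ∀ x ∈ Icc p q, ι x - ι p ∈ WW u := by
    intro x hx
    apply hmem
    · exact sub_nonneg.2 (hι.monotoneOn (left_mem_Icc.2 hpq.le) hx hx.1)
    · exact sub_le_sub_right (hι.monotoneOn hx (right_mem_Icc.2 hpq.le) hx.2) _
  -- surjectivity
  have hsmall : ∀ y, 0 ≤ y → y ≤ c → ∃ w : WW u, f w = y := by
    intro y hy0 hyc
    let g : ℝ → ℝ := fun x => if h : x ∈ Icc p q then f ⟨ι x - ι p, hιm x h⟩ else 0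
    have hg : ∀ x (h : x ∈ Icc p q), g x = f ⟨ι x - ι p, hιm x h⟩ := fun x h => dif_pos h
    have hgm : StrictMonoOn g (Icc p q) := by
      intro x hx y hy hxy
      rw [hg x hx, hg y hy]
      apply hfm
      exact sub_lt_sub_right (hι hx hy hxy) _
    have hgp : g p = 0 := by
      rw [hg p (left_mem_Icc.2 hpq.le)]
      have : (⟨ι p - ι p, hιm p (left_mem_Icc.2 hpq.le)⟩ : WW u) = 0 := Subtype.ext (sub_self _)
      rw [this, map_zero]
    have hgs : ∀ a b : ℝ, 0 ≤ a → a < b → b ≤ c → ∃ x ∈ Icc p q, a < g x ∧ g x < b := by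
      intro a b ha hab hb
      obtain ⟨_, ⟨w, rfl⟩, h1, h2⟩ := hdense.exists_between hab
      have h1' : a < f w := h1
      have h2' : f w < b := h2
      have hw0 : 0 ≤ w := by
        by_contra h
        push Not at h
        have := hfm h
        rw [map_zero] at this
        linarith
      have hwU : w ≤ U := by
        by_contra h
        push Not at h
        have := hfm h
        linarith
      obtain ⟨x, hx, hxw⟩ := hpar w hw0 hwU
      refine ⟨x, hx, ?_⟩
      have : g x = f w := by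
        rw [hg x hx]
        congr 1
        exact Subtype.ext hxw.symm
      rw [this]
      exact ⟨h1', h2'⟩
    let S : Set ℝ := {x | x ∈ Icc p q ∧ g x ≤ y}
    have hSp : p ∈ S := ⟨left_mem_Icc.2 hpq.le, by rw [hgp]; exact hy0⟩
    have hSb : BddAbove S := ⟨q, fun x hx => hx.1.2⟩
    set s := sSup S with hs
    have hsI : s ∈ Icc p q := ⟨le_csSup hSb hSp, csSup_le ⟨p, hSp⟩ fun x hx => hx.1.2⟩
    refine ⟨⟨ι s - ι p, hιm s hsI⟩, ?_⟩
    rw [← hg s hsI]
    have hgs0 : 0 ≤ g s := by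
      rw [← hgp]
      exact hgm.monotoneOn (left_mem_Icc.2 hpq.le) hsI hsI.1
    have hgsc : g s ≤ c := by
      rw [hg s hsI]
      apply hfm.monotone
      exact sub_le_sub_right (hι.monotoneOn hsI (right_mem_Icc.2 hpq.le) hsI.2) _
    rcases lt_trichotomy (g s) y with h | h | h
    · exfalso
      obtain ⟨x, hx, h1, h2⟩ := hgs (g s) y hgs0 h hyc
      have h3 : x ≤ s := le_csSup hSb ⟨hx, h2.le⟩
      have h4 := hgm.monotoneOn hx hsI h3
      linarith
    · exact h
    · exfalso
      obtain ⟨x, hx, h1, h2⟩ := hgs y (g s) hy0 h hgsc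
      have h3 : s ≤ x := by
        apply csSup_le ⟨p, hSp⟩
        intro z hz
        by_contra hzx
        push Not at hzx
        have h4 := hgm hx hz.1 hzx
        have h5 := hz.2
        linarith
      have h4 := hgm.monotoneOn hsI hx h3
      linarith
  have hfs : Function.Surjective f := by
    intro y
    obtain ⟨w, hw⟩ := hsmall (y - ⌊y / c⌋ * c) (by
      have := Int.floor_le (y / c)
      rw [le_div_iff₀ hc0] at this
      linarith) (by
      have := Int.lt_floor_add_one (y / c)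
      rw [div_lt_iff₀ hc0] at this
      linarith)
    refine ⟨w + ⌊y / c⌋ • U, ?_⟩
    rw [map_add, map_zsmul, hw, ← hc, zsmul_eq_mul]
    ring
  let E : WW u ≃+ ℝ := AddEquiv.ofBijective (f : WW u →+ ℝ) ⟨hf, hfs⟩
  have hE : ∀ w, E w = f w := fun _ => rfl
  let θ : ℝ →+ K := (WW u).subtype.comp (E.symm.toAddMonoidHom.comp (AddMonoidHom.mulLeft c))
  have hθ : ∀ r, θ r = ((E.symm (c * r) : WW u) : K) := fun _ => rfl
  refine ⟨θ, ?_, ?_, ?_⟩
  · intro r s hrs
    rw [hθ, hθ]
    have h1 : E.symm (c * r) < E.symm (c * s) := by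
      rw [← hfm.lt_iff_lt, ← hE, ← hE, E.apply_symm_apply, E.apply_symm_apply]
      exact mul_lt_mul_of_pos_left hrs hc0
    exact h1
  · rw [hθ, mul_one]
    have : E.symm c = U := by
      rw [AddEquiv.symm_apply_eq, hE]
    rw [this]
  · intro w h0 h1
    refine ⟨f ⟨w, hmem w h0 h1⟩ / c, ?_⟩
    rw [hθ, mul_div_cancel₀ _ hc0.ne', ← hE, E.symm_apply_apply]

section alg

variable {K : Type} [Field K] [LinearOrder K] [IsOrderedAddMonoid K]

theorem charZero : CharZero K := by
  apply charZero_of_inj_zero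
  intro n hn
  by_contra h0
  rw [← nsmul_one] at hn
  rcases lt_or_gt_of_ne (one_ne_zero (α := K)) with h | h
  · have h2 := nsmul_pos (neg_pos.2 h) h0
    rw [smul_neg, hn, neg_zero] at h2
    exact lt_irrefl _ h2
  · have h2 := nsmul_pos h h0
    rw [hn] at h2
    exact lt_irrefl _ h2

/-- The map `v ↦ ∑ c_i θ(v_i)`. -/
def Phi {m : ℕ} (θ : ℝ →+ K) (c : Fin m → K) (v : Fin m → ℝ) : K := ∑ i, c i * θ (v i)

omit [LinearOrder K] [IsOrderedAddMonoid K] in
theorem Phi_add {m : ℕ} (θ : ℝ →+ K) (c : Fin m → K) (v w : Fin m → ℝ) :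
    Phi θ c (v + w) = Phi θ c v + Phi θ c w := by
  unfold Phi
  rw [← Finset.sum_add_distrib]
  exact Finset.sum_congr rfl fun i _ => by rw [Pi.add_apply, map_add, mul_add]

omit [LinearOrder K] [IsOrderedAddMonoid K] in
theorem Phi_zero {m : ℕ} (θ : ℝ →+ K) (c : Fin m → K) : Phi θ c 0 = 0 := by
  unfold Phi
  simp

omit [LinearOrder K] [IsOrderedAddMonoid K] in
/-- The algebraic conclusion. -/
theorem conclude {m : ℕ} (θ : ℝ →+ K) (h1 : θ 1 ≠ 0) (c : Fin m → K)
    (hinj : Function.Injective (Phi θ c))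
    (hstar : ∀ c0 : K, ∃ v : Fin m → ℝ, ∀ r : ℝ, c0 * θ r = Phi θ c (r • v)) :
    Nonempty (K ≃+* ℝ) ∨ Nonempty (K ≃+* ℂ) := by
  have key : ∀ (k : K) (v : Fin m → ℝ), Phi θ c v = k → ∀ r : ℝ,
      θ r * (θ 1)⁻¹ * k = Phi θ c (r • v) := by
    intro k v hv r
    obtain ⟨v', hv'⟩ := hstar (k * (θ 1)⁻¹)
    have h2 := hv' 1
    rw [one_smul, inv_mul_cancel_right₀ h1] at h2
    have h3 : v' = v := hinj (by rw [← h2, hv])
    rw [← h3, ← hv']
    ring
  have hsurj : ∀ k : K, ∃ v, Phi θ c v = k := by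
    intro k
    obtain ⟨v', hv'⟩ := hstar (k * (θ 1)⁻¹)
    refine ⟨v', ?_⟩
    have h2 := hv' 1
    rw [one_smul, inv_mul_cancel_right₀ h1] at h2
    exact h2.symm
  let ρ : ℝ →+* K :=
    { toFun := fun r => θ r * (θ 1)⁻¹
      map_one' := mul_inv_cancel₀ h1
      map_zero' := by rw [map_zero, zero_mul]
      map_add' := fun r s => by rw [map_add, add_mul]
      map_mul' := by
        intro r s
        obtain ⟨v, hv⟩ := hsurj 1
        have e1 := key 1 v hv (r * s)
        have e2 := key 1 v hv s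
        have e3 := key (θ s * (θ 1)⁻¹ * 1) (s • v) e2.symm r
        rw [smul_smul] at e3
        rw [mul_one] at e1 e3
        rw [e1, e3] }
  let _ : Algebra ℝ K := ρ.toAlgebra
  have hsmul : ∀ (r : ℝ) (k : K), r • k = θ r * (θ 1)⁻¹ * k := fun r k => rfl
  let Ψ : (Fin m → ℝ) →ₗ[ℝ] K :=
    { toFun := Phi θ c
      map_add' := Phi_add θ c
      map_smul' := by
        intro r v
        rw [RingHom.id_apply, hsmul, key _ v rfl r] }
  have hfin : Module.Finite ℝ K := Module.Finite.of_surjective Ψ hsurj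
  have halg : Algebra.IsAlgebraic ℝ K := inferInstance
  rcases Real.nonempty_algEquiv_or K with h | h
  · exact Or.inl (h.map fun e => e.toRingEquiv)
  · exact Or.inr (h.map fun e => e.toRingEquiv)

omit [LinearOrder K] [IsOrderedAddMonoid K] in
theorem Phi_sub {m : ℕ} (θ : ℝ →+ K) (c : Fin m → K) (v w : Fin m → ℝ) :
    Phi θ c (v - w) = Phi θ c v - Phi θ c w := by
  rw [eq_sub_iff_add_eq, ← Phi_add, sub_add_cancel]

omit [LinearOrder K] [IsOrderedAddMonoid K] in
theorem Phi_nsmul {m : ℕ} (θ : ℝ →+ K) (c : Fin m → K) (v : Fin m → ℝ) (n : ℕ) :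
    Phi θ c ((n : ℝ) • v) = n * Phi θ c v := by
  unfold Phi
  rw [Finset.mul_sum]
  apply Finset.sum_congr rfl
  intro i _
  rw [Pi.smul_apply, smul_eq_mul, ← nsmul_eq_mul, map_nsmul, nsmul_eq_mul]
  ring

theorem Phi_ratsmul {m : ℕ} (θ : ℝ →+ K) (c : Fin m → K) (v : Fin m → ℝ) (t : ℚ) :
    Phi θ c ((t : ℝ) • v) = (t : K) * Phi θ c v := by
  have := charZero (K := K)
  unfold Phi
  rw [Finset.mul_sum]
  apply Finset.sum_congr rfl
  intro i _
  have h := map_ratCast_smul θ ℝ K t (v i)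
  rw [Pi.smul_apply, h, smul_eq_mul]
  ring

/-- From boundedness on an interval to linearity. -/
theorem star_of_interval {m : ℕ} (θ : ℝ →+ K) (c : Fin m → K)
    (hinj : Function.Injective (Phi θ c)) (c0 : K) {r0 r1 B : ℝ} (h01 : r0 < r1)
    (h : ∀ r, r0 < r → r < r1 → ∃ s : Fin m → ℝ, (∀ i, |s i| ≤ B) ∧ c0 * θ r = Phi θ c s) :
    ∃ v : Fin m → ℝ, ∀ r : ℝ, c0 * θ r = Phi θ c (r • v) := by
  set mid := (r0 + r1) / 2 with hmid
  set δ := (r1 - r0) / 2 with hδ
  have hδ0 : 0 < δ := by rw [hδ]; linarith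
  obtain ⟨sm, hsm, hsm'⟩ := h mid (by rw [hmid]; linarith) (by rw [hmid]; linarith)
  have hnear : ∀ r, |r| < δ → ∃ s : Fin m → ℝ, (∀ i, |s i| ≤ 2 * B) ∧ c0 * θ r = Phi θ c s := by
    intro r hr
    rw [abs_lt] at hr
    obtain ⟨s, hs, hs'⟩ := h (mid + r) (by rw [hmid]; linarith) (by rw [hmid]; linarith)
    refine ⟨s - sm, ?_, ?_⟩
    · intro i
      rw [Pi.sub_apply]
      have h1 := abs_sub (s i) (sm i)
      have h2 := hs i
      have h3 := hsm i
      linarith
    · rw [Phi_sub, ← hs', ← hsm', map_add]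
      ring
  have hall : ∀ r, ∃ s : Fin m → ℝ, c0 * θ r = Phi θ c s := by
    intro r
    obtain ⟨n, hn⟩ := exists_nat_gt (|r| / δ)
    have hn0 : (0 : ℝ) < n := lt_of_le_of_lt (by positivity) hn
    obtain ⟨s, -, hs⟩ := hnear (r / n) (by
      rw [abs_div, abs_of_pos hn0, div_lt_iff₀ hn0]
      rw [div_lt_iff₀ hδ0] at hn
      linarith)
    refine ⟨(n : ℝ) • s, ?_⟩
    rw [Phi_nsmul, ← hs]
    have h1 : θ r = n * θ (r / n) := by
      rw [← nsmul_eq_mul, ← map_nsmul, nsmul_eq_mul, mul_div_cancel₀ _ hn0.ne']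
    rw [h1]
    ring
  choose s hs using hall
  let S : ℝ →+ (Fin m → ℝ) :=
    { toFun := s
      map_zero' := hinj (by rw [← hs, map_zero, mul_zero, Phi_zero])
      map_add' := fun x y => hinj (by rw [← hs, Phi_add, ← hs, ← hs, map_add, mul_add]) }
  have hS : ∀ r, S r = s r := fun _ => rfl
  have hcont : Continuous S := by
    apply S.continuous_of_isBounded_nhds_zero (s := Metric.ball 0 δ) (Metric.ball_mem_nhds 0 hδ0)
    rw [isBounded_iff_forall_norm_le]
    refine ⟨max (2 * B) 0, ?_⟩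
    rintro _ ⟨r, hr, rfl⟩
    rw [mem_ball_zero_iff, Real.norm_eq_abs] at hr
    obtain ⟨s', hs', hs''⟩ := hnear r hr
    have h1 : s r = s' := hinj (by rw [← hs, hs''])
    rw [hS, h1, pi_norm_le_iff_of_nonneg (le_max_right _ _)]
    intro i
    rw [Real.norm_eq_abs]
    exact (hs' i).trans (le_max_left _ _)
  refine ⟨s 1, fun r => ?_⟩
  have h1 := map_real_smul S hcont r 1
  rw [hS, hS, smul_eq_mul, mul_one] at h1
  rw [← h1]
  exact hs r

end alg

section defn

variable {𝒮 : Str} {K : Type} [Field K] [DSort K] [DRan 𝒮 K] {α : Type} [DSort α] [DRan 𝒮 α]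

theorem dfun_add (hadd : DFun 𝒮 (fun p : K × K => p.1 + p.2)) {f g : α → K} (hf : DFun 𝒮 f)
    (hg : DFun 𝒮 g) : DFun 𝒮 (fun a => f a + g a) :=
  DFun.comp' (g := fun p : K × K => p.1 + p.2) hadd (DFun.prodMk hf hg)

theorem dfun_mul (hmul : DFun 𝒮 (fun p : K × K => p.1 * p.2)) {f g : α → K} (hf : DFun 𝒮 f)
    (hg : DFun 𝒮 g) : DFun 𝒮 (fun a => f a * g a) :=
  DFun.comp' (g := fun p : K × K => p.1 * p.2) hmul (DFun.prodMk hf hg)

theorem dfun_sub (hadd : DFun 𝒮 (fun p : K × K => p.1 + p.2)) {f g : α → K} (hf : DFun 𝒮 f)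
    (hg : DFun 𝒮 g) : DFun 𝒮 (fun a => f a - g a) := by
  have h1 : DFun 𝒮 (fun p : α × K => p.2 + g p.1) := dfun_add hadd (by fun_prop) (by fun_prop)
  have h2 : DFun 𝒮 (fun p : α × K => p.2 + g p.1 = f p.1) := DFun.eq' h1 (by fun_prop)
  refine DFun.of_iff (R := fun a b => b + g a = f a) h2 ?_
  intro a b
  constructor
  · rintro rfl
    rw [sub_add_cancel]
  · intro h
    rw [← h, add_sub_cancel_right]

theorem dfun_sum (hadd : DFun 𝒮 (fun p : K × K => p.1 + p.2)) {κ : Type*} (t : Finset κ)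
    {f : κ → α → K} (hf : ∀ i, DFun 𝒮 (f i)) : DFun 𝒮 (fun a => ∑ i ∈ t, f i a) := by
  classical
  induction t using Finset.induction_on with
  | empty => simpa using (DFun.const' (𝒮 := 𝒮) (α := α) (0 : K))
  | insert i t hi ih =>
    have h : (fun a => ∑ j ∈ insert i t, f j a) = fun a => f i a + ∑ j ∈ t, f j a := by
      funext a
      rw [Finset.sum_insert hi]
    rw [h]
    exact dfun_add hadd (hf i) ih

end defn

end Fnl

open Fnl in
theorem final (hC : CurveStmt) (hD : ClaimDStmt) : FinalStmt := by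
  classical
  intro 𝒮 hNIP hNL K _ _ _ _ _ hadd hmul hlt
  have hchar := charZero (K := K)
  obtain ⟨p, q, ι, hpq, hιd, hιm, hιs, harch⟩ := hC 𝒮 hNIP hNL K hadd hlt ⟨1, one_ne_zero⟩
    (fun x => ⟨x / 2, by ring⟩)
  obtain ⟨θ, hθ, hθ1, hθs⟩ := exists_theta hpq hιm hιs harch
  have hθ1' : θ 1 ≠ 0 := by
    have := hθ (zero_lt_one (α := ℝ))
    rw [map_zero] at this
    exact this.ne'
  have hθi : Function.Injective θ := hθ.injective
  -- the coordinate `g`
  have hg : ∀ x : ℝ, x ∈ Icc p q → ∃ r, θ r = ι x - ι p := by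
    intro x hx
    apply hθs
    · exact sub_nonneg.2 (hιm.monotoneOn (left_mem_Icc.2 hpq.le) hx hx.1)
    · exact sub_le_sub_right (hιm.monotoneOn hx (right_mem_Icc.2 hpq.le) hx.2) _
  choose! g hg using hg
  have hgm : StrictMonoOn g (Icc p q) := by
    intro x hx y hy hxy
    rw [← hθ.lt_iff_lt, hg x hx, hg y hy]
    exact sub_lt_sub_right (hιm hx hy hxy) _
  have hgp : g p = 0 := by
    apply hθi
    rw [hg p (left_mem_Icc.2 hpq.le), sub_self, map_zero]
  have hgq : g q = 1 := by
    apply hθi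
    rw [hg q (right_mem_Icc.2 hpq.le), hθ1]
  have hgs : ∀ y, 0 ≤ y → y ≤ 1 → ∃ x ∈ Icc p q, g x = y := by
    intro y h0 h1
    have h2 : 0 ≤ θ y := by
      have := hθ.monotone h0
      rwa [map_zero] at this
    have h3 : θ y ≤ ι q - ι p := by
      have := hθ.monotone h1
      rwa [hθ1] at this
    obtain ⟨x, hx, hxy⟩ := hιs (ι p + θ y) (le_add_of_nonneg_right h2) (by
      rw [add_comm]
      exact le_sub_iff_add_le.1 h3)
    refine ⟨x, hx, hθi ?_⟩
    rw [hg x hx, hxy, add_sub_cancel_left]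
  -- the bound on the length of independent families
  have hbound : ∃ n : ℕ, ∀ c : Fin (n + 1) → K, ¬ Function.Injective (Phi θ c) := by
    have := Fintype.ofFinite (DSort.ix K)
    let e := (Fintype.equivFin (DSort.ix K)).symm
    refine ⟨Fintype.card (DSort.ix K), fun c hc => ?_⟩
    refine hD 𝒮 hNIP hNL (Fintype.card (DSort.ix K)) (Set.univ.pi fun _ => Ioo p q)
      (isOpen_set_pi Set.finite_univ fun _ _ => isOpen_Ioo)
      ⟨fun _ => (p + q) / 2, fun i _ => ⟨by linarith, by linarith⟩⟩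
      (fun x j => DSort.emb (∑ i, c i * ι (x i)) (e j)) ?_ ?_
    · apply DFun.pi'
      intro j
      apply DFun.comp' (DFun.emb' (e j))
      apply dfun_sum hadd
      intro i
      apply dfun_mul hmul
      · fun_prop
      · exact DFun.comp' hιd (DFun.apply' i)
    · intro x hx y hy hxy
      have h1 : ∑ i, c i * ι (x i) = ∑ i, c i * ι (y i) := by
        apply DSort.inj
        funext k
        have := congrFun hxy (e.symm k)
        simpa using this
      have hx' : ∀ i, x i ∈ Icc p q := fun i => Ioo_subset_Icc_self (hx i (Set.mem_univ i))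
      have hy' : ∀ i, y i ∈ Icc p q := fun i => Ioo_subset_Icc_self (hy i (Set.mem_univ i))
      have h2 : Phi θ c (fun i => g (x i)) = Phi θ c (fun i => g (y i)) := by
        unfold Phi
        have h3 : ∀ z : Fin (Fintype.card (DSort.ix K) + 1) → ℝ, (∀ i, z i ∈ Icc p q) →
            ∑ i, c i * θ (g (z i)) = ∑ i, c i * ι (z i) - ∑ i, c i * ι p := by
          intro z hz
          rw [← Finset.sum_sub_distrib]
          apply Finset.sum_congr rfl
          intro i _
          rw [hg _ (hz i)]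
          ring
        rw [h3 x hx', h3 y hy', h1]
      have h4 := hc h2
      funext i
      exact hgm.injOn (hx' i) (hy' i) (congrFun h4 i)
  -- a maximal family
  obtain ⟨m, ⟨c, hc⟩, hmax⟩ : ∃ m : ℕ, (∃ c : Fin m → K, Function.Injective (Phi θ c)) ∧
      ∀ c : Fin (m + 1) → K, ¬ Function.Injective (Phi θ c) := by
    have h1 := Nat.find_spec hbound
    rcases h2 : Nat.find hbound with _ | k
    · rw [h2] at h1
      refine ⟨0, ⟨Fin.elim0, fun x y _ => Subsingleton.elim _ _⟩, h1⟩
    · have h3 := Nat.find_min hbound (m := k) (by omega)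
      push Not at h3
      rw [h2] at h1
      exact ⟨k + 1, h3, h1⟩
  -- the star property
  have hstar : ∀ c0 : K, ∃ v : Fin m → ℝ, ∀ r : ℝ, c0 * θ r = Phi θ c (r • v) := by
    intro c0
    -- a relation
    obtain ⟨a, b, ha, hab⟩ : ∃ (a : ℝ) (b : Fin m → ℝ), 0 < a ∧ c0 * θ a = Phi θ c b := by
      have h1 := hmax (Fin.cons c0 c)
      have h2 : ∀ v : Fin (m + 1) → ℝ, Phi θ (Fin.cons c0 c : Fin (m + 1) → K) v =
          c0 * θ (v 0) + Phi θ c (fun i => v i.succ) := by
        intro v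
        unfold Phi
        rw [Fin.sum_univ_succ]
        simp
      unfold Function.Injective at h1
      push Not at h1
      obtain ⟨v, w, hvw, hne⟩ := h1
      have h3 : Phi θ (Fin.cons c0 c : Fin (m + 1) → K) (v - w) = 0 := by
        rw [Phi_sub, hvw, sub_self]
      rw [h2] at h3
      set d := v - w with hd
      have hd0 : d ≠ 0 := sub_ne_zero.2 hne
      have hd00 : d 0 ≠ 0 := by
        intro h4
        rw [h4, map_zero, mul_zero, zero_add, ← Phi_zero θ c] at h3
        have h5 := hc h3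
        apply hd0
        funext i
        refine Fin.cases h4 (fun i => congrFun h5 i) i
      rcases lt_or_gt_of_ne hd00 with h4 | h4
      · refine ⟨-(d 0), fun i => d i.succ, by linarith, ?_⟩
        rw [map_neg]
        linear_combination -h3
      · refine ⟨d 0, -(fun i => d i.succ), h4, ?_⟩
        rw [← zero_sub (fun i => d (Fin.succ i)), Phi_sub, Phi_zero]
        linear_combination h3
    obtain ⟨N, hN⟩ := exists_nat_gt (∑ i, |b i| / a)
    have hN0 : (0 : ℝ) < N := lt_of_le_of_lt (by positivity) hN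
    let P : ℝ → Prop := fun x => ∃ y z : Fin m → ℝ, (∀ i, (p ≤ y i ∧ y i ≤ q) ∧
      (p ≤ z i ∧ z i ≤ q)) ∧ c0 * (ι x - ι p) = ∑ i, (N * c i) * (ι (y i) - ι (z i))
    have hPd : DFun 𝒮 P := by
      apply DFun.ex
      apply DFun.ex
      apply DFun.and
      · apply DFun.all_fin
        intro i
        have h1 : DFun 𝒮 (fun v : (ℝ × (Fin m → ℝ)) × (Fin m → ℝ) => v.1.2 i) :=
          DFun.comp' (DFun.apply' i) (by fun_prop)
        have h2 : DFun 𝒮 (fun v : (ℝ × (Fin m → ℝ)) × (Fin m → ℝ) => v.2 i) :=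
          DFun.comp' (DFun.apply' i) (by fun_prop)
        exact ((DFun.le' (by fun_prop) h1).and (DFun.le' h1 (by fun_prop))).and
          ((DFun.le' (by fun_prop) h2).and (DFun.le' h2 (by fun_prop)))
      · apply DFun.eq'
        · apply dfun_mul hmul (by fun_prop)
          apply dfun_sub hadd _ (by fun_prop)
          exact DFun.comp' hιd (by fun_prop)
        · apply dfun_sum hadd
          intro i
          apply dfun_mul hmul (by fun_prop)
          apply dfun_sub hadd
          · apply DFun.comp' hιd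
            exact DFun.comp' (DFun.apply' i) (by fun_prop)
          · apply DFun.comp' hιd
            exact DFun.comp' (DFun.apply' i) (by fun_prop)
    have hdiff : ∀ t : ℝ, |t| ≤ N → ∃ y z : ℝ, (p ≤ y ∧ y ≤ q) ∧ (p ≤ z ∧ z ≤ q) ∧
        θ t = N * (ι y - ι z) := by
      intro t ht
      rw [abs_le] at ht
      have hscale : ∀ t : ℝ, θ t = N * θ (t / N) := by
        intro t
        rw [← nsmul_eq_mul, ← map_nsmul, nsmul_eq_mul, mul_div_cancel₀ _ hN0.ne']
      rcases le_total 0 t with h0 | h0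
      · obtain ⟨y, hy, hgy⟩ := hgs (t / N) (by positivity) (by
          rw [div_le_one hN0]; exact ht.2)
        refine ⟨y, p, hy, ⟨le_rfl, hpq.le⟩, ?_⟩
        rw [hscale, ← hgy, hg y hy]
      · obtain ⟨y, hy, hgy⟩ := hgs (-t / N) (by
          apply div_nonneg (by linarith) hN0.le) (by
          rw [div_le_one hN0]; linarith)
        refine ⟨p, y, ⟨le_rfl, hpq.le⟩, hy, ?_⟩
        have h1 : t / N = -(-t / N) := by ring
        rw [hscale, h1, map_neg, ← hgy, hg y hy]
        ring
    obtain ⟨c', d', hc', hcd, hd', hor⟩ := hNL P hPd p q hpq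
    have hc'I : c' ∈ Icc p q := ⟨hc', by linarith⟩
    have hd'I : d' ∈ Icc p q := ⟨by linarith, hd'⟩
    have hgcd := hgm hc'I hd'I hcd
    have hgc0 : 0 ≤ g c' := by
      rw [← hgp]
      exact hgm.monotoneOn (left_mem_Icc.2 hpq.le) hc'I hc'
    have hgd1 : g d' ≤ 1 := by
      rw [← hgq]
      exact hgm.monotoneOn hd'I (right_mem_Icc.2 hpq.le) hd'
    have hxr : ∀ r, g c' < r → r < g d' → ∃ x, c' < x ∧ x < d' ∧ g x = r := by
      intro r h1 h2
      obtain ⟨x, hx, hgx⟩ := hgs r (by linarith) (by linarith)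
      refine ⟨x, ?_, ?_, hgx⟩
      · rw [← hgm.lt_iff_lt hc'I hx, hgx]
        exact h1
      · rw [← hgm.lt_iff_lt hx hd'I, hgx]
        exact h2
    have hP : ∀ x, c' < x → x < d' → P x := by
      rcases hor with h | h
      · exact h
      · exfalso
        obtain ⟨t, ht1, ht2⟩ := exists_rat_btwn (div_lt_div_of_pos_right hgcd ha)
        rw [div_lt_iff₀ ha] at ht1
        rw [lt_div_iff₀ ha] at ht2
        obtain ⟨x, hx1, hx2, hgx⟩ := hxr (t * a) ht1 ht2
        apply h x hx1 hx2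
        have hxI : x ∈ Icc p q := ⟨by linarith, by linarith⟩
        have ht0 : 0 ≤ (t : ℝ) := by
          by_contra hneg
          push Not at hneg
          nlinarith
        have hsmall : ∀ i, |(t : ℝ) * b i| ≤ N := by
          intro i
          rw [abs_mul, abs_of_nonneg ht0]
          have h1 : |b i| / a ≤ ∑ i, |b i| / a :=
            Finset.single_le_sum (f := fun i => |b i| / a) (fun _ _ => by positivity)
              (Finset.mem_univ i)
          have h2 : |b i| = |b i| / a * a := by field_simp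
          rw [h2]
          have h3 : (t : ℝ) * a ≤ 1 := by linarith
          have h4 : 0 ≤ |b i| / a := by positivity
          calc (t : ℝ) * (|b i| / a * a) = (t * a) * (|b i| / a) := by ring
            _ ≤ 1 * (|b i| / a) := mul_le_mul_of_nonneg_right h3 h4
            _ ≤ N := by linarith
        choose y z hy hz hyz using fun i => hdiff _ (hsmall i)
        refine ⟨y, z, fun i => ⟨hy i, hz i⟩, ?_⟩
        rw [← hg x hxI, hgx]
        have h5 := map_ratCast_smul θ ℝ K t a
        rw [smul_eq_mul, smul_eq_mul] at h5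
        rw [h5]
        have h6 : c0 * ((t : K) * θ a) = (t : K) * Phi θ c b := by rw [← hab]; ring
        rw [h6, ← Phi_ratsmul]
        unfold Phi
        apply Finset.sum_congr rfl
        intro i _
        rw [Pi.smul_apply, smul_eq_mul, hyz i]
        ring
    apply star_of_interval θ c hc c0 hgcd (B := N)
    intro r hr0 hr1
    obtain ⟨x, hx1, hx2, hgx⟩ := hxr r hr0 hr1
    obtain ⟨y, z, hyz, hsum⟩ := hP x hx1 hx2
    have hxI : x ∈ Icc p q := ⟨by linarith, by linarith⟩
    refine ⟨fun i => N * (g (y i) - g (z i)), ?_, ?_⟩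
    · intro i
      have hb : ∀ w, p ≤ w ∧ w ≤ q → 0 ≤ g w ∧ g w ≤ 1 := by
        intro w hw
        constructor
        · rw [← hgp]
          exact hgm.monotoneOn (left_mem_Icc.2 hpq.le) hw hw.1
        · rw [← hgq]
          exact hgm.monotoneOn hw (right_mem_Icc.2 hpq.le) hw.2
      have h1 := hb _ (hyz i).1
      have h2 := hb _ (hyz i).2
      rw [abs_mul, abs_of_pos hN0]
      have h3 : |g (y i) - g (z i)| ≤ 1 := by
        rw [abs_le]
        constructor <;> linarith
      calc (N : ℝ) * |g (y i) - g (z i)| ≤ N * 1 := mul_le_mul_of_nonneg_left h3 hN0.le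
        _ = N := mul_one _
    · rw [← hgx, hg x hxI, hsum]
      unfold Phi
      apply Finset.sum_congr rfl
      intro i _
      have h1 : θ (N * (g (y i) - g (z i))) = N * (θ (g (y i)) - θ (g (z i))) := by
        rw [← nsmul_eq_mul, map_nsmul, map_sub, nsmul_eq_mul]
      rw [h1, hg _ (hyz i).1, hg _ (hyz i).2]
      ring
  exact conclude θ hθ1' c hc hstar

end Pool.Agent.Lib.MP_77ea03_lc
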