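import Pool.Agent.Lib.MP_77ea03_lc.Spec

/-! Module K1-K3: the structure of sets definable with parameters in a first-order structure. -/

set_option autoImplicit false

namespace Pool.Agent.Lib.MP_77ea03_lc

open Set DSort FirstOrder

variable (L : FirstOrder.Language.{0, 0}) [L.Structure ℝ]

/-- The family of sets definable with parameters. -/
def strOf (hlt : Set.Definable (∅ : Set ℝ) L {v : Fin 2 → ℝ | v 0 < v 1})
    (hadd : Set.Definable (∅ : Set ℝ) L {v : Fin 3 → ℝ | v 0 + v 1 = v 2}) : Str where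
  Def := fun {_} s => Set.Definable (univ : Set ℝ) L s
  compl := fun h => h.compl
  inter := fun h1 h2 => h1.inter h2
  preim := fun f _ h => h.preimage_comp f
  proj := fun h => h.exists_of_finite
  lt := hlt.mono (empty_subset _)
  add := hadd.mono (empty_subset _)
  const := fun c => by
    have := Set.Definable.singleton_of_mem L (a := c) (A := univ) (mem_univ c)
    unfold Set.Definable₁ at this
    simpa only [mem_singleton_iff] using this

variable {L}

theorem nip_strOf (hlt : Set.Definable (∅ : Set ℝ) L {v : Fin 2 → ℝ | v 0 < v 1})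
    (hadd : Set.Definable (∅ : Set ℝ) L {v : Fin 3 → ℝ | v 0 + v 1 = v 2})
    (h : ∀ (m k : ℕ) (φ : L.Formula (Fin m ⊕ Fin k)), ∃ N : ℕ, ∀ a : Fin N → Fin m → ℝ,
        ¬ ∀ S : Set (Fin N), ∃ b : Fin k → ℝ,
            ∀ i : Fin N, (φ.Realize (Sum.elim (a i) b) ↔ i ∈ S)) :
    NIP (strOf L hlt hadd) := by
  intro ι κ _ _ R hR
  have hR' : Set.Definable (univ : Set ℝ) L R := hR
  rw [Set.definable_iff_finitely_definable] at hR'
  obtain ⟨A0, _, hR0⟩ := hR'
  rw [Set.definable_iff_exists_formula_sum] at hR0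
  obtain ⟨φ, hφ⟩ := hR0
  obtain ⟨m, ⟨em⟩⟩ := Finite.exists_equiv_fin ι
  obtain ⟨k, ⟨ek⟩⟩ := Finite.exists_equiv_fin (κ ⊕ ((A0 : Set ℝ) : Type))
  let g : ((A0 : Set ℝ) : Type) ⊕ (ι ⊕ κ) → Fin m ⊕ Fin k :=
    Sum.elim (fun x => Sum.inr (ek (Sum.inr x)))
      (Sum.elim (fun i => Sum.inl (em i)) (fun j => Sum.inr (ek (Sum.inl j))))
  obtain ⟨N, hN⟩ := h m k (φ.relabel g)
  refine ⟨N, fun a ha => hN (fun i => a i ∘ em.symm) ?_⟩
  intro S
  obtain ⟨b, hb⟩ := ha S
  refine ⟨(Sum.elim b (fun x : ((A0 : Set ℝ) : Type) => (x : ℝ))) ∘ ek.symm, fun i => ?_⟩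
  rw [← hb i, hφ, Language.Formula.realize_relabel, mem_ofPred_eq]
  have e : (Sum.elim (a i ∘ em.symm)
      ((Sum.elim b (fun x : ((A0 : Set ℝ) : Type) => (x : ℝ))) ∘ ek.symm)) ∘ g
      = Sum.elim (fun x : ((A0 : Set ℝ) : Type) => (x : ℝ)) (Sum.elim (a i) b) := by
    funext x
    rcases x with x | x | x <;> simp [g]
  rw [e]

theorem noiseless_strOf (hlt : Set.Definable (∅ : Set ℝ) L {v : Fin 2 → ℝ | v 0 < v 1})
    (hadd : Set.Definable (∅ : Set ℝ) L {v : Fin 3 → ℝ | v 0 + v 1 = v 2})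
    (h : ∀ (n : ℕ) (Y : Set (Fin n → ℝ)), Set.Definable (Set.univ : Set ℝ) L Y →
        (interior Y).Nonempty ∨ IsNowhereDense Y) :
    Noiseless (strOf L hlt hadd) := by
  intro P hP a b hab
  have hD : DFun (strOf L hlt hadd) (fun v : Fin 1 → ℝ => (a < v 0 ∧ v 0 < b) ∧ P (v 0)) := by
    fun_prop
  have hY : Set.Definable (Set.univ : Set ℝ) L
      {v : Fin 1 → ℝ | (a < v 0 ∧ v 0 < b) ∧ P (v 0)} := by
    have h1 := hD.toD
    unfold D at h1
    have h2 : (emb '' {v : Fin 1 → ℝ | (a < v 0 ∧ v 0 < b) ∧ P (v 0)})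
        = {v : Fin 1 → ℝ | (a < v 0 ∧ v 0 < b) ∧ P (v 0)} := image_id _
    rw [h2] at h1
    exact h1
  have hc : Continuous (fun t : ℝ => (fun _ => t : Fin 1 → ℝ)) := by fun_prop
  have hv : ∀ v : Fin 1 → ℝ, (fun _ => v 0) = v := by
    intro v
    funext i
    rw [Subsingleton.elim i 0]
  -- an open subset of `Fin 1 → ℝ` contains an interval
  have hint : ∀ V : Set (Fin 1 → ℝ), IsOpen V → ∀ v ∈ V, ∃ r > 0, ∀ t, v 0 - r < t → t < v 0 + r →
      (fun _ => t) ∈ V := by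
    intro V hV v hvV
    have h1 := hV.preimage hc
    have h2 : v 0 ∈ (fun t : ℝ => (fun _ => t : Fin 1 → ℝ)) ⁻¹' V := by
      rw [mem_preimage, hv]
      exact hvV
    obtain ⟨r, hr, hball⟩ := Metric.isOpen_iff.1 h1 _ h2
    rw [Real.ball_eq_Ioo] at hball
    exact ⟨r, hr, fun t h3 h4 => hball ⟨h3, h4⟩⟩
  rcases h 1 _ hY with h1 | h1
  · obtain ⟨v, hv1⟩ := h1
    obtain ⟨r, hr, h2⟩ := hint _ isOpen_interior v hv1
    have h3 : ∀ t, v 0 - r < t → t < v 0 + r → (a < t ∧ t < b) ∧ P t := fun t h4 h5 => by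
      have h6 := interior_subset (h2 t h4 h5)
      exact h6
    have h6 := (h3 (v 0 - r / 2) (by linarith) (by linarith)).1
    have h7 := (h3 (v 0 + r / 2) (by linarith) (by linarith)).1
    refine ⟨v 0 - r / 2, v 0 + r / 2, h6.1.le, by linarith, h7.2.le, Or.inl ?_⟩
    intro x h8 h9
    exact (h3 x (by linarith) (by linarith)).2
  · have hO : IsOpen {v : Fin 1 → ℝ | a < v 0 ∧ v 0 < b} :=
      (isOpen_lt continuous_const (continuous_apply 0)).inter
        (isOpen_lt (continuous_apply 0) continuous_const)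
    have h2 : ¬ {v : Fin 1 → ℝ | a < v 0 ∧ v 0 < b} ⊆
        closure {v : Fin 1 → ℝ | (a < v 0 ∧ v 0 < b) ∧ P (v 0)} := by
      intro hsub
      have h3 := interior_maximal hsub hO
      rw [h1] at h3
      exact h3 (show (fun _ => (a + b) / 2 : Fin 1 → ℝ) ∈ _ from ⟨by simp only; linarith,
        by simp only; linarith⟩)
    rw [not_subset] at h2
    obtain ⟨v, ⟨hv1, hv2⟩, hv3⟩ := h2
    obtain ⟨r, hr, h4⟩ := hint _ isClosed_closure.isOpen_compl v hv3
    refine ⟨max a (v 0 - r), min b (v 0 + r), le_max_left _ _, ?_, min_le_left _ _, Or.inr ?_⟩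
    · rw [max_lt_iff, lt_min_iff, lt_min_iff]
      exact ⟨⟨hab, by linarith⟩, by linarith, by linarith⟩
    · intro x h5 h6 h7
      rw [max_lt_iff] at h5
      rw [lt_min_iff] at h6
      exact h4 x h5.2 h6.2 (subset_closure ⟨⟨h5.1, h6.1⟩, h7⟩)

end Pool.Agent.Lib.MP_77ea03_lc
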