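import Pool.Agent.Lib.MP_77ea03_lc.Spec

/-!
# The Hales-Jewett step and the limit order
-/

set_option autoImplicit false

namespace Pool.Agent.Lib.MP_77ea03_lc.HJ

open Combinatorics Finset

theorem exists_subset_sums (K : Type) [Field K] [Infinite K] (ι : Type) [Fintype ι] :
    ∃ e : ι → K, ∀ S : Finset ι, S.Nonempty → ∑ i ∈ S, e i ≠ 0 := by
  classical
  let p : MvPolynomial ι K := ∏ S ∈ (univ : Finset (Finset ι)).filter (fun S => S.Nonempty),
    ∑ i ∈ S, MvPolynomial.X i
  have hp : p ≠ 0 := by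
    rw [Finset.prod_ne_zero_iff]
    intro S hS h
    rw [Finset.mem_filter] at hS
    obtain ⟨i, hi⟩ := hS.2
    have h1 := congrArg (MvPolynomial.eval (Pi.single i (1 : K))) h
    rw [map_sum, map_zero] at h1
    simp only [MvPolynomial.eval_X] at h1
    rw [Finset.sum_eq_single i] at h1
    · simp at h1
    · intro j _ hj
      simp [hj]
    · intro h; exact absurd hi h
  have h1 : ∃ e : ι → K, MvPolynomial.eval e p ≠ 0 := by
    by_contra hcon
    push Not at hcon
    apply hp
    apply MvPolynomial.funext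
    intro e
    rw [hcon e, map_zero]
  obtain ⟨e, he⟩ := h1
  refine ⟨e, fun S hS h => ?_⟩
  apply he
  rw [map_prod]
  apply Finset.prod_eq_zero (Finset.mem_filter.2 ⟨Finset.mem_univ S, hS⟩)
  rw [map_sum]
  simpa using h

theorem line_exists (K : Type) [Field K] [Infinite K] (Λ : Finset K) (κ : Type) [Finite κ] :
    ∃ U : Finset K, ∀ c : K → κ, ∃ b d : K, d ≠ 0 ∧ (∀ t ∈ Λ, b + t * d ∈ U) ∧
      ∀ t ∈ Λ, ∀ t' ∈ Λ, c (b + t * d) = c (b + t' * d) := by
  classical
  obtain ⟨ι, hι, hHJ⟩ := Line.exists_mono_in_high_dimension Λ κ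
  obtain ⟨e, he⟩ := exists_subset_sums K ι
  let f : (ι → Λ) → K := fun v => ∑ i, (v i : K) * e i
  refine ⟨Finset.univ.image f, fun c => ?_⟩
  obtain ⟨l, k, hl⟩ := hHJ (fun v => c (f v))
  let b : K := ∑ i, (match l.idxFun i with
    | some a => (a : K) * e i
    | none => 0)
  let d : K := ∑ i ∈ Finset.univ.filter (fun i => l.idxFun i = none), e i
  have hf : ∀ t : Λ, f (l t) = b + t * d := by
    intro t
    change ∑ i, ((l t i : Λ) : K) * e i = (∑ i, (match l.idxFun i with
      | some a => (a : K) * e i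
      | none => 0)) + t * ∑ i ∈ Finset.univ.filter (fun i => l.idxFun i = none), e i
    rw [Finset.sum_filter, Finset.mul_sum, ← Finset.sum_add_distrib]
    apply Finset.sum_congr rfl
    intro i _
    rw [Line.coe_apply]
    cases h : l.idxFun i with
    | none => simp
    | some a => simp
  refine ⟨b, d, ?_, ?_, ?_⟩
  · apply he
    obtain ⟨i, hi⟩ := l.proper
    exact ⟨i, by simp [hi]⟩
  · intro t ht
    rw [← hf ⟨t, ht⟩]
    exact Finset.mem_image_of_mem f (Finset.mem_univ _)
  · intro t ht t' ht'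
    rw [← hf ⟨t, ht⟩, ← hf ⟨t', ht'⟩]
    exact (hl _).trans (hl _).symm

theorem cube_exists (K : Type) [Field K] [Infinite K] (Λ : Finset K) (h0 : (0 : K) ∈ Λ) :
    ∀ (N : ℕ) (κ : Type) [Finite κ], ∃ U : Finset K, ∀ (r : K → K → Prop) (c : K → κ),
      ∃ (b : K) (d : Fin N → K), (∀ j, d j ≠ 0) ∧
        (∀ σ : Fin N → K, (∀ i, σ i ∈ Λ) →
          b + ∑ i, σ i * d i ∈ U ∧ c (b + ∑ i, σ i * d i) = c b) ∧
        (∀ j, ∀ σ : Fin N → K, (∀ i, σ i ∈ Λ) → ∀ t ∈ Λ, ∀ t' ∈ Λ,
          (r (b + ∑ i, Function.update σ j t i * d i) (b + ∑ i, Function.update σ j t' i * d i) ↔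
            r (b + t * d j) (b + t' * d j))) := by
  classical
  intro N
  induction N with
  | zero =>
    intro κ _
    refine ⟨{0}, fun r c => ⟨0, Fin.elim0, fun j => j.elim0, ?_, fun j => j.elim0⟩⟩
    intro σ _
    simp
  | succ N ih =>
    intro κ _
    obtain ⟨U, hU⟩ := ih (κ × (Λ × Λ → Prop))
    obtain ⟨U1, hU1⟩ := line_exists K Λ ((U × U → Prop) × (U → κ))
    refine ⟨(U1 ×ˢ U).image (fun p => p.1 + p.2), fun r c => ?_⟩
    obtain ⟨b1, d1, hd1, hb1, hc1⟩ := hU1 (fun a => (fun p => r (a + p.1) (a + p.2),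
      fun y => c (a + y)))
    obtain ⟨b, d, hd, hb, hc⟩ := hU (fun y y' => r (b1 + y) (b1 + y'))
      (fun y => (c (b1 + y), fun p => r (b1 + y + p.1 * d1) (b1 + y + p.2 * d1)))
    have hinv : ∀ t ∈ Λ, ∀ y ∈ U, ∀ y' ∈ U,
        (r (b1 + t * d1 + y) (b1 + t * d1 + y') ↔ r (b1 + y) (b1 + y')) := by
      intro t ht y hy y' hy'
      have h1 := hc1 t ht 0 h0
      have h2 := congrFun (congrArg Prod.fst h1) (⟨y, hy⟩, ⟨y', hy'⟩)
      simp only [zero_mul, add_zero] at h2
      exact Iff.of_eq h2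
    have hinvc : ∀ t ∈ Λ, ∀ y ∈ U, c (b1 + t * d1 + y) = c (b1 + y) := by
      intro t ht y hy
      have h1 := hc1 t ht 0 h0
      have h2 := congrFun (congrArg Prod.snd h1) ⟨y, hy⟩
      simp only [zero_mul, add_zero] at h2
      exact h2
    have hbU : b ∈ U := by
      have := (hb (fun _ => 0) (fun _ => h0)).1
      simpa using this
    refine ⟨b1 + b, Fin.cons d1 d, ?_, ?_, ?_⟩
    · intro j
      refine Fin.cases ?_ (fun j => ?_) j
      · exact hd1
      · exact hd j
    · intro σ hσ
      obtain ⟨h1, h2⟩ := hb (fun i => σ i.succ) (fun i => hσ i.succ)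
      have h3 : b1 + b + ∑ i, σ i * (Fin.cons d1 d : Fin (N + 1) → K) i =
          b1 + σ 0 * d1 + (b + ∑ i, σ i.succ * d i) := by
        rw [Fin.sum_univ_succ]
        simp only [Fin.cons_zero, Fin.cons_succ]
        ring
      rw [h3]
      refine ⟨?_, ?_⟩
      · rw [Finset.mem_image]
        exact ⟨(b1 + σ 0 * d1, b + ∑ i, σ i.succ * d i),
          Finset.mem_product.2 ⟨hb1 _ (hσ 0), h1⟩, rfl⟩
      · rw [hinvc _ (hσ 0) _ h1]
        exact congrArg Prod.fst h2
    · intro j
      refine Fin.cases ?_ (fun j => ?_) j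
      · intro σ hσ t ht t' ht'
        obtain ⟨h1, h2⟩ := hb (fun i => σ i.succ) (fun i => hσ i.succ)
        have h3 : ∀ t, b1 + b + ∑ i, Function.update σ 0 t i *
            (Fin.cons d1 d : Fin (N + 1) → K) i =
            b1 + (b + ∑ i, σ i.succ * d i) + t * d1 := by
          intro t
          rw [Fin.sum_univ_succ]
          have : ∀ i : Fin N, Function.update σ 0 t i.succ = σ i.succ := by
            intro i
            rw [Function.update_of_ne (Fin.succ_ne_zero i)]
          simp only [Fin.cons_zero, Fin.cons_succ, Function.update_self, this]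
          ring
        rw [h3, h3]
        have h4 := congrFun (congrArg Prod.snd h2) (⟨t, ht⟩, ⟨t', ht'⟩)
        have h5 : r (b1 + (b + ∑ i, σ i.succ * d i) + t * d1)
          (b1 + (b + ∑ i, σ i.succ * d i) + t' * d1) = r (b1 + b + t * d1) (b1 + b + t' * d1) := h4
        rw [h5]
        rfl
      · intro σ hσ t ht t' ht'
        have h3 : ∀ t, b1 + b + ∑ i, Function.update σ j.succ t i *
            (Fin.cons d1 d : Fin (N + 1) → K) i =
            b1 + σ 0 * d1 + (b + ∑ i, Function.update (fun i => σ i.succ) j t i * d i) := by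
          intro t
          rw [Fin.sum_univ_succ]
          have h4 : ∀ i : Fin N, Function.update σ j.succ t i.succ =
              Function.update (fun i : Fin N => σ i.succ) j t i := by
            intro i
            by_cases hij : i = j
            · subst hij
              simp
            · rw [Function.update_of_ne hij, Function.update_of_ne]
              intro h
              exact hij (Fin.succ_injective _ h)
          have h5 : Function.update σ j.succ t 0 = σ 0 := by
            rw [Function.update_of_ne (Fin.succ_ne_zero j).symm]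
          simp only [Fin.cons_zero, Fin.cons_succ, h4, h5]
          ring
        have hmem : ∀ t ∈ Λ, ∀ i, Function.update (fun i : Fin N => σ i.succ) j t i ∈ Λ := by
          intro t ht i
          by_cases hij : i = j
          · subst hij
            simpa using ht
          · rw [Function.update_of_ne hij]
            exact hσ _
        rw [h3, h3, hinv _ (hσ 0) _ (hb _ (hmem t ht)).1 _ (hb _ (hmem t' ht')).1]
        have h6 := hc j (fun i => σ i.succ) (fun i => hσ i.succ) t ht t' ht'
        simp only [Fin.cons_succ]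
        rw [add_assoc b1 b, add_assoc b1 b]
        exact h6

end Pool.Agent.Lib.MP_77ea03_lc.HJ

namespace Pool.Agent.Lib.MP_77ea03_lc

open Filter

theorem hj : HJStmt := by
  classical
  intro K _ _ lt N hN F
  let Λ : Finset K := F ∪ (Finset.image₂ (fun a b => a - b) F F) ∪ {0}
  have h0 : (0 : K) ∈ Λ := by simp [Λ]
  have hFΛ : ∀ t ∈ F, t ∈ Λ := by
    intro t ht
    simp [Λ, ht]
  have hsub : ∀ t ∈ F, ∀ t' ∈ F, t - t' ∈ Λ := by
    intro t ht t' ht'
    simp only [Λ, Finset.mem_union, Finset.mem_image₂]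
    left; right
    exact ⟨t, ht, t', ht', rfl⟩
  obtain ⟨U, hU⟩ := HJ.cube_exists K Λ h0 N Unit
  obtain ⟨b, d, hd, -, hc⟩ := hU lt (fun _ => ())
  by_contra hcon
  push Not at hcon
  have h1 : ∀ j : Fin N, ∃ t t' s : K, t ∈ F ∧ t' ∈ F ∧ t + s ∈ F ∧ t' + s ∈ F ∧
      ¬ (lt (b + t * d j) (b + t' * d j) ↔ lt (b + (t + s) * d j) (b + (t' + s) * d j)) := by
    intro j
    obtain ⟨t, t', s, h1, h2, h3, h4, h5⟩ := hcon b (d j) (hd j)
    refine ⟨t, t', s, h1, h2, h3, h4, ?_⟩
    tauto
  choose T T' S hT hT' hTS hTS' hne using h1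
  apply hN
  refine ⟨fun j => (T j * d j, T' j * d j), fun A => ?_⟩
  have hε : ∀ j, ∃ ε : K, (ε = 0 ∨ ε = S j) ∧
      (lt (b + (T j + ε) * d j) (b + (T' j + ε) * d j) ↔ j ∈ A) := by
    intro j
    by_cases h : lt (b + T j * d j) (b + T' j * d j) ↔ j ∈ A
    · exact ⟨0, Or.inl rfl, by rw [add_zero, add_zero]; exact h⟩
    · refine ⟨S j, Or.inr rfl, ?_⟩
      have := hne j
      tauto
  choose ε hε1 hε2 using hε
  have hεΛ : ∀ i, ε i ∈ Λ := by
    intro i
    rcases hε1 i with h | h
    · rw [h]; exact h0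
    · rw [h]
      have := hsub _ (hTS i) _ (hT i)
      rwa [add_sub_cancel_left] at this
  refine ⟨b + ∑ i, ε i * d i, fun j => ?_⟩
  rw [← hε2 j]
  have hm : T j + ε j ∈ Λ := by
    rcases hε1 j with h | h
    · rw [h, add_zero]; exact hFΛ _ (hT j)
    · rw [h]; exact hFΛ _ (hTS j)
  have hm' : T' j + ε j ∈ Λ := by
    rcases hε1 j with h | h
    · rw [h, add_zero]; exact hFΛ _ (hT' j)
    · rw [h]; exact hFΛ _ (hTS' j)
  have h2 : ∀ t : K, b + ∑ i, ε i * d i + t * d j =
      b + ∑ i, Function.update ε j (t + ε j) i * d i := by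
    intro t
    rw [← Finset.add_sum_erase _ (fun i => ε i * d i) (Finset.mem_univ j),
      ← Finset.add_sum_erase _ (fun i => Function.update ε j (t + ε j) i * d i)
        (Finset.mem_univ j)]
    have h3 : ∑ i ∈ Finset.univ.erase j, Function.update ε j (t + ε j) i * d i =
        ∑ i ∈ Finset.univ.erase j, ε i * d i := by
      apply Finset.sum_congr rfl
      intro i hi
      rw [Function.update_of_ne (Finset.ne_of_mem_erase hi)]
    rw [h3]
    simp only [Function.update_self]
    ring
  change lt (b + ∑ i, ε i * d i + T j * d j) (b + ∑ i, ε i * d i + T' j * d j) ↔ _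
  rw [h2, h2]
  exact hc j ε hεΛ _ hm _ hm'

theorem limitOrder : LimitOrderStmt := by
  classical
  intro K _ _ lt hirr htr htot hN
  obtain ⟨N, hN⟩ := hN
  choose b d hd hbd using hj K lt N hN
  let 𝒰 : Ultrafilter (Finset K) := Ultrafilter.of atTop
  have hcone : ∀ F0 : Finset K, ∀ᶠ F in (𝒰 : Filter (Finset K)), F0 ≤ F := by
    intro F0
    exact (Ultrafilter.of_le atTop) (eventually_ge_atTop F0)
  let lt1 : K → K → Prop := fun x y => ∀ᶠ F in (𝒰 : Filter (Finset K)),
    lt (b F + x * d F) (b F + y * d F)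
  refine ⟨lt1, ?_, ?_, ?_, ?_, ?_⟩
  · intro x hx
    obtain ⟨F, hF⟩ := hx.exists
    exact hirr _ hF
  · intro x y z hxy hyz
    exact (hxy.and hyz).mono fun F h => htr _ _ _ h.1 h.2
  · intro x y hxy
    have h : ∀ᶠ F in (𝒰 : Filter (Finset K)), lt (b F + x * d F) (b F + y * d F) ∨
        lt (b F + y * d F) (b F + x * d F) := by
      apply Eventually.of_forall
      intro F
      apply htot
      intro h
      apply hxy
      exact mul_right_cancel₀ (hd F) (add_left_cancel h)
    exact Ultrafilter.eventually_or.1 h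
  · intro x y z hxy
    have h := hxy.and (hcone {x, y, x + z, y + z})
    refine h.mono fun F hF => ?_
    obtain ⟨h1, h2⟩ := hF
    have h3 : ∀ a ∈ ({x, y, x + z, y + z} : Finset K), a ∈ F := fun a ha => h2 ha
    exact (hbd F x y z (h3 _ (by simp)) (h3 _ (by simp)) (h3 _ (by simp)) (h3 _ (by simp))).1 h1
  · intro F0
    have h : ∀ p ∈ F0, ∀ᶠ F in (𝒰 : Filter (Finset K)),
        (lt1 p.1 p.2 ↔ lt (b F + p.1 * d F) (b F + p.2 * d F)) := by
      intro p _
      by_cases hp : lt1 p.1 p.2
      · have hp' : ∀ᶠ F in (𝒰 : Filter (Finset K)),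
          lt (b F + p.1 * d F) (b F + p.2 * d F) := hp
        exact hp'.mono fun F hF => ⟨fun _ => hF, fun _ => hp⟩
      · have h1 : ∀ᶠ F in (𝒰 : Filter (Finset K)),
            ¬ lt (b F + p.1 * d F) (b F + p.2 * d F) := Ultrafilter.eventually_not.2 hp
        exact h1.mono fun F hF => ⟨fun h => absurd h hp, fun h => absurd h hF⟩
    have h2 := (Filter.eventually_all_finset F0).2 h
    obtain ⟨F, hF⟩ := h2.exists
    exact ⟨b F, d F, hF⟩

end Pool.Agent.Lib.MP_77ea03_lc
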