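import Pool.Agent.Lib.MP_77ea03_lc.Spec

/-!
MODULE D: the externally definable sets form an NIP noiseless structure.
-/

set_option autoImplicit false

namespace Pool.Agent.Lib.MP_77ea03_lc

open Set Filter

/-- powers of a sort -/
def Pw (α : Type) : ℕ → Type
  | 0 => Unit
  | k + 1 => α × Pw α k

noncomputable instance instPwSort (α : Type) [DSort α] : (k : ℕ) → DSort (Pw α k)
  | 0 => inferInstanceAs (DSort Unit)
  | k + 1 =>
    letI := instPwSort α k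
    inferInstanceAs (DSort (α × Pw α k))

instance instPwRan {𝒮 : Str} (α : Type) [DSort α] [DRan 𝒮 α] : (k : ℕ) → DRan 𝒮 (Pw α k)
  | 0 => inferInstanceAs (DRan 𝒮 Unit)
  | k + 1 =>
    letI := instPwRan (𝒮 := 𝒮) α k
    inferInstanceAs (DRan 𝒮 (α × Pw α k))

section key

variable {𝒮 : Str} {α : Type} [DSort α] [DRan 𝒮 α]

/-- `Z` is covered, up to finite subsets, by a definable family of subsets of `X` -/
def Cov (𝒮 : Str) {α : Type} [DSort α] (X : Set α) (Z : Set α) : Prop :=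
  ∃ (β : Type) (_ : DSort β) (_ : DRan 𝒮 β) (θ : α → β → Prop),
    DFun 𝒮 (fun p : α × β => θ p.1 p.2) ∧
    ∀ A : Finset α, (∀ a ∈ A, a ∈ Z) → ∃ b, (∀ a ∈ A, θ a b) ∧ ∀ x, θ x b → x ∈ X

omit [DRan 𝒮 α] in
lemma Cov.mono {X Z Z' : Set α} (h : Cov 𝒮 X Z) (hZ : Z' ⊆ Z) : Cov 𝒮 X Z' := by
  obtain ⟨β, i1, i2, θ, hθ, hA⟩ := h
  exact ⟨β, i1, i2, θ, hθ, fun A hA' => hA A fun a ha => hZ (hA' a ha)⟩

lemma Cov.empty (X : Set α) : Cov 𝒮 X ∅ :=
  ⟨Unit, inferInstance, inferInstance, fun _ _ => False, by fun_prop, fun A hA =>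
    ⟨(), fun a ha => (hA a ha).elim, fun x hx => hx.elim⟩⟩

lemma Cov.union {X Z Z' : Set α} (h : Cov 𝒮 X Z) (h' : Cov 𝒮 X Z') : Cov 𝒮 X (Z ∪ Z') := by
  classical
  obtain ⟨β, i1, i2, θ, hθ, hA⟩ := h
  obtain ⟨β', i1', i2', θ', hθ', hA'⟩ := h'
  refine ⟨β × β', inferInstance, inferInstance, fun a b => θ a b.1 ∨ θ' a b.2, ?_, ?_⟩
  · have h1 : DFun 𝒮 (fun p : α × (β × β') => θ p.1 p.2.1) :=
      DFun.comp' (g := fun p : α × β => θ p.1 p.2) hθ
        (f := fun p : α × (β × β') => (p.1, p.2.1)) (by fun_prop)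
    have h2 : DFun 𝒮 (fun p : α × (β × β') => θ' p.1 p.2.2) :=
      DFun.comp' (g := fun p : α × β' => θ' p.1 p.2) hθ'
        (f := fun p : α × (β × β') => (p.1, p.2.2)) (by fun_prop)
    exact h1.or h2
  · intro A hZ
    obtain ⟨b, hb1, hb2⟩ := hA (A.filter (· ∈ Z)) (fun a ha => (Finset.mem_filter.1 ha).2)
    obtain ⟨b', hb1', hb2'⟩ := hA' (A.filter (· ∈ Z')) (fun a ha => (Finset.mem_filter.1 ha).2)
    refine ⟨(b, b'), fun a ha => ?_, ?_⟩
    · rcases hZ a ha with h | h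
      · exact Or.inl (hb1 a (Finset.mem_filter.2 ⟨ha, h⟩))
      · exact Or.inr (hb1' a (Finset.mem_filter.2 ⟨ha, h⟩))
    · rintro x (hx | hx)
      · exact hb2 x hx
      · exact hb2' x hx

variable (𝒮) in
/-- the filter of sets containing `X` up to a covered set -/
def covFilter (X : Set α) : Filter α where
  sets := {S | Cov 𝒮 X (X \ S)}
  univ_sets := by
    show Cov 𝒮 X (X \ univ)
    rw [sdiff_univ]
    exact Cov.empty X
  sets_of_superset := fun h hST => Cov.mono h (sdiff_subset_sdiff_right hST)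
  inter_sets := fun h h' => by
    show Cov 𝒮 X _
    rw [sdiff_inter]
    exact Cov.union h h'

lemma mem_covFilter {X S : Set α} : S ∈ covFilter 𝒮 X ↔ Cov 𝒮 X (X \ S) := Iff.rfl

lemma exists_ultrafilter {X : Set α} (hX : ¬ Cov 𝒮 X X) :
    ∃ U : Ultrafilter α, X ∈ U ∧ ∀ Z, Cov 𝒮 X Z → Z ∉ U := by
  have hne : (covFilter 𝒮 X).NeBot := by
    rw [Filter.neBot_iff]
    intro h
    have : (∅ : Set α) ∈ covFilter 𝒮 X := by
      rw [h]; exact Filter.mem_bot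
    rw [mem_covFilter, sdiff_empty] at this
    exact hX this
  refine ⟨Ultrafilter.of (covFilter 𝒮 X), ?_, ?_⟩
  · refine Ultrafilter.of_le (covFilter 𝒮 X) ?_
    rw [mem_covFilter, sdiff_self]
    exact Cov.empty X
  · intro Z hZ hmem
    have h1 : Zᶜ ∈ Ultrafilter.of (covFilter 𝒮 X) := by
      refine Ultrafilter.of_le (covFilter 𝒮 X) ?_
      rw [mem_covFilter]
      refine hZ.mono ?_
      rintro x ⟨_, hx⟩
      simpa using hx
    exact (Ultrafilter.compl_mem_iff_notMem.1 h1) hmem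

/-- iterated generic truth -/
def Gen {α : Type} (U : Ultrafilter α) : (k : ℕ) → (Pw α k → Prop) → Prop
  | 0, Φ => Φ ()
  | k + 1, Φ => {y | Gen U k (fun z => Φ (y, z))} ∈ U

omit [DSort α] [DRan 𝒮 α] in
lemma Gen.mono {U : Ultrafilter α} {k : ℕ} {Φ Ψ : Pw α k → Prop} (h : Gen U k Φ)
    (hΦ : ∀ z, Φ z → Ψ z) : Gen U k Ψ := by
  induction k with
  | zero => exact hΦ _ h
  | succ k ih => exact mem_of_superset h fun y hy => ih hy fun z => hΦ (y, z)

omit [DSort α] [DRan 𝒮 α] in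
lemma Gen.and {U : Ultrafilter α} {k : ℕ} {Φ Ψ : Pw α k → Prop} (h : Gen U k Φ)
    (h' : Gen U k Ψ) : Gen U k (fun z => Φ z ∧ Ψ z) := by
  induction k with
  | zero => exact ⟨h, h'⟩
  | succ k ih =>
    refine mem_of_superset (Filter.inter_mem h h') fun y hy => ?_
    exact ih hy.1 hy.2

omit [DSort α] [DRan 𝒮 α] in
lemma Gen.true {U : Ultrafilter α} {k : ℕ} : Gen U k (fun _ => True) := by
  induction k with
  | zero => trivial
  | succ k ih => exact mem_of_superset Filter.univ_mem fun y _ => ih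

omit [DSort α] [DRan 𝒮 α] in
lemma Gen.all_finset {ι : Type*} (A : Finset ι) {U : Ultrafilter α} {k : ℕ}
    {Φ : ι → Pw α k → Prop} (h : ∀ a ∈ A, Gen U k (Φ a)) :
    Gen U k (fun z => ∀ a ∈ A, Φ a z) := by
  classical
  induction A using Finset.induction_on with
  | empty => exact Gen.true.mono (by simp)
  | insert a A _ ih =>
    refine ((h a (by simp)).and (ih fun b hb => h b (by simp [hb]))).mono ?_
    intro z hz b hb
    rcases Finset.mem_insert.1 hb with rfl | hb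
    · exact hz.1
    · exact hz.2 b hb

omit [DSort α] [DRan 𝒮 α] in
lemma Gen.not {U : Ultrafilter α} {k : ℕ} {Φ : Pw α k → Prop} (h : ¬ Gen U k Φ) :
    Gen U k (fun z => ¬ Φ z) := by
  induction k with
  | zero => exact h
  | succ k ih =>
    have h1 : {y | Gen U k (fun z => Φ (y, z))}ᶜ ∈ U := Ultrafilter.compl_mem_iff_notMem.2 h
    exact mem_of_superset h1 fun y hy => ih hy

omit [DSort α] [DRan 𝒮 α] in
lemma Gen.exists {U : Ultrafilter α} {k : ℕ} {Φ : Pw α k → Prop} (h : Gen U k Φ) :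
    ∃ z, Φ z := by
  induction k with
  | zero => exact ⟨_, h⟩
  | succ k ih =>
    obtain ⟨y, hy⟩ := U.nonempty_of_mem h
    obtain ⟨z, hz⟩ := ih hy
    exact ⟨(y, z), hz⟩

/-- the membership pattern of a tuple in a relation -/
def Pat {α : Type} (R : α → Prop) : (k : ℕ) → (ℕ → Prop) → Pw α k → Prop
  | 0, _, _ => True
  | k + 1, t, z => (R z.1 ↔ t 0) ∧ Pat R k (fun n => t (n + 1)) z.2

lemma star {X : Set α} {U : Ultrafilter α} (hX : X ∈ U) (hU : ∀ Z, Cov 𝒮 X Z → Z ∉ U)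
    (k : ℕ) (Φ : Pw α k → Prop) (hΦ : DFun 𝒮 Φ) (hG : Gen U k Φ) (t : ℕ → Prop) :
    ∃ z, Φ z ∧ Pat (· ∈ X) k t z := by
  classical
  induction k generalizing t with
  | zero => exact ⟨(), hG, trivial⟩
  | succ k ih =>
    let Φ' : α × Pw α k → Prop := Φ
    have hΦ' : DFun 𝒮 Φ' := hΦ
    have hsec : ∀ a : α, DFun 𝒮 (fun z : Pw α k => Φ' (a, z)) := fun a =>
      DFun.comp' hΦ' (f := fun z : Pw α k => (a, z)) (by fun_prop)
    let Y : Set α := {y | Gen U k (fun z => Φ' (y, z))}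
    have hY : Y ∈ U := hG
    have hfin : ∀ A : Finset α, (∀ a ∈ A, a ∈ Y) →
        ∃ z, (∀ a ∈ A, Φ' (a, z)) ∧ Pat (· ∈ X) k (fun n => t (n + 1)) z := by
      intro A hA
      exact ih (fun z => ∀ a ∈ A, Φ' (a, z)) (DFun.all_finset A fun a _ => hsec a)
        (Gen.all_finset A hA) _
    by_cases h0 : t 0
    · obtain ⟨y, hyY, hyX⟩ := U.nonempty_of_mem (Filter.inter_mem hY hX)
      obtain ⟨z, hz1, hz2⟩ := hfin {y} (fun a ha => by
        rw [Finset.mem_singleton] at ha; rwa [ha])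
      exact ⟨(y, z), hz1 y (by simp), ⟨iff_of_true hyX h0, hz2⟩⟩
    · by_contra hcon
      refine hU Y ⟨Pw α k, inferInstance, inferInstance, fun a z => Φ' (a, z), hΦ', ?_⟩ hY
      intro A hA
      obtain ⟨z, hz1, hz2⟩ := hfin A hA
      refine ⟨z, hz1, fun x hx => ?_⟩
      by_contra hxX
      exact hcon ⟨(x, z), hx, ⟨iff_of_false hxX h0, hz2⟩⟩

/-- the coordinates of a tuple -/
def Pw.get {α : Type} : (k : ℕ) → Pw α k → Fin k → α
  | 0, _, i => i.elim0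
  | k + 1, z, i => Fin.cases z.1 (fun j => Pw.get k z.2 j) i

omit [DSort α] [DRan 𝒮 α] in
lemma pat_iff {R : α → Prop} {k : ℕ} {t : ℕ → Prop} {z : Pw α k} :
    Pat R k t z ↔ ∀ i : Fin k, (R (Pw.get k z i) ↔ t i) := by
  induction k generalizing t with
  | zero => exact ⟨fun _ i => i.elim0, fun _ => trivial⟩
  | succ k ih =>
    rw [Fin.forall_fin_succ]
    show _ ∧ Pat R k _ z.2 ↔ _
    rw [ih]
    rfl

lemma dfun_pat {γ : Type} [DSort γ] [DRan 𝒮 γ] {R : α → γ → Prop}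
    (hR : DFun 𝒮 (fun p : α × γ => R p.1 p.2)) (k : ℕ) (t : ℕ → Prop) :
    DFun 𝒮 (fun p : Pw α k × γ => Pat (fun x => R x p.2) k t p.1) := by
  induction k generalizing t with
  | zero => exact DFun.const' True
  | succ k ih =>
    have h1 : DFun 𝒮 (fun p : (α × Pw α k) × γ => R p.1.1 p.2) :=
      DFun.comp' (g := fun p : α × γ => R p.1 p.2) hR
        (f := fun p : (α × Pw α k) × γ => (p.1.1, p.2)) (by fun_prop)
    have h2 : DFun 𝒮 (fun p : (α × Pw α k) × γ =>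
        Pat (fun x => R x p.2) k (fun n => t (n + 1)) p.1.2) :=
      DFun.comp' (g := fun p : Pw α k × γ => Pat (fun x => R x p.2) k (fun n => t (n + 1)) p.1)
        (ih _) (f := fun p : (α × Pw α k) × γ => (p.1.2, p.2)) (by fun_prop)
    exact DFun.and (DFun.iff h1 (DFun.const' _)) h2

/-- the key lemma on externally definable sets -/
lemma key (hnip : NIP 𝒮) {γ : Type} [DSort γ] [DRan 𝒮 γ] {R : α → γ → Prop}
    (hR : DFun 𝒮 (fun p : α × γ => R p.1 p.2)) (X : Set α)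
    (hX : ∀ F : Finset α, ∃ c, ∀ x ∈ F, (x ∈ X ↔ R x c)) : Cov 𝒮 X X := by
  classical
  by_contra hcov
  obtain ⟨U, hXU, hU⟩ := exists_ultrafilter hcov
  obtain ⟨N, hN⟩ := hnip.sort hR
  -- every pattern is generically realized
  have hE : ∀ t : ℕ → Prop, Gen U N (fun z => ∃ c, Pat (fun x => R x c) N t z) := by
    intro t
    by_contra hcon
    have h1 := Gen.not hcon
    have h2 : DFun 𝒮 (fun z : Pw α N => ∃ c, Pat (fun x => R x c) N t z) :=
      DFun.ex (P := fun (z : Pw α N) (c : γ) => Pat (fun x => R x c) N t z) (dfun_pat hR N t)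
    obtain ⟨z, hz1, hz2⟩ := star hXU hU N _ h2.not h1 t
    obtain ⟨c, hc⟩ := hX (Finset.univ.image (Pw.get N z))
    refine hz1 ⟨c, ?_⟩
    rw [pat_iff] at hz2 ⊢
    intro i
    rw [← hz2 i]
    exact (hc _ (Finset.mem_image_of_mem _ (Finset.mem_univ i))).symm
  let tt : Set (Fin N) → ℕ → Prop := fun S n => ∃ h : n < N, (⟨n, h⟩ : Fin N) ∈ S
  obtain ⟨z, hz⟩ := (Gen.all_finset (Finset.univ : Finset (Set (Fin N)))
    (fun S _ => hE (tt S))).exists
  refine hN (Pw.get N z) fun S => ?_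
  obtain ⟨c, hc⟩ := hz S (Finset.mem_univ S)
  refine ⟨c, fun i => ?_⟩
  rw [pat_iff] at hc
  rw [hc i]
  exact ⟨fun ⟨_, h⟩ => h, fun h => ⟨i.2, h⟩⟩

end key

/-! ### the structure of externally definable sets -/

section ext

variable {𝒮 : Str}

lemma dfun_of_def {ι κ : Type} [Finite ι] [Finite κ] {R : Set (ι ⊕ κ → ℝ)} (hR : 𝒮.Def R) :
    DFun 𝒮 (fun p : (ι → ℝ) × (κ → ℝ) => Sum.elim p.1 p.2 ∈ R) := by
  refine D.toDFun ?_
  unfold D
  have : DSort.emb '' {p : (ι → ℝ) × (κ → ℝ) | Sum.elim p.1 p.2 ∈ R} = R := by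
    ext v
    constructor
    · rintro ⟨p, hp, rfl⟩
      exact hp
    · intro hv
      refine ⟨(v ∘ Sum.inl, v ∘ Sum.inr), ?_, ?_⟩
      · show Sum.elim (v ∘ Sum.inl) (v ∘ Sum.inr) ∈ R
        rwa [Sum.elim_comp_inl_inr]
      · exact Sum.elim_comp_inl_inr v
  rw [this]
  exact hR

lemma ExtDef.cov (hnip : NIP 𝒮) {ι : Type} [Finite ι] {X : Set (ι → ℝ)} (hX : ExtDef 𝒮 X) :
    Cov 𝒮 X X := by
  obtain ⟨κ, _, R, hR, h⟩ := hX
  exact key hnip (γ := κ → ℝ) (R := fun x c => Sum.elim x c ∈ R) (dfun_of_def hR) X h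

lemma extDef_of_family {ι : Type} [Finite ι] {β : Type} [DSort β] [DRan 𝒮 β]
    {θ : (ι → ℝ) → β → Prop} (hθ : DFun 𝒮 (fun p : (ι → ℝ) × β => θ p.1 p.2))
    {X : Set (ι → ℝ)} (h : ∀ F : Finset (ι → ℝ), ∃ b, ∀ x ∈ F, (x ∈ X ↔ θ x b)) :
    ExtDef 𝒮 X := by
  refine ⟨DSort.ix β, inferInstance, _, hθ.toD, fun F => ?_⟩
  obtain ⟨b, hb⟩ := h F
  refine ⟨DSort.emb b, fun x hx => ?_⟩
  rw [hb x hx]
  constructor
  · intro h1
    exact ⟨(x, b), h1, rfl⟩
  · rintro ⟨p, hp, h2⟩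
    have : p = (x, b) := DSort.inj h2
    subst this
    exact hp

lemma extDef_of_def {ι : Type} {X : Set (ι → ℝ)} (hX : 𝒮.Def X) : ExtDef 𝒮 X :=
  ⟨Empty, inferInstance, {w | w ∘ Sum.inl ∈ X}, 𝒮.preim Sum.inl hX, fun _ =>
    ⟨Empty.elim, fun _ _ => Iff.rfl⟩⟩

/-- the Shelah expansion -/
def shelahStr (hnip : NIP 𝒮) : Str where
  Def := fun X => ExtDef 𝒮 X
  compl := by
    rintro ι s ⟨κ, hκ, R, hR, h⟩
    refine ⟨κ, hκ, Rᶜ, 𝒮.compl hR, fun F => ?_⟩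
    obtain ⟨c, hc⟩ := h F
    exact ⟨c, fun x hx => not_congr (hc x hx)⟩
  inter := by
    rintro ι s t ⟨κ, hκ, R, hR, h⟩ ⟨κ', hκ', R', hR', h'⟩
    refine ⟨κ ⊕ κ', inferInstance, {w | w ∘ Sum.map id Sum.inl ∈ R} ∩ {w | w ∘ Sum.map id Sum.inr ∈ R'},
      𝒮.inter (𝒮.preim _ hR) (𝒮.preim _ hR'), fun F => ?_⟩
    obtain ⟨c, hc⟩ := h F
    obtain ⟨c', hc'⟩ := h' F
    refine ⟨Sum.elim c c', fun x hx => ?_⟩
    have e1 : Sum.elim x (Sum.elim c c') ∘ Sum.map id Sum.inl = Sum.elim x c := by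
      funext i; rcases i with i | i <;> rfl
    have e2 : Sum.elim x (Sum.elim c c') ∘ Sum.map id Sum.inr = Sum.elim x c' := by
      funext i; rcases i with i | i <;> rfl
    simp only [mem_inter_iff, mem_ofPred_eq, e1, e2, hc x hx, hc' x hx]
  preim := by
    classical
    rintro ι κ' f s ⟨κ, hκ, R, hR, h⟩
    refine ⟨κ, hκ, {w | w ∘ Sum.map f id ∈ R}, 𝒮.preim _ hR, fun F => ?_⟩
    obtain ⟨c, hc⟩ := h (F.image fun v => v ∘ f)
    refine ⟨c, fun x hx => ?_⟩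
    have e1 : Sum.elim x c ∘ Sum.map f id = Sum.elim (x ∘ f) c := by
      funext i; rcases i with i | i <;> rfl
    have := hc (x ∘ f) (Finset.mem_image_of_mem _ hx)
    simp only [mem_ofPred_eq, e1]
    exact this
  proj := by
    classical
    intro ι κ _ _ s hs
    obtain ⟨β, i1, i2, θ, hθ, hA⟩ := ExtDef.cov hnip hs
    refine extDef_of_family (β := β) (θ := fun v b => ∃ w : κ → ℝ, θ (Sum.elim v w) b) ?_ ?_
    · refine DFun.ex (P := fun (p : (ι → ℝ) × β) (w : κ → ℝ) => θ (Sum.elim p.1 w) p.2) ?_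
      refine DFun.comp' (g := fun p : (ι ⊕ κ → ℝ) × β => θ p.1 p.2) hθ
        (f := fun p : ((ι → ℝ) × β) × (κ → ℝ) => (Sum.elim p.1.1 p.2, p.1.2)) ?_
      refine DFun.prodMk (DFun.pi' fun i => ?_) (by fun_prop)
      rcases i with i | i
      · show DFun 𝒮 (fun p : ((ι → ℝ) × β) × (κ → ℝ) => p.1.1 i)
        fun_prop
      · show DFun 𝒮 (fun p : ((ι → ℝ) × β) × (κ → ℝ) => p.2 i)
        fun_prop
    · intro F
      have hch : ∀ v : ι → ℝ, ∃ w : κ → ℝ, (∃ w', Sum.elim v w' ∈ s) → Sum.elim v w ∈ s := by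
        intro v
        by_cases h : ∃ w', Sum.elim v w' ∈ s
        · exact ⟨h.choose, fun _ => h.choose_spec⟩
        · exact ⟨0, fun h' => absurd h' h⟩
      choose w hw using hch
      obtain ⟨b, hb1, hb2⟩ := hA ((F.filter fun v => ∃ w', Sum.elim v w' ∈ s).image
        fun v => Sum.elim v (w v)) (by
          intro a ha
          obtain ⟨v, hv, rfl⟩ := Finset.mem_image.1 ha
          exact hw v (Finset.mem_filter.1 hv).2)
      refine ⟨b, fun v hv => ⟨fun h => ?_, fun ⟨w', h⟩ => ⟨w', hb2 _ h⟩⟩⟩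
      exact ⟨w v, hb1 _ (Finset.mem_image_of_mem _ (Finset.mem_filter.2 ⟨hv, h⟩))⟩
  lt := extDef_of_def 𝒮.lt
  add := extDef_of_def 𝒮.add
  const := fun c => extDef_of_def (𝒮.const c)

lemma shelahStr_nip (hnip : NIP 𝒮) : NIP (shelahStr hnip) := by
  classical
  rintro ι κ _ _ R ⟨lam, hlam, Q, hQ, h⟩
  obtain ⟨N, hN⟩ := hnip (ι := ι) (κ := κ ⊕ lam)
    {w | w ∘ (Sum.elim (Sum.elim Sum.inl (Sum.inr ∘ Sum.inl)) (Sum.inr ∘ Sum.inr)) ∈ Q}
    (𝒮.preim _ hQ)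
  refine ⟨N, fun a ha => hN a fun S => ?_⟩
  choose b hb using ha
  obtain ⟨c, hc⟩ := h ((Finset.univ : Finset (Fin N × Set (Fin N))).image
    fun p => Sum.elim (a p.1) (b p.2))
  refine ⟨Sum.elim (b S) c, fun i => ?_⟩
  rw [← hb S i, hc _ (Finset.mem_image.2 ⟨(i, S), Finset.mem_univ _, rfl⟩)]
  have e : Sum.elim (a i) (Sum.elim (b S) c) ∘
      (Sum.elim (Sum.elim Sum.inl (Sum.inr ∘ Sum.inl)) (Sum.inr ∘ Sum.inr)) =
      Sum.elim (Sum.elim (a i) (b S)) c := by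
    funext j
    rcases j with (j | j) | j <;> rfl
  rw [mem_ofPred_eq, e]

lemma shelahStr_noiseless (hlem : LemmaNStmt) (hnip : NIP 𝒮) (hnl : Noiseless 𝒮) :
    Noiseless (shelahStr hnip) := by
  classical
  intro P hP a b hab
  by_contra hcon
  push Not at hcon
  -- the set as a subset of `Unit → ℝ`
  have hX : ExtDef 𝒮 {v : Unit → ℝ | P (v ())} := by
    have h1 : ExtDef 𝒮 (DSort.emb '' {x : ℝ | P x}) := hP.toD
    have e : DSort.emb '' {x : ℝ | P x} = {v : Unit → ℝ | P (v ())} := by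
      ext v
      constructor
      · rintro ⟨x, hx, rfl⟩; exact hx
      · intro hv; exact ⟨v (), hv, rfl⟩
    rw [← e]
    exact h1
  obtain ⟨β, i1, i2, θ, hθ, hA⟩ := ExtDef.cov hnip hX
  -- definability of the family as a family of subsets of `ℝ`
  have hθ' : DFun 𝒮 (fun p : β × ℝ => θ (fun _ => p.2) p.1) :=
    DFun.comp' (g := fun p : (Unit → ℝ) × β => θ p.1 p.2) hθ
      (f := fun p : β × ℝ => ((fun _ => p.2 : Unit → ℝ), p.1))
      (DFun.prodMk (DFun.pi' fun _ => by fun_prop) (by fun_prop))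
  let Q : β → ℝ → Prop := fun e x => a < x ∧ x < b ∧ θ (fun _ => x) e
  have hQ : DFun 𝒮 (fun p : β × ℝ => Q p.1 p.2) := by
    show DFun 𝒮 (fun p : β × ℝ => a < p.2 ∧ p.2 < b ∧ θ (fun _ => p.2) p.1)
    fun_prop
  let good : β → Prop := fun e => ∀ p q : ℝ, p < q → ∃ y, p < y ∧ y < q ∧ ¬ Q e y
  have hgood : DFun 𝒮 good := by
    have h1 : DFun 𝒮 (fun p : (((β × ℝ) × ℝ) × ℝ) => Q p.1.1.1 p.2) :=
      DFun.comp' (g := fun p : β × ℝ => Q p.1 p.2) hQ
        (f := fun p : (((β × ℝ) × ℝ) × ℝ) => (p.1.1.1, p.2)) (by fun_prop)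
    refine DFun.all (P := fun e p => ∀ q : ℝ, p < q → ∃ y, p < y ∧ y < q ∧ ¬ Q e y) ?_
    refine DFun.all (P := fun (r : β × ℝ) q => r.2 < q → ∃ y, r.2 < y ∧ y < q ∧ ¬ Q r.1 y) ?_
    refine DFun.imp (by fun_prop) ?_
    refine DFun.ex (P := fun (r : (β × ℝ) × ℝ) y => r.1.2 < y ∧ y < r.2 ∧ ¬ Q r.1.1 y) ?_
    fun_prop
  refine hlem 𝒮 hnip (fun e x => Q e x ∧ good e) ?_ ?_ a b hab ?_
  · have h1 : DFun 𝒮 (fun p : β × ℝ => good p.1) :=
      DFun.comp' (g := good) hgood (f := fun p : β × ℝ => p.1) (by fun_prop)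
    exact hQ.and h1
  · intro e p q hpq
    by_cases hg : good e
    · have hQe : DFun 𝒮 (Q e) :=
        DFun.comp' (g := fun p : β × ℝ => Q p.1 p.2) hQ (f := fun x : ℝ => (e, x)) (by fun_prop)
      obtain ⟨c, d, hc, hcd, hd, h1 | h1⟩ := hnl (Q e) hQe p q hpq
      · obtain ⟨y, hy1, hy2, hy3⟩ := hg c d hcd
        exact absurd (h1 y hy1 hy2) hy3
      · exact ⟨c, d, hc, hcd, hd, fun x hx1 hx2 h2 => h1 x hx1 hx2 h2.1⟩
    · exact ⟨p, q, le_rfl, hpq, le_rfl, fun x _ _ h2 => hg h2.2⟩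
  · intro F hF
    have hch : ∀ I : ℝ × ℝ, ∃ x, I ∈ F → I.1 < x ∧ x < I.2 ∧ P x := by
      intro I
      by_cases hI : I ∈ F
      · obtain ⟨h1, h2, h3⟩ := hF I hI
        obtain ⟨-, x, hx1, hx2, hx3⟩ := hcon I.1 I.2 h1 h2 h3
        exact ⟨x, fun _ => ⟨hx1, hx2, hx3⟩⟩
      · exact ⟨0, fun h => absurd h hI⟩
    choose x hx using hch
    obtain ⟨e, he1, he2⟩ := hA (F.image fun I => fun _ => x I) (by
      intro v hv
      obtain ⟨I, hI, rfl⟩ := Finset.mem_image.1 hv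
      exact (hx I hI).2.2)
    refine ⟨e, fun I hI => ⟨x I, (hx I hI).1, (hx I hI).2.1, ⟨?_, ?_, ?_⟩, ?_⟩⟩
    · exact lt_of_le_of_lt (hF I hI).1 (hx I hI).1
    · exact lt_of_lt_of_le (hx I hI).2.1 (hF I hI).2.2
    · exact he1 _ (Finset.mem_image_of_mem _ hI)
    · intro p q hpq
      by_cases hcd : max p a < min q b
      · obtain ⟨⟨y, hy1, hy2, hy3⟩, -⟩ := hcon (max p a) (min q b) (le_max_right _ _) hcd
          (min_le_right _ _)
        refine ⟨y, lt_of_le_of_lt (le_max_left _ _) hy1, lt_of_lt_of_le hy2 (min_le_left _ _), ?_⟩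
        rintro ⟨-, -, h3⟩
        exact hy3 (he2 _ h3)
      · refine ⟨(p + q) / 2, by linarith, by linarith, ?_⟩
        rintro ⟨h1, h2, -⟩
        refine hcd ((max_lt ?_ h1).trans (lt_min ?_ h2)) <;> linarith

theorem shelah (hlem : LemmaNStmt) : ShelahStmt := fun _ hnip hnl =>
  ⟨shelahStr hnip, fun _ hX => hX, shelahStr_nip hnip, shelahStr_noiseless hlem hnip hnl⟩

end ext

end Pool.Agent.Lib.MP_77ea03_lc
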