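import Pool.Agent.Lib.MP_77ea03_lc.Curve
import Pool.Agent.Lib.MP_77ea03_lc.HJ
import Pool.Agent.Lib.MP_77ea03_lc.Shelah
import Pool.Agent.Lib.MP_77ea03_lc.Final
import Pool.Agent.Lib.MP_77ea03_lc.FromL

/-! Module K: elimination of imaginaries, a definable order on the field, final assembly. -/

set_option autoImplicit false

namespace Pool.Agent.Lib.MP_77ea03_lc

open Set DSort

variable {𝒮 : Str}

theorem DFun.mem_emb {α : Type} [DSort α] [DRan 𝒮 α] {R : Set (ix α → ℝ)} (hR : 𝒮.Def R) :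
    DFun 𝒮 (fun a : α => emb a ∈ R) := by
  refine D.toDFun ?_
  unfold D
  have : emb '' {a : α | emb a ∈ R} = range (emb : α → _) ∩ R := by
    ext v
    constructor
    · rintro ⟨a, ha, rfl⟩
      exact ⟨⟨a, rfl⟩, ha⟩
    · rintro ⟨⟨a, rfl⟩, h⟩
      exact ⟨a, h, rfl⟩
  rw [this]
  exact 𝒮.inter DRan.ran hR

theorem DFun.ex_fin {α : Type} [DSort α] [DRan 𝒮 α] {n : ℕ} {P : Fin n → α → Prop}
    (hP : ∀ k, DFun 𝒮 (P k)) : DFun 𝒮 (fun a => ∃ k, P k a) := by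
  refine (DFun.ex_finset Finset.univ (fun k _ => hP k)).congrP ?_
  intro a
  simp

/-- Lexicographic order on tuples. -/
def lexlt {n : ℕ} (x y : Fin n → ℝ) : Prop := ∃ i, (∀ j, j < i → x j = y j) ∧ x i < y i

theorem lexlt_iff {n : ℕ} (x y : Fin n → ℝ) : lexlt x y ↔ toLex x < toLex y := Iff.rfl

theorem DFun.lexlt' {α : Type} [DSort α] [DRan 𝒮 α] {n : ℕ} {f g : α → (Fin n → ℝ)}
    (hf : DFun 𝒮 f) (hg : DFun 𝒮 g) : DFun 𝒮 (fun a => lexlt (f a) (g a)) := by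
  unfold lexlt
  refine DFun.ex_fin (fun i => ?_)
  have h1 : DFun 𝒮 (fun a => ∀ j, j < i → f a j = g a j) := by
    refine DFun.all_fin (fun j => ?_)
    fun_prop
  fun_prop

/-- The interpreted field as a sort. -/
theorem exists_sort (hN : NIP 𝒮) (hn : Noiseless 𝒮) {n : ℕ} {X : Set (Fin n → ℝ)}
    {E : Set (Fin n ⊕ Fin n → ℝ)} {A Mu : Set (Fin n ⊕ Fin n ⊕ Fin n → ℝ)}
    (hX : 𝒮.Def X) (hE : 𝒮.Def E) (hA : 𝒮.Def A) (hMu : 𝒮.Def Mu)
    {K : Type} [Field K] {g : (Fin n → ℝ) → K} (hg : g '' X = univ)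
    (hgE : ∀ a ∈ X, ∀ b ∈ X, (Sum.elim a b ∈ E ↔ g a = g b))
    (hgA : ∀ a ∈ X, ∀ b ∈ X, ∀ c ∈ X, (Sum.elim a (Sum.elim b c) ∈ A ↔ g a + g b = g c))
    (hgM : ∀ a ∈ X, ∀ b ∈ X, ∀ c ∈ X, (Sum.elim a (Sum.elim b c) ∈ Mu ↔ g a * g b = g c)) :
    ∃ (_ : DSort K) (_ : DRan 𝒮 K), DFun 𝒮 (fun p : K × K => p.1 + p.2) ∧
      DFun 𝒮 (fun p : K × K => p.1 * p.2) ∧
      ∃ lt : K → K → Prop, DFun 𝒮 (fun p : K × K => lt p.1 p.2) ∧
        (∀ x, ¬ lt x x) ∧ (∀ x y z, lt x y → lt y z → lt x z) ∧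
        (∀ x y, x ≠ y → lt x y ∨ lt y x) := by
  -- definability of the data over the sort `Fin n → ℝ`
  have hXd : DFun 𝒮 (fun v : Fin n → ℝ => v ∈ X) := DFun.mem_emb (α := Fin n → ℝ) hX
  have hEd : DFun 𝒮 (fun p : (Fin n → ℝ) × (Fin n → ℝ) => Sum.elim p.1 p.2 ∈ E) :=
    DFun.mem_emb (α := (Fin n → ℝ) × (Fin n → ℝ)) hE
  have hAd : DFun 𝒮 (fun p : (Fin n → ℝ) × (Fin n → ℝ) × (Fin n → ℝ) =>
      Sum.elim p.1 (Sum.elim p.2.1 p.2.2) ∈ A) :=
    DFun.mem_emb (α := (Fin n → ℝ) × (Fin n → ℝ) × (Fin n → ℝ)) hA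
  have hMd : DFun 𝒮 (fun p : (Fin n → ℝ) × (Fin n → ℝ) × (Fin n → ℝ) =>
      Sum.elim p.1 (Sum.elim p.2.1 p.2.2) ∈ Mu) :=
    DFun.mem_emb (α := (Fin n → ℝ) × (Fin n → ℝ) × (Fin n → ℝ)) hMu
  -- abstract predicates for the automation
  obtain ⟨PX, hPX⟩ : ∃ PX : (Fin n → ℝ) → Prop, ∀ v, PX v ↔ v ∈ X := ⟨_, fun _ => Iff.rfl⟩
  obtain ⟨PE, hPE⟩ : ∃ PE : (Fin n → ℝ) → (Fin n → ℝ) → Prop,
    ∀ v w, PE v w ↔ Sum.elim v w ∈ E := ⟨fun v w => Sum.elim v w ∈ E, fun _ _ => Iff.rfl⟩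
  obtain ⟨PA, hPA⟩ : ∃ PA : (Fin n → ℝ) → (Fin n → ℝ) → (Fin n → ℝ) → Prop,
    ∀ u v w, PA u v w ↔ Sum.elim u (Sum.elim v w) ∈ A :=
    ⟨fun u v w => Sum.elim u (Sum.elim v w) ∈ A, fun _ _ _ => Iff.rfl⟩
  obtain ⟨PM, hPM⟩ : ∃ PM : (Fin n → ℝ) → (Fin n → ℝ) → (Fin n → ℝ) → Prop,
    ∀ u v w, PM u v w ↔ Sum.elim u (Sum.elim v w) ∈ Mu :=
    ⟨fun u v w => Sum.elim u (Sum.elim v w) ∈ Mu, fun _ _ _ => Iff.rfl⟩
  have hXd' : DFun 𝒮 PX := hXd.congrP hPX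
  have hEd' : DFun 𝒮 (fun p : (Fin n → ℝ) × (Fin n → ℝ) => PE p.1 p.2) :=
    hEd.congrP (fun p => hPE _ _)
  have hAd' : DFun 𝒮 (fun p : (Fin n → ℝ) × (Fin n → ℝ) × (Fin n → ℝ) => PA p.1 p.2.1 p.2.2) :=
    hAd.congrP (fun p => hPA _ _ _)
  have hMd' : DFun 𝒮 (fun p : (Fin n → ℝ) × (Fin n → ℝ) × (Fin n → ℝ) => PM p.1 p.2.1 p.2.2) :=
    hMd.congrP (fun p => hPM _ _ _)
  obtain ⟨ch, hch, hchD⟩ := hasChoice 𝒮 hN hn (Fin n → ℝ)
  have hsurj : ∀ k : K, ∃ a, a ∈ X ∧ g a = k := by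
    intro k
    have : k ∈ g '' X := by rw [hg]; exact mem_univ k
    exact this
  have hcls : ∀ a ∈ X, (fun b => PX b ∧ PE a b) = (fun b => b ∈ X ∧ g b = g a) := by
    intro a ha
    funext b
    apply propext
    rw [hPX, hPE]
    constructor
    · rintro ⟨h1, h2⟩
      exact ⟨h1, ((hgE a ha b h1).1 h2).symm⟩
    · rintro ⟨h1, h2⟩
      exact ⟨h1, (hgE a ha b h1).2 h2.symm⟩
  let rep : K → (Fin n → ℝ) := fun k => ch (fun a => a ∈ X ∧ g a = k)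
  have hrep : ∀ k, rep k ∈ X ∧ g (rep k) = k := by
    intro k
    obtain ⟨a, ha, hak⟩ := hsurj k
    refine hch (fun b => b ∈ X ∧ g b = k) ?_ ⟨a, ha, hak⟩
    rw [← hak, ← hcls a ha]
    fun_prop
  have hinj : Function.Injective rep := by
    intro k k' h
    rw [← (hrep k).2, ← (hrep k').2, h]
  let inst : DSort K := ⟨Fin n, inferInstance, rep, hinj⟩
  have hran : DRan 𝒮 K := by
    constructor
    have h1 : DFun 𝒮 (fun a : Fin n → ℝ => PX a ∧ a = ch (fun b => PX b ∧ PE a b)) := by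
      have h2 : DFun 𝒮 (fun a : Fin n → ℝ => ch (fun b => PX b ∧ PE a b)) :=
        hchD (fun a b => PX b ∧ PE a b) (by fun_prop)
      exact hXd'.and (DFun.eq' DFun.id' h2)
    have h3 := h1.toD
    unfold D at h3
    have h4 : (emb '' {a : Fin n → ℝ | PX a ∧ a = ch (fun b => PX b ∧ PE a b)})
        = range (emb : K → _) := by
      have h5 : (emb '' {a : Fin n → ℝ | PX a ∧ a = ch (fun b => PX b ∧ PE a b)})
        = {a : Fin n → ℝ | PX a ∧ a = ch (fun b => PX b ∧ PE a b)} := image_id _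
      rw [h5]
      ext a
      constructor
      · rintro ⟨h6, h7⟩
        rw [hPX] at h6
        rw [hcls a h6] at h7
        exact ⟨g a, h7.symm⟩
      · rintro ⟨k, rfl⟩
        change PX (rep k) ∧ rep k = ch (fun b => PX b ∧ PE (rep k) b)
        refine ⟨(hPX _).2 (hrep k).1, ?_⟩
        rw [hcls _ (hrep k).1, (hrep k).2]
    rw [h4] at h3
    exact h3
  have hrepD : DFun 𝒮 rep := by
    apply DFun.pi'
    intro i
    exact DFun.emb' (α := K) (show ix K from i)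
  refine ⟨inst, hran, ?_, ?_, fun x y => lexlt (rep x) (rep y), ?_, ?_, ?_, ?_⟩
  · refine DFun.of_iff (R := fun p z => PA (rep p.1) (rep p.2) (rep z)) (by fun_prop) ?_
    intro p z
    rw [hPA, hgA _ (hrep _).1 _ (hrep _).1 _ (hrep _).1, (hrep _).2, (hrep _).2, (hrep _).2]
  · refine DFun.of_iff (R := fun p z => PM (rep p.1) (rep p.2) (rep z)) (by fun_prop) ?_
    intro p z
    rw [hPM, hgM _ (hrep _).1 _ (hrep _).1 _ (hrep _).1, (hrep _).2, (hrep _).2, (hrep _).2]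
  · exact DFun.lexlt' (by fun_prop) (by fun_prop)
  · intro x
    change ¬ (toLex (rep x) < toLex (rep x))
    exact lt_irrefl _
  · intro x y z h1 h2
    change toLex (rep x) < toLex (rep y) at h1
    change toLex (rep y) < toLex (rep z) at h2
    change toLex (rep x) < toLex (rep z)
    exact lt_trans h1 h2
  · intro x y hxy
    change toLex (rep x) < toLex (rep y) ∨ toLex (rep y) < toLex (rep x)
    apply lt_or_gt_of_ne
    intro h
    exact hxy (hinj (toLex.injective h))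

theorem mainThm (thin : ThinStmt) (hN : NIP 𝒮) (hn : Noiseless 𝒮) {n : ℕ} {X : Set (Fin n → ℝ)}
    {E : Set (Fin n ⊕ Fin n → ℝ)} {A Mu : Set (Fin n ⊕ Fin n ⊕ Fin n → ℝ)}
    (hX : 𝒮.Def X) (hE : 𝒮.Def E) (hA : 𝒮.Def A) (hMu : 𝒮.Def Mu)
    {K : Type} [Field K] [Infinite K] {g : (Fin n → ℝ) → K} (hg : g '' X = univ)
    (hgE : ∀ a ∈ X, ∀ b ∈ X, (Sum.elim a b ∈ E ↔ g a = g b))
    (hgA : ∀ a ∈ X, ∀ b ∈ X, ∀ c ∈ X, (Sum.elim a (Sum.elim b c) ∈ A ↔ g a + g b = g c))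
    (hgM : ∀ a ∈ X, ∀ b ∈ X, ∀ c ∈ X, (Sum.elim a (Sum.elim b c) ∈ Mu ↔ g a * g b = g c)) :
    Nonempty (K ≃+* ℝ) ∨ Nonempty (K ≃+* ℂ) := by
  classical
  obtain ⟨inst, hran, hadd, hmul, lt, hltD, hirr, htr, htot⟩ :=
    exists_sort hN hn hX hE hA hMu hg hgE hgA hgM
  -- NIP for the translated order
  have hadd' : ∀ {α : Type} [DSort α] [DRan 𝒮 α] {f h : α → K}, DFun 𝒮 f → DFun 𝒮 h →
      DFun 𝒮 (fun a => f a + h a) := fun hf hh => DFun.kadd hadd hf hh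
  have hmul' : ∀ {α : Type} [DSort α] [DRan 𝒮 α] {f h : α → K}, DFun 𝒮 f → DFun 𝒮 h →
      DFun 𝒮 (fun a => f a * h a) := fun hf hh =>
    DFun.comp' (g := fun p : K × K => p.1 * p.2) hmul (DFun.prodMk hf hh)
  have hlt' : ∀ {α : Type} [DSort α] [DRan 𝒮 α] {f h : α → K}, DFun 𝒮 f → DFun 𝒮 h →
      DFun 𝒮 (fun a => lt (f a) (h a)) := fun hf hh =>
    DFun.comp' (g := fun p : K × K => lt p.1 p.2) hltD (DFun.prodMk hf hh)
  have hsh : ∃ N, ¬ Shatters (fun (y : K × K) (x : K) => lt (x + y.1) (x + y.2)) N := by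
    obtain ⟨N, hN'⟩ := hN.sort (α := K × K) (β := K)
      (R := fun y x => lt (x + y.1) (x + y.2))
      (hlt' (hadd' (by fun_prop) (by fun_prop)) (hadd' (by fun_prop) (by fun_prop)))
    refine ⟨N, ?_⟩
    rintro ⟨a, ha⟩
    exact hN' a ha
  obtain ⟨lt1, h1irr, h1tr, h1tot, h1add, h1app⟩ := limitOrder K lt hirr htr htot hsh
  obtain ⟨𝒯, hext, hTN, hTn⟩ := shelah lemmaN 𝒮 hN hn
  -- transfer to `𝒯`
  have hranT : DRan 𝒯 K := ⟨hext _ (extDef_of_def hran.ran)⟩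
  have haddT : DFun 𝒯 (fun p : K × K => p.1 + p.2) := hext _ (extDef_of_def hadd)
  have hmulT : DFun 𝒯 (fun p : K × K => p.1 * p.2) := hext _ (extDef_of_def hmul)
  have hlt1 : DFun 𝒯 (fun p : K × K => lt1 p.1 p.2) := by
    apply D.toDFun
    apply hext
    refine extDef_of_family (β := K × K)
      (θ := fun v q => ∃ p : K × K, emb p = v ∧ lt (q.1 + p.1 * q.2) (q.1 + p.2 * q.2)) ?_ ?_
    · apply DFun.ex
      have hembD : DFun 𝒮 (fun p : K × K => (emb p : ix (K × K) → ℝ)) := by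
        apply DFun.pi'
        intro i
        exact DFun.emb' i
      refine DFun.and ?_ ?_
      · exact DFun.eq' (DFun.comp' hembD DFun.snd_aux) (by fun_prop)
      · exact hlt' (hadd' (by fun_prop) (hmul' (by fun_prop) (by fun_prop)))
          (hadd' (by fun_prop) (hmul' (by fun_prop) (by fun_prop)))
    · intro F
      obtain ⟨b, d, hbd⟩ := h1app (F.preimage (emb : K × K → _) inj.injOn)
      refine ⟨(b, d), fun v hv => ?_⟩
      constructor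
      · rintro ⟨p, hp, rfl⟩
        exact ⟨p, rfl, (hbd p (by simpa using hv)).1 hp⟩
      · rintro ⟨p, rfl, hp⟩
        exact ⟨p, (hbd p (by simpa using hv)).2 hp, rfl⟩
  -- the ordered group
  let ord : LinearOrder K :=
    { le := fun x y => lt1 x y ∨ x = y
      lt := lt1
      le_refl := fun x => Or.inr rfl
      le_trans := by
        rintro x y z (h1 | rfl) (h2 | rfl)
        · exact Or.inl (h1tr _ _ _ h1 h2)
        · exact Or.inl h1
        · exact Or.inl h2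
        · exact Or.inr rfl
      lt_iff_le_not_ge := by
        intro x y
        constructor
        · intro h
          refine ⟨Or.inl h, ?_⟩
          rintro (h' | rfl)
          · exact h1irr _ (h1tr _ _ _ h h')
          · exact h1irr _ h
        · rintro ⟨h | rfl, h'⟩
          · exact h
          · exact absurd (Or.inr rfl) h'
      le_antisymm := by
        rintro x y (h1 | rfl) (h2 | h2)
        · exact absurd (h1tr _ _ _ h1 h2) (h1irr _)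
        · exact h2.symm
        · rfl
        · rfl
      le_total := by
        intro x y
        by_cases h : x = y
        · exact Or.inl (Or.inr h)
        · rcases h1tot x y h with h | h
          · exact Or.inl (Or.inl h)
          · exact Or.inr (Or.inl h)
      toDecidableLE := Classical.decRel _ }
  have hord : IsOrderedAddMonoid K :=
    { add_le_add_left := by
        rintro x y (h | rfl) z
        · exact Or.inl (h1add _ _ _ h)
        · exact Or.inr rfl }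
  exact final (curveStmt thin) claimD 𝒯 hTN hTn K haddT hmulT hlt1

theorem frozenThm (thin : ThinStmt) (L : FirstOrder.Language.{0, 0}) [L.Structure ℝ]
    (hlt : Set.Definable (∅ : Set ℝ) L {v : Fin 2 → ℝ | v 0 < v 1})
    (hadd : Set.Definable (∅ : Set ℝ) L {v : Fin 3 → ℝ | v 0 + v 1 = v 2})
    (hNIP : ∀ (m k : ℕ) (φ : L.Formula (Fin m ⊕ Fin k)), ∃ N : ℕ, ∀ a : Fin N → Fin m → ℝ,
        ¬ ∀ S : Set (Fin N), ∃ b : Fin k → ℝ,
            ∀ i : Fin N, (φ.Realize (Sum.elim (a i) b) ↔ i ∈ S))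
    (hnl : ∀ (n : ℕ) (Y : Set (Fin n → ℝ)), Set.Definable (Set.univ : Set ℝ) L Y →
        (interior Y).Nonempty ∨ IsNowhereDense Y)
    (n : ℕ) (X : Set (Fin n → ℝ)) (E : Set (Fin n ⊕ Fin n → ℝ))
    (A Mu : Set (Fin n ⊕ Fin n ⊕ Fin n → ℝ))
    (hX : Set.Definable (Set.univ : Set ℝ) L X)
    (hE : Set.Definable (Set.univ : Set ℝ) L E)
    (hA : Set.Definable (Set.univ : Set ℝ) L A)
    (hMu : Set.Definable (Set.univ : Set ℝ) L Mu)
    (K : Type) [Field K] [Infinite K] (g : (Fin n → ℝ) → K)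
    (hg : g '' X = Set.univ)
    (hgE : ∀ a ∈ X, ∀ b ∈ X, (Sum.elim a b ∈ E ↔ g a = g b))
    (hgA : ∀ a ∈ X, ∀ b ∈ X, ∀ c ∈ X, (Sum.elim a (Sum.elim b c) ∈ A ↔ g a + g b = g c))
    (hgM : ∀ a ∈ X, ∀ b ∈ X, ∀ c ∈ X, (Sum.elim a (Sum.elim b c) ∈ Mu ↔ g a * g b = g c)) :
    Nonempty (K ≃+* ℝ) ∨ Nonempty (K ≃+* ℂ) :=
  mainThm (𝒮 := strOf L hlt hadd) thin (nip_strOf hlt hadd hNIP) (noiseless_strOf hlt hadd hnl)
    hX hE hA hMu hg hgE hgA hgM

end Pool.Agent.Lib.MP_77ea03_lc
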