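import Mathlib

/-!
Semantic framework: a structure on `ℝ` is a family of definable sets; sorts are types embedded in
some `ℝ^ix`; `DFun 𝒮 f` says that the graph of `f` is definable (also for `Prop`-valued `f`).
-/

set_option autoImplicit false

namespace Pool.Agent.Lib.MP_77ea03_lc

/-- A structure on `ℝ` expanding `(ℝ, <, +)` with constants, given by its definable sets. -/
structure Str where
  Def : ∀ {ι : Type}, Set (ι → ℝ) → Prop
  compl : ∀ {ι : Type} {s : Set (ι → ℝ)}, Def s → Def sᶜ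
  inter : ∀ {ι : Type} {s t : Set (ι → ℝ)}, Def s → Def t → Def (s ∩ t)
  preim : ∀ {ι κ : Type} (f : ι → κ) {s : Set (ι → ℝ)}, Def s → Def {v : κ → ℝ | v ∘ f ∈ s}
  proj : ∀ {ι κ : Type} [Finite ι] [Finite κ] {s : Set (ι ⊕ κ → ℝ)}, Def s →
    Def {v : ι → ℝ | ∃ w : κ → ℝ, Sum.elim v w ∈ s}
  lt : Def {v : Fin 2 → ℝ | v 0 < v 1}
  add : Def {v : Fin 3 → ℝ | v 0 + v 1 = v 2}
  const : ∀ c : ℝ, Def {v : Fin 1 → ℝ | v 0 = c}

/-- A sort: a type embedded in a finite power of `ℝ`. -/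
class DSort (α : Type) where
  ix : Type
  fin : Finite ix
  emb : α → ix → ℝ
  inj : Function.Injective emb

attribute [instance] DSort.fin

open DSort

/-- The image of the sort is definable. -/
class DRan (𝒮 : Str) (α : Type) [DSort α] : Prop where
  ran : 𝒮.Def (Set.range (emb : α → _))

variable {𝒮 : Str}

namespace Str

theorem Def.union {ι : Type} {s t : Set (ι → ℝ)} (hs : 𝒮.Def s) (ht : 𝒮.Def t) :
    𝒮.Def (s ∪ t) := by
  have := 𝒮.compl (𝒮.inter (𝒮.compl hs) (𝒮.compl ht))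
  rwa [Set.compl_inter, compl_compl, compl_compl] at this

theorem def_coord_const {ι : Type} (i : ι) (c : ℝ) : 𝒮.Def {v : ι → ℝ | v i = c} :=
  𝒮.preim (fun _ : Fin 1 => i) (𝒮.const c)

theorem def_coord_lt {ι : Type} (i j : ι) : 𝒮.Def {v : ι → ℝ | v i < v j} :=
  𝒮.preim (![i, j] : Fin 2 → ι) 𝒮.lt

theorem def_coord_eq {ι : Type} (i j : ι) : 𝒮.Def {v : ι → ℝ | v i = v j} := by
  have := 𝒮.inter (𝒮.compl (def_coord_lt (𝒮 := 𝒮) i j)) (𝒮.compl (def_coord_lt (𝒮 := 𝒮) j i))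
  convert this using 1
  ext v
  simp only [Set.mem_ofPred_eq, Set.mem_inter_iff, Set.mem_compl_iff, not_lt]
  constructor
  · intro h; exact ⟨h.ge, h.le⟩
  · intro h; exact le_antisymm h.2 h.1

theorem def_univ {ι : Type} [Finite ι] : 𝒮.Def (Set.univ : Set (ι → ℝ)) := by
  have h : 𝒮.Def {v : ι ⊕ Fin 1 → ℝ | v (Sum.inr 0) = 0} := def_coord_const _ _
  have h2 := 𝒮.proj h
  convert h2 using 1
  ext v
  simp only [Set.mem_univ, Set.mem_ofPred_eq, Sum.elim_inr, true_iff]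
  exact ⟨fun _ => 0, rfl⟩

theorem def_iInter {ι : Type} [Finite ι] {κ : Type} [Finite κ] {s : κ → Set (ι → ℝ)}
    (h : ∀ k, 𝒮.Def (s k)) : 𝒮.Def (⋂ k, s k) := by
  classical
  have := Fintype.ofFinite κ
  have key : ∀ t : Finset κ, 𝒮.Def (⋂ k ∈ t, s k) := by
    intro t
    induction t using Finset.induction_on with
    | empty => simpa using def_univ
    | insert a t _ ih =>
      rw [Finset.set_biInter_insert]
      exact 𝒮.inter (h a) ih
  simpa using key Finset.univ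

end Str

/-! ### Basic sorts -/

instance : DSort ℝ where
  ix := Unit
  fin := inferInstance
  emb := fun x _ => x
  inj := fun _ _ h => congrFun h ()

instance {ι : Type} [Finite ι] : DSort (ι → ℝ) where
  ix := ι
  fin := inferInstance
  emb := id
  inj := fun _ _ h => h

instance {α β : Type} [DSort α] [DSort β] : DSort (α × β) where
  ix := ix α ⊕ ix β
  fin := inferInstance
  emb := fun p => Sum.elim (emb p.1) (emb p.2)
  inj := by
    rintro ⟨a, b⟩ ⟨a', b'⟩ h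
    have h1 : emb a = emb a' := by
      funext i; exact congrFun h (Sum.inl i)
    have h2 : emb b = emb b' := by
      funext i; exact congrFun h (Sum.inr i)
    rw [inj h1, inj h2]

/-- `Prop` as a sort. -/
noncomputable instance : DSort Prop where
  ix := Unit
  fin := inferInstance
  emb := fun p _ => by classical exact if p then 1 else 0
  inj := by
    intro p q h
    have := congrFun h ()
    by_cases hp : p <;> by_cases hq : q <;> simp_all

instance : DSort Unit where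
  ix := Empty
  fin := inferInstance
  emb := fun _ => Empty.elim
  inj := fun _ _ _ => rfl

theorem emb_prod {α β : Type} [DSort α] [DSort β] (p : α × β) :
    emb p = Sum.elim (emb p.1) (emb p.2) := rfl

theorem range_prod {α β : Type} [DSort α] [DSort β] :
    Set.range (emb : α × β → _) =
      {v | v ∘ Sum.inl ∈ Set.range (emb : α → _)} ∩ {v | v ∘ Sum.inr ∈ Set.range (emb : β → _)} := by
  ext v
  constructor
  · rintro ⟨p, rfl⟩
    exact ⟨⟨p.1, by rw [emb_prod]; rfl⟩, ⟨p.2, by rw [emb_prod]; rfl⟩⟩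
  · rintro ⟨⟨a, ha⟩, ⟨b, hb⟩⟩
    refine ⟨(a, b), ?_⟩
    rw [emb_prod]
    funext i
    rcases i with i | i
    · exact congrFun ha i
    · exact congrFun hb i

instance : DRan 𝒮 ℝ where
  ran := by
    have : Set.range (emb : ℝ → _) = Set.univ := by
      ext v
      simp only [Set.mem_range, Set.mem_univ, iff_true]
      exact ⟨v (), rfl⟩
    rw [this]
    exact Str.def_univ

instance {ι : Type} [Finite ι] : DRan 𝒮 (ι → ℝ) where
  ran := by
    have : Set.range (emb : (ι → ℝ) → _) = Set.univ := by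
      ext v
      simp only [Set.mem_range, Set.mem_univ, iff_true]
      exact ⟨v, rfl⟩
    rw [this]
    exact Str.def_univ (ι := ι)

instance {α β : Type} [DSort α] [DSort β] [DRan 𝒮 α] [DRan 𝒮 β] : DRan 𝒮 (α × β) where
  ran := by
    rw [range_prod]
    exact 𝒮.inter (𝒮.preim Sum.inl DRan.ran) (𝒮.preim Sum.inr DRan.ran)

instance : DRan 𝒮 Prop where
  ran := by
    have : Set.range (emb : Prop → _) = {v | v () = 1} ∪ {v | v () = 0} := by
      classical
      ext v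
      simp only [Set.mem_range, Set.mem_union, Set.mem_ofPred_eq]
      constructor
      · rintro ⟨p, rfl⟩
        by_cases hp : p
        · left; simp [emb, hp]
        · right; simp [emb, hp]
      · rintro (h | h)
        · exact ⟨True, by funext i; simp [emb]; exact h.symm⟩
        · exact ⟨False, by funext i; simp [emb]; exact h.symm⟩
    rw [this]
    exact (Str.def_coord_const _ _).union (Str.def_coord_const _ _)

instance : DRan 𝒮 Unit where
  ran := by
    have : Set.range (emb : Unit → _) = Set.univ := by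
      ext v
      simp only [Set.mem_range, Set.mem_univ, iff_true]
      exact ⟨(), by funext i; exact i.elim⟩
    rw [this]
    exact Str.def_univ (ι := Empty)

/-! ### Definable predicates -/

/-- A predicate on a sort is definable. -/
def D (𝒮 : Str) {α : Type} [DSort α] (P : α → Prop) : Prop := 𝒮.Def (emb '' {a | P a})

section pred

variable {α β γ : Type} [DSort α] [DSort β] [DSort γ]

theorem D.and {P Q : α → Prop} (hP : D 𝒮 P) (hQ : D 𝒮 Q) : D 𝒮 (fun a => P a ∧ Q a) := by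
  unfold D
  have : emb '' {a | P a ∧ Q a} = emb '' {a | P a} ∩ emb '' {a : α | Q a} := by
    rw [← Set.image_inter inj]; rfl
  rw [this]
  exact 𝒮.inter hP hQ

theorem D.not [DRan 𝒮 α] {P : α → Prop} (hP : D 𝒮 P) : D 𝒮 (fun a => ¬ P a) := by
  unfold D
  have : emb '' {a | ¬ P a} = Set.range (emb : α → _) ∩ (emb '' {a : α | P a})ᶜ := by
    ext v
    constructor
    · rintro ⟨a, ha, rfl⟩
      refine ⟨⟨a, rfl⟩, ?_⟩
      rintro ⟨b, hb, h⟩
      rw [inj h] at hb
      exact ha hb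
    · rintro ⟨⟨a, rfl⟩, h⟩
      exact ⟨a, fun hP => h ⟨a, hP, rfl⟩, rfl⟩
  rw [this]
  exact 𝒮.inter DRan.ran (𝒮.compl hP)

/-- Substitution along a coordinate map. -/
theorem D.coord [DRan 𝒮 α] {P : β → Prop} (hP : D 𝒮 P) (φ : α → β) (f : ix β → ix α)
    (hf : ∀ a, emb (φ a) = emb a ∘ f) : D 𝒮 (fun a => P (φ a)) := by
  unfold D
  have : emb '' {a | P (φ a)} = Set.range (emb : α → _) ∩ {v | v ∘ f ∈ emb '' {b : β | P b}} := by
    ext v
    constructor
    · rintro ⟨a, ha, rfl⟩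
      exact ⟨⟨a, rfl⟩, ⟨φ a, ha, hf a⟩⟩
    · rintro ⟨⟨a, rfl⟩, ⟨b, hb, h⟩⟩
      rw [← hf a] at h
      rw [inj h] at hb
      exact ⟨a, hb, rfl⟩
  rw [this]
  exact 𝒮.inter DRan.ran (𝒮.preim f hP)

theorem D.ex {P : α × β → Prop} (hP : D 𝒮 P) : D 𝒮 (fun a => ∃ b, P (a, b)) := by
  unfold D
  have : emb '' {a | ∃ b, P (a, b)}
      = {v | ∃ w, Sum.elim v w ∈ emb '' {p : α × β | P p}} := by
    ext v
    constructor
    · rintro ⟨a, ⟨b, hb⟩, rfl⟩
      exact ⟨emb b, (a, b), hb, rfl⟩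
    · rintro ⟨w, ⟨⟨a, b⟩, hab, h⟩⟩
      rw [emb_prod] at h
      have h1 : emb a = v := by funext i; exact congrFun h (Sum.inl i)
      exact ⟨a, ⟨b, hab⟩, h1⟩
  rw [this]
  exact 𝒮.proj hP

theorem D.congr {P Q : α → Prop} (hP : D 𝒮 P) (h : ∀ a, Q a ↔ P a) : D 𝒮 Q := by
  have : Q = P := by funext a; exact propext (h a)
  rwa [this]

theorem D.or [DRan 𝒮 α] {P Q : α → Prop} (hP : D 𝒮 P) (hQ : D 𝒮 Q) :
    D 𝒮 (fun a => P a ∨ Q a) := by
  refine (hP.not.and hQ.not).not.congr ?_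
  intro a; tauto

theorem D.imp [DRan 𝒮 α] {P Q : α → Prop} (hP : D 𝒮 P) (hQ : D 𝒮 Q) :
    D 𝒮 (fun a => P a → Q a) := by
  refine (hP.and hQ.not).not.congr ?_
  intro a; tauto

theorem D.iff [DRan 𝒮 α] {P Q : α → Prop} (hP : D 𝒮 P) (hQ : D 𝒮 Q) :
    D 𝒮 (fun a => P a ↔ Q a) := by
  refine ((hP.imp hQ).and (hQ.imp hP)).congr ?_
  intro a; tauto

theorem D.all [DRan 𝒮 α] [DRan 𝒮 β] {P : α × β → Prop} (hP : D 𝒮 P) :
    D 𝒮 (fun a => ∀ b, P (a, b)) := by
  refine (D.ex hP.not).not.congr ?_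
  intro a; push Not; exact Iff.rfl

theorem D.true [DRan 𝒮 α] : D 𝒮 (fun _ : α => True) := by
  unfold D
  have : emb '' {a : α | True} = Set.range (emb : α → _) := by
    rw [← Set.image_univ]; congr 1
  rw [this]
  exact DRan.ran

theorem D.cst [DRan 𝒮 α] (p : Prop) : D 𝒮 (fun _ : α => p) := by
  by_cases hp : p
  · exact D.true.congr (by simp [hp])
  · exact D.true.not.congr (fun _ => by simp [hp])

theorem D.fst [DRan 𝒮 α] [DRan 𝒮 β] {P : α → Prop} (hP : D 𝒮 P) :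
    D 𝒮 (fun p : α × β => P p.1) :=
  hP.coord Prod.fst Sum.inl (fun _ => rfl)

theorem D.snd [DRan 𝒮 α] [DRan 𝒮 β] {P : β → Prop} (hP : D 𝒮 P) :
    D 𝒮 (fun p : α × β => P p.2) :=
  hP.coord Prod.snd Sum.inr (fun _ => rfl)

theorem D.eq_prod [DRan 𝒮 α] : D 𝒮 (fun p : α × α => p.1 = p.2) := by
  unfold D
  have : emb '' {p : α × α | p.1 = p.2}
      = Set.range (emb : α × α → _) ∩ ⋂ i : ix α, {v | v (Sum.inl i) = v (Sum.inr i)} := by
    ext v
    simp only [Set.mem_image, Set.mem_ofPred_eq, Set.mem_inter_iff, Set.mem_iInter]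
    constructor
    · rintro ⟨⟨a, b⟩, h, rfl⟩
      simp only at h
      subst h
      exact ⟨⟨_, rfl⟩, fun i => rfl⟩
    · rintro ⟨⟨⟨a, b⟩, rfl⟩, h⟩
      refine ⟨(a, b), ?_, rfl⟩
      apply inj
      funext i
      exact h i
  rw [this]
  exact 𝒮.inter DRan.ran (Str.def_iInter (fun i => Str.def_coord_eq _ _))

theorem D.eq_const [DRan 𝒮 α] (c : α) : D 𝒮 (fun a : α => a = c) := by
  unfold D
  have : emb '' {a : α | a = c}
      = Set.range (emb : α → _) ∩ ⋂ i : ix α, {v | v i = emb c i} := by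
    ext v
    simp only [Set.mem_image, Set.mem_ofPred_eq, Set.mem_inter_iff, Set.mem_iInter]
    constructor
    · rintro ⟨a, rfl, rfl⟩
      exact ⟨⟨_, rfl⟩, fun i => rfl⟩
    · rintro ⟨⟨a, rfl⟩, h⟩
      refine ⟨a, ?_, rfl⟩
      apply inj
      funext i
      exact h i
  rw [this]
  exact 𝒮.inter DRan.ran (Str.def_iInter (fun i => Str.def_coord_const _ _))

end pred

/-! ### Definable functions -/

/-- A function between sorts is definable. -/
@[fun_prop]
def DFun (𝒮 : Str) {α β : Type} [DSort α] [DSort β] (f : α → β) : Prop :=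
  D 𝒮 (fun p : α × β => f p.1 = p.2)

section funs

variable {α β γ δ : Type} [DSort α] [DSort β] [DSort γ] [DSort δ]
  [DRan 𝒮 α] [DRan 𝒮 β] [DRan 𝒮 γ] [DRan 𝒮 δ]

theorem D.subst {Q : β × γ → Prop} (hQ : D 𝒮 Q) {f : α → β} (hf : DFun 𝒮 f) :
    D 𝒮 (fun p : α × γ => Q (f p.1, p.2)) := by
  have h1 : D 𝒮 (fun p : (α × γ) × β => f p.1.1 = p.2) :=
    hf.coord (fun p : (α × γ) × β => (p.1.1, p.2))
      (Sum.elim (fun i => Sum.inl (Sum.inl i)) (fun i => Sum.inr i))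
      (by intro a; funext i; rcases i with i | i <;> rfl)
  have h2 : D 𝒮 (fun p : (α × γ) × β => Q (p.2, p.1.2)) :=
    hQ.coord (fun p : (α × γ) × β => (p.2, p.1.2))
      (Sum.elim (fun i => Sum.inr i) (fun i => Sum.inl (Sum.inr i)))
      (by intro a; funext i; rcases i with i | i <;> rfl)
  refine (h1.and h2).ex.congr ?_
  rintro ⟨a, c⟩
  simp

theorem D.comp {Q : β → Prop} (hQ : D 𝒮 Q) {f : α → β} (hf : DFun 𝒮 f) :
    D 𝒮 (fun a => Q (f a)) := by
  have h2 : D 𝒮 (fun p : α × β => Q p.2) := hQ.snd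
  refine (D.and hf h2).ex.congr ?_
  intro a
  simp

theorem D.mem_prop : D 𝒮 (fun q : Prop => q) := by
  refine (D.eq_const (𝒮 := 𝒮) True).congr ?_
  intro a; simp

theorem DFun.iff_D {P : α → Prop} : DFun 𝒮 P ↔ D 𝒮 P := by
  constructor
  · intro h
    exact D.mem_prop.comp h
  · intro h
    have h1 : D 𝒮 (fun p : α × Prop => P p.1) := h.fst
    have h2 : D 𝒮 (fun p : α × Prop => p.2) := D.mem_prop.snd
    refine (h1.iff h2).congr ?_
    intro p
    exact eq_iff_iff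

alias ⟨DFun.toD, D.toDFun⟩ := DFun.iff_D

@[fun_prop]
theorem DFun.id' : DFun 𝒮 (fun a : α => a) := D.eq_prod

@[fun_prop]
theorem DFun.const' (b : β) : DFun 𝒮 (fun _ : α => b) := by
  unfold DFun
  refine ((D.eq_const b).snd (α := α)).congr ?_
  intro p
  exact eq_comm

@[fun_prop]
theorem DFun.comp' {g : β → γ} {f : α → β} (hg : DFun 𝒮 g) (hf : DFun 𝒮 f) :
    DFun 𝒮 (fun a => g (f a)) :=
  D.subst hg hf

theorem DFun.fst_aux : DFun 𝒮 (fun p : α × β => p.1) := by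
  unfold DFun
  refine (D.eq_prod (𝒮 := 𝒮) (α := α)).coord (fun p : (α × β) × α => (p.1.1, p.2))
      (Sum.elim (fun i => Sum.inl (Sum.inl i)) (fun i => Sum.inr i))
      (by intro a; funext i; rcases i with i | i <;> rfl)

theorem DFun.snd_aux : DFun 𝒮 (fun p : α × β => p.2) := by
  unfold DFun
  refine (D.eq_prod (𝒮 := 𝒮) (α := β)).coord (fun p : (α × β) × β => (p.1.2, p.2))
      (Sum.elim (fun i => Sum.inl (Sum.inr i)) (fun i => Sum.inr i))
      (by intro a; funext i; rcases i with i | i <;> rfl)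

@[fun_prop]
theorem DFun.fst' {f : α → β × γ} (hf : DFun 𝒮 f) : DFun 𝒮 (fun a => (f a).1) :=
  DFun.comp' DFun.fst_aux hf

@[fun_prop]
theorem DFun.snd' {f : α → β × γ} (hf : DFun 𝒮 f) : DFun 𝒮 (fun a => (f a).2) :=
  DFun.comp' DFun.snd_aux hf

@[fun_prop]
theorem DFun.prodMk {f : α → β} {g : α → γ} (hf : DFun 𝒮 f) (hg : DFun 𝒮 g) :
    DFun 𝒮 (fun a => (f a, g a)) := by
  unfold DFun
  have h1 : D 𝒮 (fun p : α × (β × γ) => f p.1 = p.2.1) :=
    D.coord hf (fun p : α × (β × γ) => (p.1, p.2.1))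
      (Sum.elim (fun i => Sum.inl i) (fun i => Sum.inr (Sum.inl i)))
      (by intro a; funext i; rcases i with i | i <;> rfl)
  have h2 : D 𝒮 (fun p : α × (β × γ) => g p.1 = p.2.2) :=
    D.coord hg (fun p : α × (β × γ) => (p.1, p.2.2))
      (Sum.elim (fun i => Sum.inl i) (fun i => Sum.inr (Sum.inr i)))
      (by intro a; funext i; rcases i with i | i <;> rfl)
  refine (h1.and h2).congr ?_
  rintro ⟨a, b, c⟩
  simp

/-! Logical connectives -/

@[fun_prop]
theorem DFun.and {P Q : α → Prop} (hP : DFun 𝒮 P) (hQ : DFun 𝒮 Q) :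
    DFun 𝒮 (fun a => P a ∧ Q a) := (hP.toD.and hQ.toD).toDFun

@[fun_prop]
theorem DFun.or {P Q : α → Prop} (hP : DFun 𝒮 P) (hQ : DFun 𝒮 Q) :
    DFun 𝒮 (fun a => P a ∨ Q a) := (hP.toD.or hQ.toD).toDFun

@[fun_prop]
theorem DFun.not {P : α → Prop} (hP : DFun 𝒮 P) :
    DFun 𝒮 (fun a => ¬ P a) := (hP.toD.not).toDFun

@[fun_prop]
theorem DFun.imp {P Q : α → Prop} (hP : DFun 𝒮 P) (hQ : DFun 𝒮 Q) :
    DFun 𝒮 (fun a => P a → Q a) := (hP.toD.imp hQ.toD).toDFun

@[fun_prop]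
theorem DFun.iff {P Q : α → Prop} (hP : DFun 𝒮 P) (hQ : DFun 𝒮 Q) :
    DFun 𝒮 (fun a => P a ↔ Q a) := (hP.toD.iff hQ.toD).toDFun

@[fun_prop]
theorem DFun.ex {P : α → β → Prop} (hP : DFun 𝒮 (fun p : α × β => P p.1 p.2)) :
    DFun 𝒮 (fun a => ∃ b, P a b) := (D.ex hP.toD).toDFun

@[fun_prop]
theorem DFun.all {P : α → β → Prop} (hP : DFun 𝒮 (fun p : α × β => P p.1 p.2)) :
    DFun 𝒮 (fun a => ∀ b, P a b) := (D.all hP.toD).toDFun

@[fun_prop]
theorem DFun.eq' {f g : α → β} (hf : DFun 𝒮 f) (hg : DFun 𝒮 g) :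
    DFun 𝒮 (fun a => f a = g a) :=
  (D.comp D.eq_prod (DFun.prodMk hf hg)).toDFun

@[fun_prop]
theorem DFun.ne' {f g : α → β} (hf : DFun 𝒮 f) (hg : DFun 𝒮 g) :
    DFun 𝒮 (fun a => f a ≠ g a) := (DFun.eq' hf hg).not

theorem DFun.of_iff {f : α → β} {R : α → β → Prop} (hR : DFun 𝒮 (fun p : α × β => R p.1 p.2))
    (h : ∀ a b, f a = b ↔ R a b) : DFun 𝒮 f :=
  hR.toD.congr (fun p => h p.1 p.2)

theorem DFun.congrP {P Q : α → Prop} (hP : DFun 𝒮 P) (h : ∀ a, Q a ↔ P a) : DFun 𝒮 Q :=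
  (hP.toD.congr h).toDFun

@[fun_prop]
theorem DFun.ite' {P : α → Prop} {f g : α → β} {inst : DecidablePred P} (hP : DFun 𝒮 P)
    (hf : DFun 𝒮 f) (hg : DFun 𝒮 g) :
    DFun 𝒮 (fun a => if P a then f a else g a) := by
  refine DFun.of_iff (R := fun a b => (P a ∧ f a = b) ∨ (¬ P a ∧ g a = b)) (by fun_prop) ?_
  intro a b
  by_cases h : P a <;> simp [h]

/-! Real functions -/

@[fun_prop]
theorem DFun.lt' {f g : α → ℝ} (hf : DFun 𝒮 f) (hg : DFun 𝒮 g) :
    DFun 𝒮 (fun a => f a < g a) := by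
  have h0 : D 𝒮 (fun p : ℝ × ℝ => p.1 < p.2) := by
    unfold D
    have : emb '' {p : ℝ × ℝ | p.1 < p.2} = {v | v (Sum.inl ()) < v (Sum.inr ())} := by
      ext v
      constructor
      · rintro ⟨p, hp, rfl⟩; exact hp
      · intro h
        refine ⟨(v (Sum.inl ()), v (Sum.inr ())), h, ?_⟩
        funext i
        rcases i with i | i <;> rfl
    rw [this]
    exact Str.def_coord_lt _ _
  exact (D.comp h0 (DFun.prodMk hf hg)).toDFun

@[fun_prop]
theorem DFun.le' {f g : α → ℝ} (hf : DFun 𝒮 f) (hg : DFun 𝒮 g) :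
    DFun 𝒮 (fun a => f a ≤ g a) :=
  (DFun.lt' hg hf).not.congrP (fun _ => not_lt.symm)

@[fun_prop]
theorem DFun.gt' {f g : α → ℝ} (hf : DFun 𝒮 f) (hg : DFun 𝒮 g) :
    DFun 𝒮 (fun a => f a > g a) := DFun.lt' hg hf

@[fun_prop]
theorem DFun.ge' {f g : α → ℝ} (hf : DFun 𝒮 f) (hg : DFun 𝒮 g) :
    DFun 𝒮 (fun a => f a ≥ g a) := DFun.le' hg hf

@[fun_prop]
theorem DFun.add' {f g : α → ℝ} (hf : DFun 𝒮 f) (hg : DFun 𝒮 g) :
    DFun 𝒮 (fun a => f a + g a) := by
  have h0 : D 𝒮 (fun p : (ℝ × ℝ) × ℝ => p.1.1 + p.1.2 = p.2) := by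
    unfold D
    have : emb '' {p : (ℝ × ℝ) × ℝ | p.1.1 + p.1.2 = p.2}
        = {v | v ∘ (![Sum.inl (Sum.inl ()), Sum.inl (Sum.inr ()), Sum.inr ()] : Fin 3 → _) ∈
            {v : Fin 3 → ℝ | v 0 + v 1 = v 2}} := by
      ext v
      constructor
      · rintro ⟨p, hp, rfl⟩; exact hp
      · intro h
        refine ⟨((v (Sum.inl (Sum.inl ())), v (Sum.inl (Sum.inr ()))), v (Sum.inr ())), h, ?_⟩
        funext i
        rcases i with (i | i) | i <;> rfl
    rw [this]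
    exact 𝒮.preim _ 𝒮.add
  exact DFun.comp' (g := fun p : ℝ × ℝ => p.1 + p.2) h0 (DFun.prodMk hf hg)

@[fun_prop]
theorem DFun.sub' {f g : α → ℝ} (hf : DFun 𝒮 f) (hg : DFun 𝒮 g) :
    DFun 𝒮 (fun a => f a - g a) := by
  refine DFun.of_iff (R := fun a b => b + g a = f a) (by fun_prop) ?_
  intro a b
  constructor <;> intro h <;> linarith

@[fun_prop]
theorem DFun.neg' {f : α → ℝ} (hf : DFun 𝒮 f) : DFun 𝒮 (fun a => - f a) := by
  refine DFun.of_iff (R := fun a b => b + f a = 0) (by fun_prop) ?_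
  intro a b
  constructor <;> intro h <;> linarith

@[fun_prop]
theorem DFun.half' {f : α → ℝ} (hf : DFun 𝒮 f) : DFun 𝒮 (fun a => f a / 2) := by
  refine DFun.of_iff (R := fun a b => b + b = f a) (by fun_prop) ?_
  intro a b
  constructor <;> intro h <;> linarith

@[fun_prop]
theorem DFun.abs' {f : α → ℝ} (hf : DFun 𝒮 f) : DFun 𝒮 (fun a => |f a|) := by
  refine DFun.of_iff (R := fun a b => (0 ≤ f a ∧ f a = b) ∨ (f a < 0 ∧ - f a = b))
    (by fun_prop) ?_
  intro a b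
  rcases le_or_gt 0 (f a) with h | h
  · simp [abs_of_nonneg h, h, not_lt.2 h]
  · simp [abs_of_neg h, h, not_le.2 h]

@[fun_prop]
theorem DFun.max' {f g : α → ℝ} (hf : DFun 𝒮 f) (hg : DFun 𝒮 g) :
    DFun 𝒮 (fun a => max (f a) (g a)) := by
  refine DFun.of_iff (R := fun a b => (f a ≤ g a ∧ g a = b) ∨ (g a < f a ∧ f a = b))
    (by fun_prop) ?_
  intro a b
  rcases le_or_gt (f a) (g a) with h | h
  · simp [h, not_lt.2 h]
  · simp [max_eq_left h.le, h, not_le.2 h]

@[fun_prop]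
theorem DFun.min' {f g : α → ℝ} (hf : DFun 𝒮 f) (hg : DFun 𝒮 g) :
    DFun 𝒮 (fun a => min (f a) (g a)) := by
  refine DFun.of_iff (R := fun a b => (f a ≤ g a ∧ f a = b) ∨ (g a < f a ∧ g a = b))
    (by fun_prop) ?_
  intro a b
  rcases le_or_gt (f a) (g a) with h | h
  · simp [h, not_lt.2 h]
  · simp [min_eq_right h.le, h, not_le.2 h]

theorem DFun.nsmul' {f : α → ℝ} (hf : DFun 𝒮 f) (n : ℕ) : DFun 𝒮 (fun a => n * f a) := by
  induction n with
  | zero => simp only [Nat.cast_zero, zero_mul]; fun_prop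
  | succ n ih =>
    have : (fun a => ((n + 1 : ℕ) : ℝ) * f a) = fun a => n * f a + f a := by
      funext a; push_cast; ring
    rw [this]
    fun_prop

@[fun_prop]
theorem DFun.sInf' {P : α → ℝ → Prop} (hP : DFun 𝒮 (fun p : α × ℝ => P p.1 p.2)) :
    DFun 𝒮 (fun a => sInf {x | P a x}) := by
  refine DFun.of_iff (R := fun a b =>
    (((∃ x, P a x) ∧ (∃ l, ∀ x, P a x → l ≤ x)) ∧
      ((∀ x, P a x → b ≤ x) ∧ (∀ l, (∀ x, P a x → l ≤ x) → l ≤ b))) ∨
    (¬ ((∃ x, P a x) ∧ (∃ l, ∀ x, P a x → l ≤ x)) ∧ b = 0)) (by fun_prop) ?_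
  intro a b
  by_cases h : (∃ x, P a x) ∧ (∃ l, ∀ x, P a x → l ≤ x)
  · have hne : {x | P a x}.Nonempty := h.1
    have hbd : BddBelow {x | P a x} := by
      obtain ⟨l, hl⟩ := h.2
      exact ⟨l, fun x hx => hl x hx⟩
    simp only [h, true_and, not_true_eq_false, false_and, or_false]
    constructor
    · rintro rfl
      exact ⟨fun x hx => csInf_le hbd hx, fun l hl => le_csInf hne hl⟩
    · rintro ⟨h1, h2⟩
      exact le_antisymm (h2 _ (fun x hx => csInf_le hbd hx)) (le_csInf hne h1)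
  · simp only [h, false_and, not_false_eq_true, true_and, false_or]
    have h0 : sInf {x | P a x} = 0 := by
      by_cases h1 : ∃ x, P a x
      · apply Real.sInf_of_not_bddBelow
        rintro ⟨l, hl⟩
        exact h ⟨h1, l, fun x hx => hl hx⟩
      · have : {x | P a x} = ∅ := by
          ext x
          simp only [Set.mem_ofPred_eq, Set.mem_empty_iff_false, iff_false]
          exact fun hx => h1 ⟨x, hx⟩
        rw [this, Real.sInf_empty]
    rw [h0]
    exact eq_comm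

@[fun_prop]
theorem DFun.sSup' {P : α → ℝ → Prop} (hP : DFun 𝒮 (fun p : α × ℝ => P p.1 p.2)) :
    DFun 𝒮 (fun a => sSup {x | P a x}) := by
  refine DFun.of_iff (R := fun a b =>
    (((∃ x, P a x) ∧ (∃ l, ∀ x, P a x → x ≤ l)) ∧
      ((∀ x, P a x → x ≤ b) ∧ (∀ l, (∀ x, P a x → x ≤ l) → b ≤ l))) ∨
    (¬ ((∃ x, P a x) ∧ (∃ l, ∀ x, P a x → x ≤ l)) ∧ b = 0)) (by fun_prop) ?_
  intro a b
  by_cases h : (∃ x, P a x) ∧ (∃ l, ∀ x, P a x → x ≤ l)
  · have hne : {x | P a x}.Nonempty := h.1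
    have hbd : BddAbove {x | P a x} := by
      obtain ⟨l, hl⟩ := h.2
      exact ⟨l, fun x hx => hl x hx⟩
    simp only [h, true_and, not_true_eq_false, false_and, or_false]
    constructor
    · rintro rfl
      exact ⟨fun x hx => le_csSup hbd hx, fun l hl => csSup_le hne hl⟩
    · rintro ⟨h1, h2⟩
      exact le_antisymm (csSup_le hne h1) (h2 _ (fun x hx => le_csSup hbd hx))
  · simp only [h, false_and, not_false_eq_true, true_and, false_or]
    have h0 : sSup {x | P a x} = 0 := by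
      by_cases h1 : ∃ x, P a x
      · apply Real.sSup_of_not_bddAbove
        rintro ⟨l, hl⟩
        exact h ⟨h1, l, fun x hx => hl hx⟩
      · have : {x | P a x} = ∅ := by
          ext x
          simp only [Set.mem_ofPred_eq, Set.mem_empty_iff_false, iff_false]
          exact fun hx => h1 ⟨x, hx⟩
        rw [this, Real.sSup_empty]
    rw [h0]
    exact eq_comm

/-! Finite conjunctions, coordinates -/

theorem DFun.all_fin {κ : Type} [Finite κ] {P : κ → α → Prop} (hP : ∀ k, DFun 𝒮 (P k)) :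
    DFun 𝒮 (fun a => ∀ k, P k a) := by
  classical
  have := Fintype.ofFinite κ
  have key : ∀ t : Finset κ, DFun 𝒮 (fun a => ∀ k ∈ t, P k a) := by
    intro t
    induction t using Finset.induction_on with
    | empty => simpa using (DFun.const' (𝒮 := 𝒮) (α := α) True)
    | insert b t _ ih =>
      refine ((hP b).and ih).congrP ?_
      intro a
      simp
  refine (key Finset.univ).congrP ?_
  intro a
  simp

theorem DFun.all_finset {κ : Type*} {P : κ → α → Prop} (t : Finset κ)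
    (hP : ∀ k ∈ t, DFun 𝒮 (P k)) :
    DFun 𝒮 (fun a => ∀ k ∈ t, P k a) := by
  classical
  induction t using Finset.induction_on with
  | empty => simpa using (DFun.const' (𝒮 := 𝒮) (α := α) True)
  | insert b t _ ih =>
    refine ((hP b (by simp)).and (ih (fun k hk => hP k (by simp [hk])))).congrP ?_
    intro a
    simp

theorem DFun.ex_finset {κ : Type*} {P : κ → α → Prop} (t : Finset κ)
    (hP : ∀ k ∈ t, DFun 𝒮 (P k)) :
    DFun 𝒮 (fun a => ∃ k ∈ t, P k a) := by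
  refine (DFun.all_finset t (P := fun k a => ¬ P k a) (fun k hk => (hP k hk).not)).not.congrP ?_
  intro a
  push Not
  rfl

theorem DFun.emb' (i : ix α) : DFun 𝒮 (fun a : α => emb a i) := by
  have h0 : D 𝒮 (fun p : α × ℝ => emb p.1 i = p.2) := by
    unfold D
    have : emb '' {p : α × ℝ | emb p.1 i = p.2}
        = Set.range (emb : α × ℝ → _) ∩ {v | v (Sum.inl i) = v (Sum.inr ())} := by
      ext v
      constructor
      · rintro ⟨p, hp, rfl⟩; exact ⟨⟨p, rfl⟩, hp⟩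
      · rintro ⟨⟨p, rfl⟩, h⟩
        exact ⟨p, h, rfl⟩
    rw [this]
    exact 𝒮.inter DRan.ran (Str.def_coord_eq _ _)
  exact h0

@[fun_prop]
theorem DFun.apply' {ι : Type} [Finite ι] (i : ι) : DFun 𝒮 (fun v : ι → ℝ => v i) :=
  DFun.emb' (α := ι → ℝ) i

@[fun_prop]
theorem DFun.pi' {ι : Type} [Finite ι] {f : α → (ι → ℝ)} (hf : ∀ i, DFun 𝒮 (fun a => f a i)) :
    DFun 𝒮 f := by
  refine DFun.of_iff (R := fun a b => ∀ i, f a i = b i) ?_ (fun a b => funext_iff)
  exact DFun.all_fin (fun i => by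
    have h1 : DFun 𝒮 (fun p : α × (ι → ℝ) => f p.1 i) := DFun.comp' (hf i) DFun.fst_aux
    fun_prop)

end funs

/-! ### NIP and noiselessness -/

/-- The independence property fails for every definable family. -/
def NIP (𝒮 : Str) : Prop :=
  ∀ {ι κ : Type} [Finite ι] [Finite κ] (R : Set (ι ⊕ κ → ℝ)), 𝒮.Def R →
    ∃ N : ℕ, ∀ a : Fin N → (ι → ℝ), ¬ ∀ S : Set (Fin N), ∃ b : κ → ℝ,
      ∀ i, (Sum.elim (a i) b ∈ R ↔ i ∈ S)

/-- Sort version of `NIP`. -/
theorem NIP.sort (h : NIP 𝒮) {α β : Type} [DSort α] [DSort β] [DRan 𝒮 α] [DRan 𝒮 β]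
    {R : α → β → Prop} (hR : DFun 𝒮 (fun p : α × β => R p.1 p.2)) :
    ∃ N : ℕ, ∀ a : Fin N → α, ¬ ∀ S : Set (Fin N), ∃ b : β, ∀ i, (R (a i) b ↔ i ∈ S) := by
  obtain ⟨N, hN⟩ := h (ι := ix α) (κ := ix β) _ hR.toD
  refine ⟨N, fun a ha => hN (fun i => emb (a i)) ?_⟩
  intro S
  obtain ⟨b, hb⟩ := ha S
  refine ⟨emb b, fun i => ?_⟩
  rw [← hb i]
  constructor
  · rintro ⟨p, hp, h⟩
    have : p = (a i, b) := inj h
    subst this
    exact hp
  · intro h
    exact ⟨(a i, b), h, rfl⟩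

/-- Every definable subset of an interval is constant on some subinterval. -/
def Noiseless (𝒮 : Str) : Prop :=
  ∀ P : ℝ → Prop, DFun 𝒮 P → ∀ a b : ℝ, a < b → ∃ c d : ℝ, a ≤ c ∧ c < d ∧ d ≤ b ∧
    ((∀ x, c < x → x < d → P x) ∨ (∀ x, c < x → x < d → ¬ P x))

end Pool.Agent.Lib.MP_77ea03_lc
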