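import Pool.Agent.Lib.MP_77ea03_lc.Split

/-! Module B: extensional definable choice. -/

set_option autoImplicit false

namespace Pool.Agent.Lib.MP_77ea03_lc

open Set DSort

variable {𝒮 : Str}

/-- Selection from a family of conditions `Q x r` decreasing in `r`. -/
noncomputable def sel (Q : ℝ → ℝ → Prop) : ℝ :=
  sInf {x | |x| ≤ sInf {t | ∃ x r, 0 < r ∧ Q x r ∧ |x| = t} + 1 ∧
    Q x (sSup {r | r ≤ 1 ∧ ∃ x, |x| ≤ sInf {t | ∃ x r, 0 < r ∧ Q x r ∧ |x| = t} + 1 ∧ Q x r} / 2)}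

@[fun_prop]
theorem DFun.sel' {α : Type} [DSort α] [DRan 𝒮 α] {Q : α → ℝ → ℝ → Prop}
    (hQ : DFun 𝒮 (fun p : α × ℝ × ℝ => Q p.1 p.2.1 p.2.2)) : DFun 𝒮 (fun a => sel (Q a)) := by
  have h1 : DFun 𝒮 (fun a => sInf {t | ∃ x r, 0 < r ∧ Q a x r ∧ |x| = t}) := by
    fun_prop
  have h2 : DFun 𝒮 (fun a => sSup {r | r ≤ 1 ∧ ∃ x,
      |x| ≤ sInf {t | ∃ x r, 0 < r ∧ Q a x r ∧ |x| = t} + 1 ∧ Q a x r}) := by
    fun_prop
  unfold sel
  fun_prop

theorem sel_spec {Q : ℝ → ℝ → Prop} (hmono : ∀ x r r', r' ≤ r → Q x r → Q x r')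
    (hcl : ∀ R r, 0 < r → (∃ x, |x| ≤ R ∧ Q x r) →
      sInf {x | |x| ≤ R ∧ Q x r} ∈ {x | |x| ≤ R ∧ Q x r})
    (hex : ∃ x r, 0 < r ∧ Q x r) : ∃ r, 0 < r ∧ Q (sel Q) r := by
  set R := sInf {t | ∃ x r, 0 < r ∧ Q x r ∧ |x| = t} + 1 with hR
  set r0 := sSup {r | r ≤ 1 ∧ ∃ x, |x| ≤ R ∧ Q x r} with hr0
  have hsel : sel Q = sInf {x | |x| ≤ R ∧ Q x (r0 / 2)} := rfl
  have hne : {t | ∃ x r, 0 < r ∧ Q x r ∧ |x| = t}.Nonempty := by
    obtain ⟨x, r, h1, h2⟩ := hex
    exact ⟨|x|, x, r, h1, h2, rfl⟩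
  obtain ⟨t, ⟨x, r, h1, h2, h3⟩, ht⟩ := exists_lt_of_csInf_lt hne
    (show sInf {t | ∃ x r, 0 < r ∧ Q x r ∧ |x| = t} < R by rw [hR]; linarith)
  have hbd : BddAbove {r | r ≤ 1 ∧ ∃ x, |x| ≤ R ∧ Q x r} := ⟨1, fun r hr => hr.1⟩
  have hmem : min r 1 ∈ {r | r ≤ 1 ∧ ∃ x, |x| ≤ R ∧ Q x r} :=
    ⟨min_le_right _ _, x, by rw [h3]; exact ht.le, hmono x r _ (min_le_left _ _) h2⟩
  have hr0pos : 0 < r0 := lt_of_lt_of_le (lt_min h1 one_pos) (le_csSup hbd hmem)
  obtain ⟨r', ⟨_, x', hx', hQ'⟩, hr'⟩ := exists_lt_of_lt_csSup ⟨_, hmem⟩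
    (show r0 / 2 < r0 by linarith)
  have := hcl R (r0 / 2) (by linarith) ⟨x', hx', hmono x' r' _ hr'.le hQ'⟩
  rw [← hsel] at this
  exact ⟨r0 / 2, by linarith, this.2⟩

/-- The open interval of radius `r` around `x` is contained in `P`. -/
def Iv (P : ℝ → Prop) (x r : ℝ) : Prop := ∀ y, x - r < y → y < x + r → P y

/-- `x` is an isolated point of `P` (radius `r`). -/
def Iso (P : ℝ → Prop) (x r : ℝ) : Prop := P x ∧ ∀ y, P y → x - r < y → y < x + r → y = x

theorem Iv_cl (P : ℝ → Prop) (R r : ℝ) (_hr : 0 < r) (hne : ∃ x, |x| ≤ R ∧ Iv P x r) :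
    sInf {x | |x| ≤ R ∧ Iv P x r} ∈ {x | |x| ≤ R ∧ Iv P x r} := by
  have hcl : IsClosed {x | |x| ≤ R ∧ Iv P x r} := by
    have h1 : IsClosed {x : ℝ | |x| ≤ R} := isClosed_le continuous_abs continuous_const
    have h2 : IsClosed {x : ℝ | Iv P x r} := by
      have : {x : ℝ | Iv P x r} = ⋂ y ∈ {y | ¬ P y}, {x | r ≤ |y - x|} := by
        ext x
        simp only [Iv, mem_ofPred_eq, mem_iInter]
        constructor
        · intro h y hy
          by_contra hcon
          rw [not_le, abs_lt] at hcon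
          exact hy (h y (by linarith) (by linarith))
        · intro h y h1 h2
          by_contra hcon
          have := h y hcon
          rw [le_abs] at this
          rcases this with h3 | h3 <;> linarith
      rw [this]
      refine isClosed_biInter (fun y _ => ?_)
      exact isClosed_le continuous_const (continuous_abs.comp (continuous_const.sub continuous_id))
    exact h1.inter h2
  refine hcl.csInf_mem hne ⟨-R, ?_⟩
  rintro x ⟨hx, _⟩
  exact (abs_le.1 hx).1

theorem Iso_cl (P : ℝ → Prop) (R r : ℝ) (hr : 0 < r) (hne : ∃ x, |x| ≤ R ∧ Iso P x r) :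
    sInf {x | |x| ≤ R ∧ Iso P x r} ∈ {x | |x| ≤ R ∧ Iso P x r} := by
  have hbd : BddBelow {x | |x| ≤ R ∧ Iso P x r} := by
    refine ⟨-R, ?_⟩
    rintro x ⟨hx, _⟩
    exact (abs_le.1 hx).1
  set z := sInf {x | |x| ≤ R ∧ Iso P x r} with hz
  obtain ⟨x1, hx1, hlt⟩ := exists_lt_of_csInf_lt hne (show z < z + r by linarith)
  rcases eq_or_lt_of_le (csInf_le hbd hx1) with h | h
  · rw [← hz] at h; rw [h]; exact hx1
  · exfalso
    obtain ⟨x2, hx2, hlt2⟩ := exists_lt_of_csInf_lt hne h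
    have h3 : z ≤ x2 := csInf_le hbd hx2
    have := hx2.2.2 x1 hx1.2.1 (by linarith) (by linarith)
    linarith

open Classical in
/-- The choice function on subsets of `ℝ`. -/
noncomputable def ch1 (P : ℝ → Prop) : ℝ :=
  if ∃ x r, 0 < r ∧ Iv P x r then sel (Iv P) else sel (Iso P)

@[fun_prop]
theorem DFun.ch1' {α : Type} [DSort α] [DRan 𝒮 α] {P : α → ℝ → Prop}
    (hP : DFun 𝒮 (fun p : α × ℝ => P p.1 p.2)) : DFun 𝒮 (fun a => ch1 (P a)) := by
  have h1 : DFun 𝒮 (fun p : α × ℝ × ℝ => Iv (P p.1) p.2.1 p.2.2) := by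
    unfold Iv; fun_prop
  have h2 : DFun 𝒮 (fun p : α × ℝ × ℝ => Iso (P p.1) p.2.1 p.2.2) := by
    unfold Iso; fun_prop
  have h3 : DFun 𝒮 (fun a => sel (Iv (P a))) := DFun.sel' h1
  have h4 : DFun 𝒮 (fun a => sel (Iso (P a))) := DFun.sel' h2
  have h5 : DFun 𝒮 (fun a => ∃ x r, 0 < r ∧ Iv (P a) x r) := by
    unfold Iv; fun_prop
  unfold ch1
  exact DFun.ite' h5 h3 h4

theorem exists_iso (hN : NIP 𝒮) (hn : Noiseless 𝒮) {P : ℝ → Prop} (hP : DFun 𝒮 P)
    (hne : ∃ x, P x) (hno : ¬ ∃ x r, 0 < r ∧ Iv P x r) : ∃ x r, 0 < r ∧ Iso P x r := by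
  obtain ⟨z, hz, r, hr, hiso⟩ := lemmaC 𝒮 hN (fun x => ∀ r, 0 < r → ∃ y, P y ∧ |y - x| < r)
    (by fun_prop) (by
      rw [← isOpen_compl_iff, Metric.isOpen_iff]
      intro x hx
      simp only [mem_compl_iff, mem_ofPred_eq, not_forall, not_exists, not_and] at hx
      obtain ⟨r, hr, h⟩ := hx
      refine ⟨r / 2, by linarith, ?_⟩
      intro x' hx'
      rw [Metric.mem_ball, Real.dist_eq] at hx'
      simp only [mem_compl_iff, mem_ofPred_eq, not_forall, not_exists, not_and]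
      refine ⟨r / 2, by linarith, fun y hy hlt => h y hy ?_⟩
      calc |y - x| = |(y - x') + (x' - x)| := by ring_nf
        _ ≤ |y - x'| + |x' - x| := abs_add_le _ _
        _ < r := by linarith)
    (by
      obtain ⟨x, hx⟩ := hne
      exact ⟨x, fun r hr => ⟨x, hx, by simpa using hr⟩⟩)
    (by
      intro a b hab
      obtain ⟨c, d, h1, h2, h3, h4⟩ := hn P hP a b hab
      rcases h4 with h4 | h4
      · exfalso
        refine hno ⟨(c + d) / 2, (d - c) / 2, by linarith, ?_⟩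
        intro y hy1 hy2
        exact h4 y (by linarith) (by linarith)
      · refine ⟨(c + d) / 2, by linarith, by linarith, ?_⟩
        intro h
        obtain ⟨y, hy, hlt⟩ := h ((d - c) / 2) (by linarith)
        rw [abs_lt] at hlt
        exact h4 y (by linarith) (by linarith) hy)
  obtain ⟨y, hy, hlt⟩ := hz r hr
  have hyz : y = z := hiso y (fun r hr => ⟨y, hy, by simpa using hr⟩) hlt
  subst hyz
  refine ⟨y, r, hr, hy, ?_⟩
  intro x hx h1 h2
  exact hiso x (fun r hr => ⟨x, hx, by simpa using hr⟩) (by rw [abs_lt]; constructor <;> linarith)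

theorem ch1_mem (hN : NIP 𝒮) (hn : Noiseless 𝒮) {P : ℝ → Prop} (hP : DFun 𝒮 P)
    (hne : ∃ x, P x) : P (ch1 P) := by
  unfold ch1
  split_ifs with h
  · obtain ⟨r, hr, h2⟩ := sel_spec (Q := Iv P)
      (fun x r r' hr h y h1 h2 => h y (by linarith) (by linarith)) (Iv_cl P) h
    exact h2 _ (by linarith) (by linarith)
  · obtain ⟨r, hr, h2⟩ := sel_spec (Q := Iso P)
      (fun x r r' hr h => ⟨h.1, fun y hy h1 h2 => h.2 y hy (by linarith) (by linarith)⟩)
      (Iso_cl P) (exists_iso hN hn hP hne h)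
    exact h2.1

/-! ### General sorts -/

section sorts

variable {β : Type} [DSort β]

/-- Fix successively the coordinates in the list. -/
noncomputable def refineP : List (ix β) → (β → Prop) → (β → Prop)
  | [], P => P
  | i :: l, P => refineP l (fun b => P b ∧ emb b i = ch1 (fun x => ∃ b', P b' ∧ emb b' i = x))

theorem refineP_sub (l : List (ix β)) (P : β → Prop) (b : β) (h : refineP l P b) : P b := by
  induction l generalizing P with
  | nil => exact h
  | cons i l ih => exact (ih _ h).1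

theorem refineP_eq (l : List (ix β)) (P : β → Prop) (b b' : β) (h : refineP l P b)
    (h' : refineP l P b') : ∀ i ∈ l, emb b i = emb b' i := by
  induction l generalizing P with
  | nil => simp
  | cons j l ih =>
    intro i hi
    rw [List.mem_cons] at hi
    rcases hi with rfl | hi
    · have h1 := (refineP_sub l _ b h).2
      have h2 := (refineP_sub l _ b' h').2
      rw [h1, h2]
    · exact ih _ h h' i hi

theorem DFun.refineP' {α : Type} [DSort α] [DRan 𝒮 α] [DRan 𝒮 β] (l : List (ix β))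
    {P : α → β → Prop} (hP : DFun 𝒮 (fun p : α × β => P p.1 p.2)) :
    DFun 𝒮 (fun p : α × β => refineP l (P p.1) p.2) := by
  induction l generalizing P with
  | nil => exact hP
  | cons i l ih =>
    have hemb : DFun 𝒮 (fun b : β => emb b i) := DFun.emb' i
    exact ih (P := fun a b => P a b ∧ emb b i = ch1 (fun x => ∃ b', P a b' ∧ emb b' i = x))
      (by fun_prop)

theorem refineP_ne (hN : NIP 𝒮) (hn : Noiseless 𝒮) [DRan 𝒮 β] (l : List (ix β))
    {P : β → Prop} (hP : DFun 𝒮 P) (hne : ∃ b, P b) : ∃ b, refineP l P b := by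
  induction l generalizing P with
  | nil => exact hne
  | cons i l ih =>
    have hemb : DFun 𝒮 (fun b : β => emb b i) := DFun.emb' i
    refine ih (P := fun b => P b ∧ emb b i = ch1 (fun x => ∃ b', P b' ∧ emb b' i = x))
      (by fun_prop) ?_
    have hex : ∃ x, ∃ b', P b' ∧ emb b' i = x := by
      obtain ⟨b, hb⟩ := hne
      exact ⟨_, b, hb, rfl⟩
    obtain ⟨b, hb, he⟩ := ch1_mem hN hn (P := fun x => ∃ b', P b' ∧ emb b' i = x)
      (by fun_prop) hex
    exact ⟨b, hb, he⟩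

end sorts

theorem hasChoice : ChoiceStmt := by
  intro 𝒮 hN hn β _ _ _
  classical
  have := Fintype.ofFinite (ix β)
  let l : List (ix β) := (Finset.univ : Finset (ix β)).toList
  have hl : ∀ i, i ∈ l := fun i => by simp [l]
  have huniq : ∀ (P : β → Prop) b b', refineP l P b → refineP l P b' → b = b' := by
    intro P b b' h h'
    apply inj
    funext i
    exact refineP_eq l P b b' h h' i (hl i)
  let b₀ : β := Classical.arbitrary β
  let ch : (β → Prop) → β := fun P => if h : ∃ b, refineP l P b then h.choose else b₀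
  refine ⟨ch, ?_, ?_⟩
  · intro P hP hne
    have hex := refineP_ne hN hn l hP hne
    have : ch P = hex.choose := dif_pos hex
    rw [this]
    exact refineP_sub l P _ hex.choose_spec
  · intro α _ _ P hP
    have h1 := DFun.refineP' l hP
    have key : ∀ Q : α → β → Prop, DFun 𝒮 (fun p : α × β => Q p.1 p.2) →
        DFun 𝒮 (fun p : α × β => Q p.1 p.2 ∨ ((¬ ∃ b, Q p.1 b) ∧ p.2 = b₀)) := by
      intro Q hQ
      fun_prop
    refine DFun.of_iff (R := fun a b => refineP l (P a) b ∨ ((¬ ∃ b, refineP l (P a) b) ∧ b = b₀))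
      (key (fun a b => refineP l (P a) b) h1) ?_
    intro a b
    by_cases hex : ∃ b, refineP l (P a) b
    · have : ch (P a) = hex.choose := dif_pos hex
      rw [this]
      simp only [hex, not_true_eq_false, false_and, or_false]
      constructor
      · rintro rfl; exact hex.choose_spec
      · intro h; exact huniq _ _ _ hex.choose_spec h
    · have : ch (P a) = b₀ := dif_neg hex
      rw [this]
      simp only [hex, not_false_eq_true, true_and]
      constructor
      · rintro rfl; right; rfl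
      · rintro (h | h)
        · exact absurd ⟨b, h⟩ hex
        · exact h.symm

end Pool.Agent.Lib.MP_77ea03_lc
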