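import Pool.Agent.Lib.MP_77ea03_lc.Mono

/-! Module H: a definable map from an open subset of `ℝ^(n+1)` to `ℝ^n` is not injective. -/

set_option autoImplicit false

namespace Pool.Agent.Lib.MP_77ea03_lc

open Set DSort

variable {𝒮 : Str}

/-- `f` is constant or strictly monotone and continuous on `(c, d)`. -/
def Trich (f : ℝ → ℝ) (c d : ℝ) : Prop :=
  (∀ x y, c < x → x < d → c < y → y < d → f x = f y) ∨
    ((∀ x y, c < x → x < y → y < d → f x < f y) ∧ ContinuousOn f (Ioo c d)) ∨
    ((∀ x y, c < x → x < y → y < d → f y < f x) ∧ ContinuousOn f (Ioo c d))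

theorem Trich.mono {f : ℝ → ℝ} {c d c' d' : ℝ} (h : Trich f c d) (h1 : c ≤ c') (h2 : d' ≤ d) :
    Trich f c' d' := by
  rcases h with h | ⟨h, k⟩ | ⟨h, k⟩
  · left
    intro x y a1 a2 a3 a4
    exact h x y (by linarith) (by linarith) (by linarith) (by linarith)
  · right; left
    exact ⟨fun x y a1 a2 a3 => h x y (by linarith) a2 (by linarith),
      k.mono (Ioo_subset_Ioo h1 h2)⟩
  · right; right
    exact ⟨fun x y a1 a2 a3 => h x y (by linarith) a2 (by linarith),
      k.mono (Ioo_subset_Ioo h1 h2)⟩

theorem trich_family (hN : NIP 𝒮) (hn : Noiseless 𝒮) {k : ℕ} (g : Fin k → ℝ → ℝ)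
    (hg : ∀ i, DFun 𝒮 (g i)) {a b : ℝ} (hab : a < b) :
    ∃ c d, a ≤ c ∧ c < d ∧ d ≤ b ∧ ∀ i, Trich (g i) c d := by
  have key : ∀ s : Finset (Fin k), ∃ c d, a ≤ c ∧ c < d ∧ d ≤ b ∧ ∀ i ∈ s, Trich (g i) c d := by
    intro s
    induction s using Finset.induction_on with
    | empty => exact ⟨a, b, le_rfl, hab, le_rfl, by simp⟩
    | insert j s _ ih =>
      obtain ⟨c, d, h1, h2, h3, h4⟩ := ih
      obtain ⟨c', d', h5, h6, h7, h8⟩ := monoStmt 𝒮 hN hn (g j) (hg j) c d h2
      refine ⟨c', d', by linarith, h6, by linarith, ?_⟩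
      intro i hi
      rw [Finset.mem_insert] at hi
      rcases hi with rfl | hi
      · exact h8
      · exact (h4 i hi).mono h5 h7
  obtain ⟨c, d, h1, h2, h3, h4⟩ := key Finset.univ
  exact ⟨c, d, h1, h2, h3, fun i => h4 i (Finset.mem_univ i)⟩

theorem claimD : ClaimDStmt := by
  intro 𝒮 hN hn n
  induction n with
  | zero =>
    intro U hU hne f _ hinj
    obtain ⟨x, hx⟩ := hne
    obtain ⟨r, hr, hball⟩ := Metric.isOpen_iff.1 hU x hx
    have hy : (fun i => x i + r / 2) ∈ U := by
      apply hball
      rw [Metric.mem_ball, dist_pi_lt_iff hr]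
      intro i
      rw [Real.dist_eq]
      have : x i + r / 2 - x i = r / 2 := by ring
      rw [this, abs_of_pos (by linarith)]
      linarith
    have h := hinj hx hy (Subsingleton.elim _ _)
    have := congrFun h 0
    linarith
  | succ n ih =>
    intro U hU hne f hf hinj
    have hcont : Continuous (fun p : ℝ × (Fin (n + 1) → ℝ) =>
        (Fin.cons p.1 p.2 : Fin (n + 2) → ℝ)) := by
      apply continuous_pi
      intro i
      induction i using Fin.cases with
      | zero => simpa using continuous_fst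
      | succ j =>
        simp only [Fin.cons_succ]
        exact (continuous_apply j).comp continuous_snd
    obtain ⟨x, hx⟩ := hne
    have hpre := hU.preimage hcont
    have hmem : (x 0, Fin.tail x) ∈ (fun p : ℝ × (Fin (n + 1) → ℝ) =>
        (Fin.cons p.1 p.2 : Fin (n + 2) → ℝ)) ⁻¹' U := by
      rw [mem_preimage]
      simpa using hx
    obtain ⟨T, U', hT, hU', hxT, hxU', hsub⟩ := isOpen_prod_iff.1 hpre _ _ hmem
    obtain ⟨r, hr, hball⟩ := Metric.isOpen_iff.1 hT (x 0) hxT
    rw [Real.ball_eq_Ioo] at hball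
    set a := x 0 - r with ha
    set b := x 0 + r with hb
    have hab : a < b := by rw [ha, hb]; linarith
    have hinU : ∀ t x', a < t → t < b → x' ∈ U' → (Fin.cons t x' : Fin (n + 2) → ℝ) ∈ U :=
      fun t x' h1 h2 h3 => hsub (show (t, x') ∈ T ×ˢ U' from ⟨hball ⟨h1, h2⟩, h3⟩)
    let G : ℚ × ℚ × Fin (n + 1) × ℚ → (Fin (n + 1) → ℝ) → Prop := fun k x' =>
      (a ≤ k.1 ∧ (k.1 : ℝ) < k.2.1 ∧ k.2.1 ≤ b) ∧
      (∀ s t : ℝ, k.1 < s → s < k.2.1 → k.1 < t → t < k.2.1 →
        f (Fin.cons s x') k.2.2.1 = f (Fin.cons t x') k.2.2.1 → s = t) ∧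
      (∃ t : ℝ, k.1 < t ∧ t < k.2.1 ∧ f (Fin.cons t x') k.2.2.1 = k.2.2.2)
    have hG : ∀ k, DFun 𝒮 (G k) := by
      intro k
      simp only [G]
      fun_prop
    have hcov : ∀ x' ∈ U', ∃ k, G k x' := by
      intro x' hx'
      obtain ⟨c, d, h1, h2, h3, h4⟩ := trich_family hN hn
        (fun (i : Fin (n + 1)) t => f (Fin.cons t x') i) (by intro i; fun_prop) hab
      obtain ⟨q1, hq1, hq2⟩ := exists_rat_btwn h2
      obtain ⟨q2, hq3, hq4⟩ := exists_rat_btwn hq2
      -- some component is not constant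
      have hex : ∃ i : Fin (n + 1), ∀ s t : ℝ, c < s → s < d → c < t → t < d →
          f (Fin.cons s x') i = f (Fin.cons t x') i → s = t := by
        by_contra hcon
        push Not at hcon
        have hconst : ∀ i : Fin (n + 1), ∀ x y, c < x → x < d → c < y → y < d →
            f (Fin.cons x x') i = f (Fin.cons y x') i := by
          intro i
          rcases h4 i with h | ⟨h, _⟩ | ⟨h, _⟩
          · exact h
          · exfalso
            obtain ⟨s, t, e1, e2, e3, e4, e5, e6⟩ := hcon i
            rcases lt_or_gt_of_ne e6 with h' | h'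
            · have := h s t e1 h' e4
              simp only at this
              linarith
            · have := h t s e3 h' e2
              simp only at this
              linarith
          · exfalso
            obtain ⟨s, t, e1, e2, e3, e4, e5, e6⟩ := hcon i
            rcases lt_or_gt_of_ne e6 with h' | h'
            · have := h s t e1 h' e4
              simp only at this
              linarith
            · have := h t s e3 h' e2
              simp only at this
              linarith
        have e := hinj (hinU q1 x' (by linarith) (by linarith) hx')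
          (hinU q2 x' (by linarith) (by linarith) hx')
          (funext fun i => hconst i q1 q2 hq1 hq2 (by linarith) hq4)
        have := congrFun e 0
        simp only [Fin.cons_zero] at this
        linarith
      obtain ⟨i, hi⟩ := hex
      -- a rational value
      have hcont' : ContinuousOn (fun t => f (Fin.cons t x') i) (Ioo c d) := by
        rcases h4 i with h | ⟨_, h⟩ | ⟨_, h⟩
        · exfalso
          have := hi q1 q2 hq1 hq2 (by linarith) hq4 (h q1 q2 hq1 hq2 (by linarith) hq4)
          linarith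
        · exact h
        · exact h
      have hne : f (Fin.cons (q1 : ℝ) x') i ≠ f (Fin.cons (q2 : ℝ) x') i := by
        intro h
        have := hi q1 q2 hq1 hq2 (by linarith) hq4 h
        linarith
      have hc2 : ContinuousOn (fun t => f (Fin.cons t x') i) (uIcc (q1 : ℝ) q2) := by
        apply hcont'.mono
        rw [uIcc_of_le hq3.le]
        intro t ht
        exact ⟨by linarith [ht.1], by linarith [ht.2]⟩
      obtain ⟨v, hv⟩ : ∃ v : ℚ, (v : ℝ) ∈ uIcc (f (Fin.cons (q1 : ℝ) x') i)
          (f (Fin.cons (q2 : ℝ) x') i) := by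
        rcases lt_or_gt_of_ne hne with h | h
        · obtain ⟨v, hv1, hv2⟩ := exists_rat_btwn h
          exact ⟨v, by rw [uIcc_of_le h.le]; exact ⟨hv1.le, hv2.le⟩⟩
        · obtain ⟨v, hv1, hv2⟩ := exists_rat_btwn h
          exact ⟨v, by rw [uIcc_of_ge h.le]; exact ⟨hv1.le, hv2.le⟩⟩
      obtain ⟨t, ht, hvt⟩ := intermediate_value_uIcc hc2 hv
      rw [uIcc_of_le hq3.le] at ht
      simp only at hvt
      obtain ⟨p1, hp1, hp2⟩ := exists_rat_btwn hq1
      obtain ⟨p2, hp3, hp4⟩ := exists_rat_btwn hq4
      refine ⟨(p1, p2, i, v), ⟨by simp only; linarith, by simp only; linarith,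
        by simp only; linarith⟩, ?_, t, by simp only; linarith [ht.1],
        by simp only; linarith [ht.2], hvt⟩
      intro s t' e1 e2 e3 e4 e5
      simp only at e1 e2 e3 e4 e5
      exact hi s t' (by linarith) (by linarith) (by linarith) (by linarith) e5
    obtain ⟨⟨p1, p2, i, v⟩, V, hV, hVo, hVne, hc⟩ :=
      baireNL (NL_fin hn (n + 1)) G hG hU' ⟨_, hxU'⟩ hcov
    simp only [G] at hc
    -- the level function
    let τ : (Fin (n + 1) → ℝ) → ℝ := fun x' =>
      sInf {t : ℝ | (p1 : ℝ) < t ∧ t < p2 ∧ f (Fin.cons t x') i = v}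
    have hτ : DFun 𝒮 τ := by
      simp only [τ]
      fun_prop
    have hτspec : ∀ x' ∈ V, (p1 : ℝ) < τ x' ∧ τ x' < p2 ∧ f (Fin.cons (τ x') x') i = v := by
      intro x' hx'
      obtain ⟨_, hinj', t, ht1, ht2, ht3⟩ := hc x' hx'
      have : {t : ℝ | (p1 : ℝ) < t ∧ t < p2 ∧ f (Fin.cons t x') i = v} = {t} := by
        ext s
        simp only [mem_ofPred_eq, mem_singleton_iff]
        constructor
        · rintro ⟨e1, e2, e3⟩
          exact hinj' s t e1 e2 ht1 ht2 (by rw [e3, ht3])
        · rintro rfl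
          exact ⟨ht1, ht2, ht3⟩
      have e : τ x' = t := by
        simp only [τ]
        rw [this, csInf_singleton]
      rw [e]
      exact ⟨ht1, ht2, ht3⟩
    refine ih V hVo hVne (fun x' k => f (Fin.cons (τ x') x') (i.succAbove k)) (by fun_prop) ?_
    intro x' hx' y' hy' hxy
    obtain ⟨e1, e2, e3⟩ := hτspec x' hx'
    obtain ⟨e4, e5, e6⟩ := hτspec y' hy'
    obtain ⟨⟨b1, _, b2⟩, _⟩ := hc x' hx'
    have heq : f (Fin.cons (τ x') x') = f (Fin.cons (τ y') y') := by
      funext j
      by_cases hj : j = i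
      · rw [hj, e3, e6]
      · obtain ⟨k, rfl⟩ := Fin.exists_succAbove_eq hj
        exact congrFun hxy k
    have := hinj (hinU (τ x') x' (by linarith) (by linarith) (hV hx'))
      (hinU (τ y') y' (by linarith) (by linarith) (hV hy')) heq
    rw [Fin.cons_inj] at this
    exact this.2

end Pool.Agent.Lib.MP_77ea03_lc
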