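import Pool.Agent.Lib.MP_77ea03_lc.ClaimD
import Pool.Agent.Lib.MP_77ea03_lc.Choice

/-! Module I: a definable copy of a real interval inside a definable ordered group. -/

set_option autoImplicit false

namespace Pool.Agent.Lib.MP_77ea03_lc

open Set DSort

variable {𝒮 : Str}

section group

variable {K : Type} [AddCommGroup K] [LinearOrder K] [IsOrderedAddMonoid K] [DSort K] [DRan 𝒮 K]

omit [LinearOrder K] [IsOrderedAddMonoid K] in
theorem DFun.kadd (hadd : DFun 𝒮 (fun p : K × K => p.1 + p.2)) {α : Type} [DSort α] [DRan 𝒮 α]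
    {f g : α → K} (hf : DFun 𝒮 f) (hg : DFun 𝒮 g) : DFun 𝒮 (fun a => f a + g a) :=
  DFun.comp' (g := fun p : K × K => p.1 + p.2) hadd (DFun.prodMk hf hg)

omit [LinearOrder K] [IsOrderedAddMonoid K] in
theorem DFun.kneg (hadd : DFun 𝒮 (fun p : K × K => p.1 + p.2)) {α : Type} [DSort α] [DRan 𝒮 α]
    {f : α → K} (hf : DFun 𝒮 f) : DFun 𝒮 (fun a => - f a) := by
  refine DFun.of_iff (R := fun a b => b + f a = 0) ?_ ?_
  · refine DFun.eq' (DFun.kadd hadd ?_ ?_) ?_ <;> fun_prop
  · intro a b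
    constructor
    · rintro rfl; simp
    · intro h; exact (eq_neg_of_add_eq_zero_left h).symm

omit [LinearOrder K] [IsOrderedAddMonoid K] in
theorem DFun.ksub (hadd : DFun 𝒮 (fun p : K × K => p.1 + p.2)) {α : Type} [DSort α] [DRan 𝒮 α]
    {f g : α → K} (hf : DFun 𝒮 f) (hg : DFun 𝒮 g) : DFun 𝒮 (fun a => f a - g a) := by
  have := DFun.kadd hadd hf (DFun.kneg hadd hg)
  simpa only [sub_eq_add_neg] using this

omit [AddCommGroup K] [IsOrderedAddMonoid K] in
theorem DFun.klt (hlt : DFun 𝒮 (fun p : K × K => p.1 < p.2)) {α : Type} [DSort α] [DRan 𝒮 α]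
    {f g : α → K} (hf : DFun 𝒮 f) (hg : DFun 𝒮 g) : DFun 𝒮 (fun a => f a < g a) :=
  DFun.comp' (g := fun p : K × K => p.1 < p.2) hlt (DFun.prodMk hf hg)

omit [AddCommGroup K] [IsOrderedAddMonoid K] in
theorem DFun.kle (hlt : DFun 𝒮 (fun p : K × K => p.1 < p.2)) {α : Type} [DSort α] [DRan 𝒮 α]
    {f g : α → K} (hf : DFun 𝒮 f) (hg : DFun 𝒮 g) : DFun 𝒮 (fun a => f a ≤ g a) :=
  (DFun.klt hlt hg hf).not.congrP (fun _ => not_lt.symm)

/-- Definable convex subgroups. -/
structure CvxSub (𝒮 : Str) [DRan 𝒮 K] (G : K → Prop) : Prop where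
  dfun : DFun 𝒮 G
  zero : G 0
  neg : ∀ x, G x → G (-x)
  add : ∀ x y, G x → G y → G (x + y)
  cvx : ∀ x y, G x → 0 ≤ y → y ≤ x → G y
  ne : ∃ x, G x ∧ x ≠ 0

theorem CvxSub.abs_le {G : K → Prop} (hG : CvxSub 𝒮 G) {x y : K} (hx : G x) (hy : |y| ≤ x) :
    G y := by
  rcases le_total 0 y with h | h
  · exact hG.cvx x y hx h (le_trans (le_abs_self y) hy)
  · have := hG.cvx x (-y) hx (by simpa using h) (le_trans (neg_le_abs y) hy)
    simpa using hG.neg _ this

/-- A strictly increasing curve on `(a, b)`. -/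
structure IsCurve (𝒮 : Str) [DRan 𝒮 K] (a b : ℝ) (ι : ℝ → K) : Prop where
  lt : a < b
  dfun : DFun 𝒮 ι
  mono : ∀ s t, a < s → s < t → t < b → ι s < ι t

theorem exists_curve_in (hN : NIP 𝒮) (hn : Noiseless 𝒮) (thin : ThinStmt)
    (hadd : DFun 𝒮 (fun p : K × K => p.1 + p.2)) (hlt : DFun 𝒮 (fun p : K × K => p.1 < p.2))
    (hdiv : ∀ x : K, ∃ y, y + y = x) {G : K → Prop} (hG : CvxSub 𝒮 G) :
    ∃ a b ι, IsCurve 𝒮 a b ι ∧ ∀ t, a < t → t < b → G (ι t) := by
  obtain ⟨x₀, hx₀, hx₀'⟩ := hG.ne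
  have hsub : ∀ x y, G x → G y → G (x - y) := fun x y hx hy => by
    rw [sub_eq_add_neg]; exact hG.add _ _ hx (hG.neg _ hy)
  obtain ⟨i, a, b, hab, hi⟩ := thin 𝒮 hN hn K G (fun x y => x < y) hG.dfun hlt
    (fun x _ => lt_irrefl x) (fun x y z _ _ _ h1 h2 => lt_trans h1 h2)
    (fun x y _ _ h => lt_or_gt_of_ne h)
    (by
      intro x y hx hy hxy
      obtain ⟨w, hw⟩ := hdiv (y - x)
      have hpos : 0 < w + w := by rw [hw]; exact sub_pos.2 hxy
      have hw0 : 0 < w := by
        by_contra hcon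
        have h1 : w ≤ 0 := not_lt.1 hcon
        exact absurd (add_nonpos h1 h1) (not_le.2 hpos)
      refine ⟨x + w, ?_, ?_, ?_⟩
      · refine hG.add _ _ hx (hG.cvx (y - x) w (hsub _ _ hy hx) hw0.le ?_)
        rw [← hw]
        exact le_add_of_nonneg_left hw0.le
      · simpa using hw0
      · have : y = x + (w + w) := by rw [hw]; abel
        rw [this, ← add_assoc]
        simpa using hw0)
    ⟨x₀, 0, hx₀, hG.zero, hx₀'⟩
  have : Nonempty K := ⟨0⟩
  obtain ⟨ch, hch, hchD⟩ := hasChoice 𝒮 hN hn K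
  have hemb : DFun 𝒮 (fun x : K => emb x i) := DFun.emb' i
  have hGd := hG.dfun
  let h : ℝ → K := fun t => ch (fun x => G x ∧ emb x i = t)
  have hh : DFun 𝒮 h := hchD (fun (t : ℝ) (x : K) => G x ∧ emb x i = t) (by fun_prop)
  have hspec : ∀ t, a < t → t < b → G (h t) ∧ emb (h t) i = t := fun t h1 h2 =>
    hch (fun x => G x ∧ emb x i = t) (by fun_prop) (hi t h1 h2)
  have hinj : ∀ s t, a < s → s < b → a < t → t < b → h s = h t → s = t := by
    intro s t h1 h2 h3 h4 h5
    rw [← (hspec s h1 h2).2, ← (hspec t h3 h4).2, h5]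
  obtain ⟨c, d, h1, h2, h3, h4⟩ := orderMono 𝒮 hN hn (fun s t => h s < h t)
    (DFun.klt hlt (by fun_prop) (by fun_prop)) a b hab
    (fun x _ _ => lt_irrefl _) (fun x y z _ _ _ _ _ _ e1 e2 => lt_trans e1 e2)
    (fun x y e1 e2 e3 e4 hne => lt_or_gt_of_ne (fun e => hne (hinj x y e1 e2 e3 e4 e)))
  rcases h4 with h4 | h4
  · exact ⟨c, d, h, ⟨h2, hh, h4⟩, fun t e1 e2 => (hspec t (by linarith) (by linarith)).1⟩
  · refine ⟨c, d, fun t => - h t, ⟨h2, DFun.kneg hadd hh, ?_⟩, ?_⟩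
    · intro s t e1 e2 e3
      simpa using h4 s t e1 e2 e3
    · intro t e1 e2
      exact hG.neg _ (hspec t (by linarith) (by linarith)).1

/-- Property (A). -/
def PropA (a b : ℝ) (ι : ℝ → K) : Prop :=
  ∀ c d, a ≤ c → c < d → d ≤ b → ∀ k, 0 < k → ∃ x y, c < x ∧ x < y ∧ y < d ∧ ι y - ι x ≤ k

theorem box_embed (hN : NIP 𝒮) (hn : Noiseless 𝒮) (thin : ThinStmt)
    (hadd : DFun 𝒮 (fun p : K × K => p.1 + p.2)) (hlt : DFun 𝒮 (fun p : K × K => p.1 < p.2))
    (hdiv : ∀ x : K, ∃ y, y + y = x) (hno : ∀ a b (ι : ℝ → K), IsCurve 𝒮 a b ι → ¬ PropA a b ι)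
    (m : ℕ) : ∀ {G : K → Prop}, CvxSub 𝒮 G → ∃ (U : Set (Fin m → ℝ)) (j : (Fin m → ℝ) → K),
      IsOpen U ∧ U.Nonempty ∧ DFun 𝒮 j ∧ InjOn j U ∧ ∀ v ∈ U, G (j v) := by
  induction m with
  | zero =>
    intro G hG
    exact ⟨univ, fun _ => 0, isOpen_univ, univ_nonempty, DFun.const' _,
      fun x _ y _ _ => Subsingleton.elim x y, fun _ _ => hG.zero⟩
  | succ m ih =>
    intro G hG
    obtain ⟨a, b, ι, hι, hιG⟩ := exists_curve_in hN hn thin hadd hlt hdiv hG
    have hA := hno a b ι hι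
    unfold PropA at hA
    push Not at hA
    obtain ⟨c, d, hac, hcd, hdb, k, hk, hkι⟩ := hA
    let H : K → Prop := fun x => ∀ s t, c < s → s < t → t < d → x < ι t - ι s ∧ -x < ι t - ι s
    have hιd := hι.dfun
    have hHG : CvxSub 𝒮 H := by
      refine ⟨?_, ?_, ?_, ?_, ?_, ?_⟩
      · have h1 : DFun 𝒮 (fun p : (K × ℝ) × ℝ => p.1.1 < ι p.2 - ι p.1.2) :=
          DFun.klt hlt (by fun_prop) (DFun.ksub hadd (by fun_prop) (by fun_prop))
        have h2 : DFun 𝒮 (fun p : (K × ℝ) × ℝ => - p.1.1 < ι p.2 - ι p.1.2) :=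
          DFun.klt hlt (DFun.kneg hadd (by fun_prop))
            (DFun.ksub hadd (by fun_prop) (by fun_prop))
        simp only [H]
        apply DFun.all
        apply DFun.all
        fun_prop
      · intro s t h1 h2 h3
        have := hι.mono s t (by linarith) h2 (by linarith)
        simp only [neg_zero]
        exact ⟨sub_pos.2 this, sub_pos.2 this⟩
      · intro x hx s t h1 h2 h3
        obtain ⟨e1, e2⟩ := hx s t h1 h2 h3
        exact ⟨e2, by simpa using e1⟩
      · intro x y hx hy s t h1 h2 h3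
        obtain ⟨e1, e2⟩ := hx s ((s + t) / 2) h1 (by linarith) (by linarith)
        obtain ⟨e3, e4⟩ := hy ((s + t) / 2) t (by linarith) (by linarith) h3
        constructor
        · have := add_lt_add e1 e3
          have e : ι ((s + t) / 2) - ι s + (ι t - ι ((s + t) / 2)) = ι t - ι s := by abel
          rwa [e] at this
        · have := add_lt_add e2 e4
          have e : ι ((s + t) / 2) - ι s + (ι t - ι ((s + t) / 2)) = ι t - ι s := by abel
          rw [e] at this
          have e' : -x + -y = -(x + y) := by abel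
          rwa [e'] at this
      · intro x y hx h0 hyx s t h1 h2 h3
        obtain ⟨e1, e2⟩ := hx s t h1 h2 h3
        refine ⟨lt_of_le_of_lt hyx e1, ?_⟩
        have h5 : 0 < ι t - ι s := sub_pos.2 (hι.mono s t (by linarith) h2 (by linarith))
        exact lt_of_le_of_lt (by simpa using h0) h5
      · refine ⟨k, ?_, hk.ne'⟩
        intro s t h1 h2 h3
        have := hkι s t h1 h2 h3
        exact ⟨this, lt_of_le_of_lt (by simpa using hk.le) (lt_trans hk this)⟩
    obtain ⟨U', j', hU', ⟨u₀, hu₀⟩, hj', hinj', hH⟩ := ih hHG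
    refine ⟨{v | (c < v 0 ∧ v 0 < d) ∧ Fin.tail v ∈ U'}, fun v => ι (v 0) + j' (Fin.tail v),
      ?_, ?_, ?_, ?_, ?_⟩
    · have ht : Continuous (fun z : Fin (m + 1) → ℝ => Fin.tail z) := by
        apply continuous_pi
        intro i
        exact continuous_apply _
      exact ((isOpen_lt continuous_const (continuous_apply 0)).inter
        (isOpen_lt (continuous_apply 0) continuous_const)).inter (hU'.preimage ht)
    · refine ⟨Fin.cons ((c + d) / 2) u₀, ⟨?_, ?_⟩, ?_⟩
      · simp only [Fin.cons_zero]; linarith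
      · simp only [Fin.cons_zero]; linarith
      · simpa using hu₀
    · refine DFun.kadd hadd (by fun_prop) ?_
      have : DFun 𝒮 (fun v : Fin (m + 1) → ℝ => Fin.tail v) := by
        unfold Fin.tail
        fun_prop
      fun_prop
    · have hlt' : ∀ v w : Fin (m + 1) → ℝ, v ∈ {v : Fin (m + 1) → ℝ | (c < v 0 ∧ v 0 < d) ∧
          Fin.tail v ∈ U'} → w ∈ {v : Fin (m + 1) → ℝ | (c < v 0 ∧ v 0 < d) ∧ Fin.tail v ∈ U'} →
          ι (v 0) + j' (Fin.tail v) = ι (w 0) + j' (Fin.tail w) → ¬ v 0 < w 0 := by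
        rintro v w ⟨⟨hv1, hv2⟩, hv3⟩ ⟨⟨hw1, hw2⟩, hw3⟩ he hvw
        have h1 := hHG.add _ _ (hH _ hv3) (hHG.neg _ (hH _ hw3)) (v 0) (w 0) hv1 hvw hw2
        have h2 : j' (Fin.tail v) + -j' (Fin.tail w) = ι (w 0) - ι (v 0) := by
          have : j' (Fin.tail v) = ι (w 0) + j' (Fin.tail w) - ι (v 0) := by rw [← he]; abel
          rw [this]; abel
        rw [h2] at h1
        exact lt_irrefl _ h1.1
      intro v hv w hw he
      simp only at he
      have h0 : v 0 = w 0 := by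
        apply le_antisymm
        · exact not_lt.1 (hlt' w v hw hv he.symm)
        · exact not_lt.1 (hlt' v w hv hw he)
      rw [h0] at he
      have h1 := hinj' hv.2 hw.2 (add_left_cancel he)
      rw [← Fin.cons_self_tail v, ← Fin.cons_self_tail w, h0, h1]
    · rintro v ⟨⟨hv1, hv2⟩, hv3⟩
      refine hG.add _ _ (hιG _ (by linarith) (by linarith)) ?_
      have h1 := hH _ hv3 (c + (d - c) / 3) (c + (d - c) / 2) (by linarith) (by linarith)
        (by linarith)
      have h2 : G (ι (c + (d - c) / 2) - ι (c + (d - c) / 3)) := by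
        rw [sub_eq_add_neg]
        exact hG.add _ _ (hιG _ (by linarith) (by linarith))
          (hG.neg _ (hιG _ (by linarith) (by linarith)))
      exact hG.abs_le h2 (abs_le.2 ⟨by simpa using (neg_le_neg h1.2.le), h1.1.le⟩)

theorem exists_propA (hN : NIP 𝒮) (hn : Noiseless 𝒮) (thin : ThinStmt)
    (hadd : DFun 𝒮 (fun p : K × K => p.1 + p.2)) (hlt : DFun 𝒮 (fun p : K × K => p.1 < p.2))
    (hdiv : ∀ x : K, ∃ y, y + y = x) (hne : ∃ x : K, x ≠ 0) :
    ∃ a b, ∃ ι : ℝ → K, IsCurve 𝒮 a b ι ∧ PropA a b ι := by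
  by_contra hcon
  have hno : ∀ a b (ι : ℝ → K), IsCurve 𝒮 a b ι → ¬ PropA a b ι := by
    intro a b ι h1 h2
    exact hcon ⟨a, b, ι, h1, h2⟩
  have htop : CvxSub 𝒮 (fun _ : K => True) :=
    ⟨DFun.const' _, trivial, fun _ _ => trivial, fun _ _ _ _ => trivial,
      fun _ _ _ _ _ => trivial, by simpa using hne⟩
  have := Fintype.ofFinite (ix K)
  let e := Fintype.equivFin (ix K)
  obtain ⟨U, j, hU, hUne, hj, hinj, _⟩ :=
    box_embed hN hn thin hadd hlt hdiv hno (Fintype.card (ix K) + 1) htop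
  refine claimD 𝒮 hN hn (Fintype.card (ix K)) U hU hUne (fun v i => emb (j v) (e.symm i)) ?_ ?_
  · apply DFun.pi'
    intro i
    exact DFun.comp' (DFun.emb' (e.symm i)) hj
  · intro v hv w hw he
    apply hinj hv hw
    apply inj
    funext i
    have := congrFun he (e i)
    simpa using this

theorem exists_cont_curve (hN : NIP 𝒮) (hadd : DFun 𝒮 (fun p : K × K => p.1 + p.2))
    (hlt : DFun 𝒮 (fun p : K × K => p.1 < p.2)) {a b : ℝ} {ι : ℝ → K} (hι : IsCurve 𝒮 a b ι)
    (hA : PropA a b ι) : ∃ c d, a ≤ c ∧ c < d ∧ d ≤ b ∧ ∀ x, c < x → x < d → ∀ k, 0 < k →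
      ∃ δ, 0 < δ ∧ a < x - δ ∧ x + δ < b ∧ ι (x + δ) - ι (x - δ) ≤ k := by
  by_contra hcon
  push Not at hcon
  let Z : K → ℝ → Prop := fun k x => 0 < k ∧ a < x ∧ x < b ∧
    ∀ δ, 0 < δ → a < x - δ → x + δ < b → k < ι (x + δ) - ι (x - δ)
  have hιd := hι.dfun
  have hZ : DFun 𝒮 (fun p : K × ℝ => Z p.1 p.2) := by
    have h1 : DFun 𝒮 (fun p : (K × ℝ) × ℝ => p.1.1 < ι (p.1.2 + p.2) - ι (p.1.2 - p.2)) :=
      DFun.klt hlt (by fun_prop) (DFun.ksub hadd (by fun_prop) (by fun_prop))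
    have h2 : DFun 𝒮 (fun p : K × ℝ => 0 < p.1) := DFun.klt hlt (by fun_prop) (by fun_prop)
    simp only [Z]
    have h3 : DFun 𝒮 (fun p : K × ℝ => ∀ δ : ℝ, 0 < δ → a < p.2 - δ → p.2 + δ < b →
        p.1 < ι (p.2 + δ) - ι (p.2 - δ)) := by
      apply DFun.all
      fun_prop
    fun_prop
  refine lemmaN 𝒮 hN Z hZ ?_ a b hι.lt ?_
  · intro k p q hpq
    by_cases hk : 0 < k
    · by_cases hcd : max p a < min q b
      · obtain ⟨x, y, h1, h2, h3, h4⟩ := hA (max p a) (min q b) (le_max_right _ _) hcd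
          (min_le_right _ _) k hk
        have e1 := le_max_left p a
        have e2 := le_max_right p a
        have e3 := min_le_left q b
        have e4 := min_le_right q b
        refine ⟨x, y, by linarith, h2, by linarith, ?_⟩
        rintro w hw1 hw2 ⟨_, _, _, h5⟩
        set δ := min (w - x) (y - w) / 2 with hδ
        have hmp : 0 < min (w - x) (y - w) := lt_min (by linarith) (by linarith)
        have hm1 := min_le_left (w - x) (y - w)
        have hm2 := min_le_right (w - x) (y - w)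
        have h6 := h5 δ (by linarith) (by linarith) (by linarith)
        have h7 : ι x ≤ ι (w - δ) := (hι.mono x (w - δ) (by linarith) (by linarith)
          (by linarith)).le
        have h8 : ι (w + δ) ≤ ι y := (hι.mono (w + δ) y (by linarith) (by linarith)
          (by linarith)).le
        exact absurd (lt_of_lt_of_le h6 (le_trans (sub_le_sub h8 h7) h4)) (lt_irrefl _)
      · refine ⟨p, q, le_rfl, hpq, le_rfl, ?_⟩
        rintro x hx1 hx2 ⟨_, h1, h2, _⟩
        exact hcd (lt_trans (max_lt hx1 h1) (lt_min hx2 h2))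
    · refine ⟨p, q, le_rfl, hpq, le_rfl, ?_⟩
      rintro x _ _ ⟨h, _⟩
      exact hk h
  · intro F hF
    classical
    have key : ∀ F : Finset (ℝ × ℝ), (∀ I ∈ F, a ≤ I.1 ∧ I.1 < I.2 ∧ I.2 ≤ b) →
        ∃ k, 0 < k ∧ ∀ I ∈ F, ∃ x, I.1 < x ∧ x < I.2 ∧ Z k x := by
      intro F
      induction F using Finset.induction_on with
      | empty =>
        intro _
        have := hι.mono (a + (b - a) / 3) (a + (b - a) / 2) (by linarith [hι.lt])
          (by linarith [hι.lt]) (by linarith [hι.lt])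
        exact ⟨_, sub_pos.2 this, by simp⟩
      | insert I F _ ih =>
        intro hF
        obtain ⟨k, hk, h⟩ := ih (fun J hJ => hF J (Finset.mem_insert_of_mem hJ))
        obtain ⟨h1, h2, h3⟩ := hF I (Finset.mem_insert_self _ _)
        obtain ⟨x, hx1, hx2, k', hk', hx3⟩ := hcon I.1 I.2 h1 h2 h3
        refine ⟨min k k', lt_min hk hk', ?_⟩
        intro J hJ
        rw [Finset.mem_insert] at hJ
        rcases hJ with rfl | hJ
        · refine ⟨x, hx1, hx2, lt_min hk hk', by linarith, by linarith, ?_⟩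
          intro δ e1 e2 e3
          exact lt_of_le_of_lt (min_le_right _ _) (hx3 δ e1 e2 e3)
        · obtain ⟨y, hy1, hy2, _, hy3, hy4, hy5⟩ := h J hJ
          refine ⟨y, hy1, hy2, lt_min hk hk', hy3, hy4, ?_⟩
          intro δ e1 e2 e3
          exact lt_of_le_of_lt (min_le_left _ _) (hy5 δ e1 e2 e3)
    obtain ⟨k, _, h⟩ := key F hF
    exact ⟨k, h⟩

end group

theorem curveStmt (thin : ThinStmt) : CurveStmt := by
  intro 𝒮 hN hn K _ _ _ _ _ hadd hlt hne hdiv
  obtain ⟨a, b, ι, hι, hA⟩ := exists_propA hN hn thin hadd hlt hdiv hne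
  obtain ⟨c, d, hac, hcd, hdb, hc⟩ := exists_cont_curve hN hadd hlt hι hA
  set p := c + (d - c) / 3 with hp
  set q := c + (d - c) / 2 with hq
  have hcp : c < p := by linarith
  have hpq : p < q := by linarith
  have hqd : q < d := by linarith
  have hmono : StrictMonoOn ι (Icc p q) := by
    intro x hx y hy hxy
    exact hι.mono x y (by linarith [hx.1]) hxy (by linarith [hy.2])
  refine ⟨p, q, ι, hpq, hι.dfun, hmono, ?_, ?_⟩
  · intro w hw1 hw2
    have hne' : {x | (p ≤ x ∧ x ≤ q) ∧ ι x ≤ w}.Nonempty := ⟨p, ⟨le_rfl, hpq.le⟩, hw1⟩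
    have hbd : BddAbove {x | (p ≤ x ∧ x ≤ q) ∧ ι x ≤ w} := ⟨q, fun x hx => hx.1.2⟩
    set s := sSup {x | (p ≤ x ∧ x ≤ q) ∧ ι x ≤ w} with hs
    have hps : p ≤ s := le_csSup hbd ⟨⟨le_rfl, hpq.le⟩, hw1⟩
    have hsq : s ≤ q := csSup_le hne' (fun x hx => hx.1.2)
    refine ⟨s, ⟨hps, hsq⟩, ?_⟩
    rcases lt_trichotomy (ι s) w with h | h | h
    · exfalso
      obtain ⟨δ, h1, h2, h3, h4⟩ := hc s (by linarith) (by linarith) (w - ι s) (sub_pos.2 h)
      have h5 : ι (s - δ) < ι s := hι.mono _ _ h2 (by linarith) (by linarith)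
      have h6 : ι (s + δ) < w := by
        have : ι (s + δ) ≤ w - ι s + ι (s - δ) := sub_le_iff_le_add.1 h4
        refine lt_of_le_of_lt this ?_
        calc w - ι s + ι (s - δ) < w - ι s + ι s := by gcongr
          _ = w := by abel
      rcases eq_or_lt_of_le hsq with h7 | h7
      · rw [h7] at h; exact absurd h (not_lt.2 hw2)
      · have h8 : min (s + δ) q ≤ s := by
          refine le_csSup hbd ⟨⟨?_, min_le_right _ _⟩, ?_⟩
          · exact le_min (by linarith) hpq.le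
          · refine le_trans ?_ h6.le
            rcases eq_or_lt_of_le (min_le_left (s + δ) q) with h9 | h9
            · rw [h9]
            · exact (hι.mono _ _ (by
                have : s < min (s + δ) q := lt_min (by linarith) h7
                linarith) h9 h3).le
        have : s < min (s + δ) q := lt_min (by linarith) h7
        linarith
    · exact h
    · exfalso
      obtain ⟨δ, h1, h2, h3, h4⟩ := hc s (by linarith) (by linarith) (ι s - w) (sub_pos.2 h)
      have h5 : ι s < ι (s + δ) := hι.mono _ _ (by linarith) (by linarith) h3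
      have h6 : w < ι (s - δ) := by
        have : ι (s + δ) ≤ ι s - w + ι (s - δ) := sub_le_iff_le_add.1 h4
        have h7 : ι s < ι s - w + ι (s - δ) := lt_of_lt_of_le h5 this
        have h8 : 0 < - w + ι (s - δ) := by
          have e : ι s - w + ι (s - δ) = ι s + (-w + ι (s - δ)) := by abel
          rw [e] at h7
          simpa using h7
        simpa using h8
      obtain ⟨x, hx, hx'⟩ := exists_lt_of_lt_csSup hne' (show s - δ < s by linarith)
      have h7 : x ≤ s := le_csSup hbd hx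
      have h8 : ι (s - δ) < ι x := hι.mono _ _ h2 hx' (by linarith)
      exact absurd hx.2 (not_le.2 (lt_trans h6 h8))
  · intro k hk
    have hne' : {x | (p ≤ x ∧ x ≤ q) ∧ ∃ n : ℕ, ι x - ι p ≤ n • k}.Nonempty :=
      ⟨p, ⟨le_rfl, hpq.le⟩, 0, by simp⟩
    have hbd : BddAbove {x | (p ≤ x ∧ x ≤ q) ∧ ∃ n : ℕ, ι x - ι p ≤ n • k} :=
      ⟨q, fun x hx => hx.1.2⟩
    set s := sSup {x | (p ≤ x ∧ x ≤ q) ∧ ∃ n : ℕ, ι x - ι p ≤ n • k} with hs
    have hps : p ≤ s := le_csSup hbd ⟨⟨le_rfl, hpq.le⟩, 0, by simp⟩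
    have hsq : s ≤ q := csSup_le hne' (fun x hx => hx.1.2)
    obtain ⟨δ, h1, h2, h3, h4⟩ := hc s (by linarith) (by linarith) k hk
    obtain ⟨x, ⟨⟨hx1, hx2⟩, n, hx3⟩, hx'⟩ := exists_lt_of_lt_csSup hne' (show s - δ < s by linarith)
    have hxs : x ≤ s := le_csSup hbd ⟨⟨hx1, hx2⟩, n, hx3⟩
    have h5 : ι (s - δ) < ι x := hι.mono _ _ h2 hx' (by linarith)
    have hy : ∀ y, s < y → y ≤ s + δ → y ≤ q → False := by
      intro y e1 e2 e3
      have h6 : ι y ≤ ι (s + δ) := by
        rcases eq_or_lt_of_le e2 with h | h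
        · rw [h]
        · exact (hι.mono _ _ (by linarith) h h3).le
      have h7 : y ≤ s := by
        refine le_csSup hbd ⟨⟨by linarith, e3⟩, n + 1, ?_⟩
        calc ι y - ι p = (ι y - ι x) + (ι x - ι p) := by abel
          _ ≤ (ι (s + δ) - ι (s - δ)) + n • k :=
            add_le_add (sub_le_sub h6 h5.le) hx3
          _ ≤ k + n • k := by gcongr
          _ = (n + 1) • k := by rw [add_smul, one_smul, add_comm]
      linarith
    have hsq' : s = q := by
      rcases eq_or_lt_of_le hsq with h | h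
      · exact h
      · exact absurd (hy (min (s + δ) q) (lt_min (by linarith) h) (min_le_left _ _)
          (min_le_right _ _)) id
    refine ⟨n + 1, ?_⟩
    have h6 : ι q ≤ ι (s + δ) := by
      rw [← hsq']
      exact (hι.mono _ _ (by linarith) (by linarith) h3).le
    calc ι q - ι p = (ι q - ι x) + (ι x - ι p) := by abel
      _ ≤ (ι (s + δ) - ι (s - δ)) + n • k := add_le_add (sub_le_sub h6 h5.le) hx3
      _ ≤ k + n • k := by gcongr
      _ = (n + 1) • k := by rw [add_smul, one_smul, add_comm]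

end Pool.Agent.Lib.MP_77ea03_lc
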