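import Pool.Agent.Lib.MP_77ea03_lc.Spec

/-! Module E: noiselessness in all dimensions, Baire category for definable covers. -/

set_option autoImplicit false

namespace Pool.Agent.Lib.MP_77ea03_lc

open Set DSort

variable {𝒮 : Str}

/-- Definable subsets are constant on a nonempty open subset of each nonempty open set. -/
def NL (𝒮 : Str) (α : Type) [TopologicalSpace α] [DSort α] : Prop :=
  ∀ P : α → Prop, DFun 𝒮 P → ∀ U : Set α, IsOpen U → U.Nonempty →
    ∃ V ⊆ U, IsOpen V ∧ V.Nonempty ∧ ((∀ x ∈ V, P x) ∨ (∀ x ∈ V, ¬ P x))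

theorem baireNL {α : Type} [TopologicalSpace α] [BaireSpace α] [DSort α] (h : NL 𝒮 α)
    {κ : Type*} [Countable κ] (G : κ → α → Prop) (hG : ∀ k, DFun 𝒮 (G k)) {U : Set α}
    (hU : IsOpen U) (hne : U.Nonempty) (hcov : ∀ x ∈ U, ∃ k, G k x) :
    ∃ k, ∃ V ⊆ U, IsOpen V ∧ V.Nonempty ∧ ∀ x ∈ V, G k x := by
  by_contra hcon
  push Not at hcon
  have hd : Dense (⋂ k, (interior ({x | ¬ G k x} ∪ Uᶜ))) := by
    apply dense_iInter_of_isOpen (fun k => isOpen_interior)
    intro k
    rw [dense_iff_inter_open]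
    intro W hW hWne
    by_cases hWU : (W ∩ U).Nonempty
    · obtain ⟨V, hV, hVo, hVne, hc⟩ := h (G k) (hG k) (W ∩ U) (hW.inter hU) hWU
      rcases hc with hc | hc
      · obtain ⟨x, hx, hx'⟩ := hcon k V (hV.trans inter_subset_right) hVo hVne
        exact absurd (hc x hx) hx'
      · obtain ⟨x, hx⟩ := hVne
        refine ⟨x, (hV hx).1, ?_⟩
        rw [mem_interior]
        exact ⟨V, fun y hy => Or.inl (hc y hy), hVo, hx⟩
    · obtain ⟨x, hx⟩ := hWne
      refine ⟨x, hx, ?_⟩
      rw [mem_interior]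
      refine ⟨W, fun y hy => Or.inr ?_, hW, hx⟩
      intro hyU
      exact hWU ⟨y, hy, hyU⟩
  obtain ⟨x, hxU, hx⟩ := hd.inter_open_nonempty U hU hne
  obtain ⟨k, hk⟩ := hcov x hxU
  rw [mem_iInter] at hx
  rcases interior_subset (hx k) with h1 | h1
  · exact h1 hk
  · exact h1 hxU

theorem NL_real (hn : Noiseless 𝒮) : NL 𝒮 ℝ := by
  intro P hP U hU hne
  obtain ⟨x, hx⟩ := hne
  obtain ⟨r, hr, hball⟩ := Metric.isOpen_iff.1 hU x hx
  rw [Real.ball_eq_Ioo] at hball
  obtain ⟨c, d, h1, h2, h3, h4⟩ := hn P hP (x - r) (x + r) (by linarith)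
  refine ⟨Ioo c d, (Ioo_subset_Ioo h1 h3).trans hball, isOpen_Ioo, nonempty_Ioo.2 h2, ?_⟩
  rcases h4 with h4 | h4
  · left; exact fun y hy => h4 y hy.1 hy.2
  · right; exact fun y hy => h4 y hy.1 hy.2

/-- Interval form of the Baire category argument. -/
theorem baire1 (hn : Noiseless 𝒮) {κ : Type*} [Countable κ] (G : κ → ℝ → Prop)
    (hG : ∀ k, DFun 𝒮 (G k)) {a b : ℝ} (hab : a < b) (hcov : ∀ x, a < x → x < b → ∃ k, G k x) :
    ∃ k c d, a ≤ c ∧ c < d ∧ d ≤ b ∧ ∀ x, c < x → x < d → G k x := by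
  obtain ⟨k, V, hV, hVo, ⟨x, hx⟩, hc⟩ := baireNL (NL_real hn) G hG isOpen_Ioo
    (nonempty_Ioo.2 hab) (fun x hx => hcov x hx.1 hx.2)
  obtain ⟨r, hr, hball⟩ := Metric.isOpen_iff.1 hVo x hx
  rw [Real.ball_eq_Ioo] at hball
  have h1 : x ∈ Ioo a b := hV hx
  refine ⟨k, max a (x - r), min b (x + r), le_max_left _ _, ?_, min_le_left _ _, ?_⟩
  · rw [max_lt_iff, lt_min_iff, lt_min_iff]
    exact ⟨⟨hab, by linarith [h1.1]⟩, by linarith [h1.2], by linarith⟩
  · intro y hy1 hy2
    rw [max_lt_iff] at hy1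
    rw [lt_min_iff] at hy2
    exact hc y (hball ⟨hy1.2, hy2.2⟩)

@[fun_prop]
theorem DFun.cons' {α : Type} [DSort α] [DRan 𝒮 α] {n : ℕ} {f : α → ℝ} {g : α → (Fin n → ℝ)}
    (hf : DFun 𝒮 f) (hg : DFun 𝒮 g) :
    DFun 𝒮 (fun a => (Fin.cons (f a) (g a) : Fin (n + 1) → ℝ)) := by
  apply DFun.pi'
  intro i
  induction i using Fin.cases with
  | zero => simpa using hf
  | succ j => simp only [Fin.cons_succ]; fun_prop

theorem NL_fin (hn : Noiseless 𝒮) (n : ℕ) : NL 𝒮 (Fin n → ℝ) := by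
  induction n with
  | zero =>
    intro P _ U hU hne
    refine ⟨U, subset_rfl, hU, hne, ?_⟩
    obtain ⟨x, hx⟩ := hne
    by_cases h : P x
    · left; intro y _; rwa [Subsingleton.elim y x]
    · right; intro y _; rwa [Subsingleton.elim y x]
  | succ n ih =>
    intro P hP U hU hne
    -- a box inside `U`
    have hcont : Continuous (fun p : ℝ × (Fin n → ℝ) => (Fin.cons p.1 p.2 : Fin (n + 1) → ℝ)) := by
      apply continuous_pi
      intro i
      induction i using Fin.cases with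
      | zero => simpa using continuous_fst
      | succ j =>
        simp only [Fin.cons_succ]
        exact (continuous_apply j).comp continuous_snd
    obtain ⟨x, hx⟩ := hne
    have hpre := hU.preimage hcont
    have hmem : (x 0, Fin.tail x) ∈ (fun p : ℝ × (Fin n → ℝ) =>
        (Fin.cons p.1 p.2 : Fin (n + 1) → ℝ)) ⁻¹' U := by
      rw [mem_preimage]
      simpa using hx
    obtain ⟨T, U', hT, hU', hxT, hxU', hsub⟩ := isOpen_prod_iff.1 hpre _ _ hmem
    obtain ⟨r, hr, hball⟩ := Metric.isOpen_iff.1 hT (x 0) hxT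
    rw [Real.ball_eq_Ioo] at hball
    set a := x 0 - r with ha
    set b := x 0 + r with hb
    have hab : a < b := by rw [ha, hb]; linarith
    -- cover of `U'`
    let G : (ℚ × ℚ) × Bool → (Fin n → ℝ) → Prop := fun k x' =>
      (a ≤ k.1.1 ∧ (k.1.1 : ℝ) < k.1.2 ∧ k.1.2 ≤ b) ∧
      ∀ t : ℝ, k.1.1 < t → t < k.1.2 → (P (Fin.cons t x') ↔ k.2 = true)
    have hG : ∀ k, DFun 𝒮 (G k) := by
      intro k
      simp only [G]
      fun_prop
    have hcov : ∀ x' ∈ U', ∃ k, G k x' := by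
      intro x' _
      obtain ⟨c, d, h1, h2, h3, h4⟩ := hn (fun t => P (Fin.cons t x')) (by fun_prop) a b hab
      obtain ⟨q1, hq1, hq2⟩ := exists_rat_btwn h2
      obtain ⟨q2, hq3, hq4⟩ := exists_rat_btwn hq2
      rcases h4 with h4 | h4
      · refine ⟨((q1, q2), true), ⟨by simp only; linarith, hq3, by simp only; linarith⟩, ?_⟩
        intro t ht1 ht2
        simp only at ht1 ht2
        simp only [iff_true]
        exact h4 t (by linarith) (by linarith)
      · refine ⟨((q1, q2), false), ⟨by simp only; linarith, hq3, by simp only; linarith⟩, ?_⟩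
        intro t ht1 ht2
        simp only at ht1 ht2
        simp only [Bool.false_eq_true, iff_false]
        exact h4 t (by linarith) (by linarith)
    obtain ⟨⟨⟨q1, q2⟩, s⟩, V', hV', hV'o, ⟨y, hy⟩, hc⟩ := baireNL ih G hG hU' ⟨_, hxU'⟩ hcov
    obtain ⟨⟨h1, h2, h3⟩, _⟩ := hc y hy
    simp only at h1 h2 h3
    refine ⟨{z | (q1 : ℝ) < z 0 ∧ z 0 < q2 ∧ Fin.tail z ∈ V'}, ?_, ?_, ?_, ?_⟩
    · rintro z ⟨hz1, hz2, hz3⟩
      have : (z 0, Fin.tail z) ∈ T ×ˢ U' := ⟨hball ⟨by linarith, by linarith⟩, hV' hz3⟩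
      have := hsub this
      rw [mem_preimage] at this
      simpa using this
    · have ht : Continuous (fun z : Fin (n + 1) → ℝ => Fin.tail z) := by
        apply continuous_pi
        intro i
        exact continuous_apply _
      exact (isOpen_lt continuous_const (continuous_apply 0)).inter
        ((isOpen_lt (continuous_apply 0) continuous_const).inter (hV'o.preimage ht))
    · refine ⟨Fin.cons (((q1 : ℝ) + q2) / 2) y, ?_, ?_, ?_⟩
      · simp only [Fin.cons_zero]; linarith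
      · simp only [Fin.cons_zero]; linarith
      · simpa using hy
    · cases s with
      | true =>
        left
        rintro z ⟨hz1, hz2, hz3⟩
        have := (hc _ hz3).2 (z 0) hz1 hz2
        simpa using this
      | false =>
        right
        rintro z ⟨hz1, hz2, hz3⟩
        have := (hc _ hz3).2 (z 0) hz1 hz2
        simpa using this

theorem noiselessN : NoiselessNStmt := fun _ hn n P hP U hU hne => NL_fin hn n P hP U hU hne

end Pool.Agent.Lib.MP_77ea03_lc
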