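import Pool.Agent.Lib.MP_77ea03_lc.Split
import Pool.Agent.Lib.MP_77ea03_lc.NL

/-! Module F: order monotonicity and one-variable monotonicity. -/

set_option autoImplicit false

namespace Pool.Agent.Lib.MP_77ea03_lc

open Set DSort

variable {𝒮 : Str}

/-- `z` is a boundary point of `{y | P y}`. -/
def Bd (P : ℝ → Prop) (z : ℝ) : Prop :=
  ∀ r, 0 < r → (∃ y, z - r < y ∧ y < z + r ∧ P y) ∧ (∃ y, z - r < y ∧ y < z + r ∧ ¬ P y)

theorem not_bd {P : ℝ → Prop} {z : ℝ} (h : ¬ Bd P z) :
    ∃ r, 0 < r ∧ ((∀ y, z - r < y → y < z + r → P y) ∨ (∀ y, z - r < y → y < z + r → ¬ P y)) := by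
  unfold Bd at h
  push Not at h
  obtain ⟨r, hr, h⟩ := h
  refine ⟨r, hr, ?_⟩
  by_cases h1 : ∃ y, z - r < y ∧ y < z + r ∧ P y
  · obtain ⟨y, hy⟩ := h1
    left
    exact h ⟨y, hy⟩
  · right
    push Not at h1
    exact h1

/-- No boundary points in an interval: constant on the interval. -/
theorem const_of_no_bd {P : ℝ → Prop} {p q : ℝ} (h : ∀ z, p < z → z < q → ¬ Bd P z) :
    (∀ y, p < y → y < q → P y) ∨ (∀ y, p < y → y < q → ¬ P y) := by
  by_contra hcon
  push Not at hcon
  obtain ⟨⟨y1, h1, h2, h3⟩, ⟨y2, h4, h5, h6⟩⟩ := hcon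
  let u : Set ℝ := {z | ∃ r, 0 < r ∧ ∀ y, z - r < y → y < z + r → P y}
  let v : Set ℝ := {z | ∃ r, 0 < r ∧ ∀ y, z - r < y → y < z + r → ¬ P y}
  have key : ∀ Q : ℝ → Prop, IsOpen {z | ∃ r, 0 < r ∧ ∀ y, z - r < y → y < z + r → Q y} := by
    intro Q
    rw [Metric.isOpen_iff]
    rintro z ⟨r, hr, h⟩
    refine ⟨r / 2, by linarith, ?_⟩
    intro w hw
    rw [Real.ball_eq_Ioo] at hw
    refine ⟨r / 2, by linarith, fun y hy1 hy2 => h y (by linarith [hw.1]) (by linarith [hw.2])⟩
  have hu : IsOpen u := key P
  have hv : IsOpen v := key (fun y => ¬ P y)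
  have hcov : Ioo p q ⊆ u ∪ v := by
    intro z hz
    obtain ⟨r, hr, h | h⟩ := not_bd (h z hz.1 hz.2)
    · left; exact ⟨r, hr, h⟩
    · right; exact ⟨r, hr, h⟩
  have hy2 : y2 ∈ Ioo p q ∩ u := by
    refine ⟨⟨h4, h5⟩, ?_⟩
    rcases hcov ⟨h4, h5⟩ with h7 | ⟨r, hr, h7⟩
    · exact h7
    · exact absurd h6 (h7 y2 (by linarith) (by linarith))
  have hy1 : y1 ∈ Ioo p q ∩ v := by
    refine ⟨⟨h1, h2⟩, ?_⟩
    rcases hcov ⟨h1, h2⟩ with ⟨r, hr, h7⟩ | h7
    · exact absurd (h7 y1 (by linarith) (by linarith)) h3
    · exact h7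
  obtain ⟨z, _, ⟨r, hr, hz1⟩, ⟨r', hr', hz2⟩⟩ :=
    isPreconnected_Ioo u v hu hv hcov ⟨y2, hy2⟩ ⟨y1, hy1⟩
  exact hz2 z (by linarith) (by linarith) (hz1 z (by linarith) (by linarith))

theorem bd_closed (P : ℝ → Prop) : IsClosed {z | Bd P z} := by
  rw [← isOpen_compl_iff, Metric.isOpen_iff]
  intro z hz
  obtain ⟨r, hr, h⟩ := not_bd hz
  refine ⟨r / 2, by linarith, ?_⟩
  intro w hw hbd
  rw [Real.ball_eq_Ioo] at hw
  obtain ⟨⟨y1, h1, h2, h3⟩, ⟨y2, h4, h5, h6⟩⟩ := hbd (r / 2) (by linarith)
  rcases h with h | h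
  · exact h6 (h y2 (by linarith [hw.1]) (by linarith [hw.2]))
  · exact h y1 (by linarith [hw.1]) (by linarith [hw.2]) h3

theorem bd_no_interval (hn : Noiseless 𝒮) {P : ℝ → Prop} (hP : DFun 𝒮 P) {a b : ℝ}
    (hab : a < b) : ∃ x, a < x ∧ x < b ∧ ¬ Bd P x := by
  obtain ⟨c, d, h1, h2, h3, h4⟩ := hn P hP a b hab
  refine ⟨(c + d) / 2, by linarith, by linarith, ?_⟩
  intro h
  obtain ⟨⟨y1, h5, h6, h7⟩, ⟨y2, h8, h9, h10⟩⟩ := h ((d - c) / 2) (by linarith)
  rcases h4 with h4 | h4
  · exact h10 (h4 y2 (by linarith) (by linarith))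
  · exact h4 y1 (by linarith) (by linarith) h7

/-- A boundary point has isolated boundary points arbitrarily close to it. -/
theorem exists_isolated_bd (hN : NIP 𝒮) (hn : Noiseless 𝒮) {P : ℝ → Prop} (hP : DFun 𝒮 P)
    {c d z : ℝ} (hcz : c < z) (hzd : z < d) (hz : Bd P z) :
    ∃ z', c < z' ∧ z' < d ∧ Bd P z' ∧ ∃ r, 0 < r ∧ ∀ y, Bd P y → |y - z'| < r → y = z' := by
  have hBd : DFun 𝒮 (fun z => Bd P z) := by
    unfold Bd; fun_prop
  obtain ⟨p, hp1, hp2, hp3⟩ := bd_no_interval hn hP hcz
  obtain ⟨q, hq1, hq2, hq3⟩ := bd_no_interval hn hP hzd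
  obtain ⟨z', ⟨hz1, hz2, hz3⟩, r, hr, hiso⟩ := lemmaC 𝒮 hN (fun z => Bd P z ∧ p ≤ z ∧ z ≤ q)
    (by fun_prop) ((bd_closed P).inter isClosed_Icc) ⟨z, hz, hp2.le, hq1.le⟩
    (by
      intro a b hab
      obtain ⟨x, h1, h2, h3⟩ := bd_no_interval hn hP hab
      exact ⟨x, h1, h2, fun h => h3 h.1⟩)
  have hpz : p < z' := lt_of_le_of_ne hz2 (fun h => hp3 (h ▸ hz1))
  have hzq : z' < q := lt_of_le_of_ne hz3 (fun h => hq3 (h ▸ hz1))
  refine ⟨z', by linarith, by linarith, hz1, min r (min (z' - p) (q - z')),
    lt_min hr (lt_min (by linarith) (by linarith)), ?_⟩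
  intro y hy hlt
  rw [lt_min_iff, lt_min_iff] at hlt
  have h1 := (abs_lt.1 hlt.2.1).1
  have h2 := (abs_lt.1 hlt.2.2).2
  exact hiso y ⟨hy, by linarith, by linarith⟩ hlt.1

theorem orderMono : OrderMonoStmt := by
  intro 𝒮 hN hn R hR a b hab hirr htr htot
  -- `D' z`
  let D' : ℝ → Prop := fun z => ∃ x, a < x ∧ x < b ∧ x ≠ z ∧ Bd (fun y => R y x) z ∧
    ∃ r, 0 < r ∧ ∀ y, Bd (fun y => R y x) y → |y - z| < r → y = z
  have hD' : DFun 𝒮 D' := by
    simp only [D', Bd]
    fun_prop
  have hRx : ∀ x, DFun 𝒮 (fun y => R y x) := fun x => by fun_prop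
  have hasym : ∀ x y, a < x → x < b → a < y → y < b → R x y → ¬ R y x := by
    intro x y h1 h2 h3 h4 h5 h6
    exact hirr x h1 h2 (htr x y x h1 h2 h3 h4 h1 h2 h5 h6)
  obtain ⟨c, d, hac, hcd, hdb, hc⟩ := hn D' hD' a b hab
  rcases hc with hc | hc
  · -- every point of `(c, d)` is an isolated boundary point of some `L_x`
    have hconst : ∀ z, c < z → z < d → ∃ k : ℕ × Bool × Bool, ∃ x, a < x ∧ x < b ∧
        (1 : ℝ) / (k.1 + 1) ≤ |x - z| ∧ Bd (fun y => R y x) z ∧
        (∀ y, z - 1 / (k.1 + 1) < y → y < z → (R y x ↔ k.2.1 = true)) ∧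
        (∀ y, z < y → y < z + 1 / (k.1 + 1) → (R y x ↔ k.2.2 = true)) := by
      intro z hz1 hz2
      obtain ⟨x, hx1, hx2, hxz, hbd, r, hr, hiso⟩ := hc z hz1 hz2
      obtain ⟨m, hm⟩ := exists_nat_one_div_lt (show 0 < min r |x - z| from
        lt_min hr (abs_pos.2 (sub_ne_zero.2 hxz)))
      rw [lt_min_iff] at hm
      have hl := const_of_no_bd (P := fun y => R y x) (p := z - 1 / (m + 1)) (q := z) (by
        intro y h1 h2 h3
        have := hiso y h3 (by rw [abs_lt]; constructor <;> linarith [hm.1])
        linarith)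
      have hr' := const_of_no_bd (P := fun y => R y x) (p := z) (q := z + 1 / (m + 1)) (by
        intro y h1 h2 h3
        have := hiso y h3 (by rw [abs_lt]; constructor <;> linarith [hm.1])
        linarith)
      obtain ⟨s1, hs1⟩ : ∃ s : Bool, ∀ y, z - 1 / (m + 1) < y → y < z → (R y x ↔ s = true) := by
        rcases hl with hl | hl
        · exact ⟨true, fun y h1 h2 => by simpa using hl y h1 h2⟩
        · exact ⟨false, fun y h1 h2 => by simpa using hl y h1 h2⟩
      obtain ⟨s2, hs2⟩ : ∃ s : Bool, ∀ y, z < y → y < z + 1 / (m + 1) → (R y x ↔ s = true) := by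
        rcases hr' with hl | hl
        · exact ⟨true, fun y h1 h2 => by simpa using hl y h1 h2⟩
        · exact ⟨false, fun y h1 h2 => by simpa using hl y h1 h2⟩
      exact ⟨(m, s1, s2), x, hx1, hx2, hm.2.le, hbd, hs1, hs2⟩
    obtain ⟨⟨m, s1, s2⟩, c', d', hcc', hcd', hdd', hG⟩ := baire1 hn (fun (k : ℕ × Bool × Bool) z =>
        ∃ x, a < x ∧ x < b ∧
        (1 : ℝ) / (k.1 + 1) ≤ |x - z| ∧ Bd (fun y => R y x) z ∧
        (∀ y, z - 1 / (k.1 + 1) < y → y < z → (R y x ↔ k.2.1 = true)) ∧
        (∀ y, z < y → y < z + 1 / (k.1 + 1) → (R y x ↔ k.2.2 = true)))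
      (by intro k; simp only [Bd]; fun_prop) hcd hconst
    simp only at hG
    have hm : (0 : ℝ) < 1 / (m + 1) := by positivity
    set δ : ℝ := 1 / (m + 1) with hδ
    -- shrink the interval
    set d'' := min d' (c' + δ) with hd''
    have hd1 : d'' ≤ d' := min_le_left _ _
    have hd2 : d'' ≤ c' + δ := min_le_right _ _
    have hcd'' : c' < d'' := lt_min hcd' (by linarith)
    have hne : ∀ z x, c' < z → z < d'' → δ ≤ |x - z| → ∀ y, c' < y → y < d'' → y ≠ x := by
      rintro z x h1 h2 h3 y h4 h5 rfl
      have : |y - z| < δ := by rw [abs_lt]; constructor <;> linarith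
      linarith
    refine ⟨c', d'', by linarith, hcd'', by linarith, ?_⟩
    cases s1 with
    | true =>
      cases s2 with
      | true =>
        exfalso
        -- z out: all `y ≠ z` are below `z`
        have hall : ∀ z y, c' < z → z < d'' → c' < y → y < d'' → y ≠ z → R y z := by
          intro z y h1 h2 h3 h4 h5
          obtain ⟨x, hx1, hx2, hx3, hx4, hx5, hx6⟩ := hG z h1 (by linarith)
          have hin : ∀ w, c' < w → w < d'' → w ≠ z → R w x := by
            intro w hw1 hw2 hw3
            rcases lt_or_gt_of_ne hw3 with h | h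
            · exact (hx5 w (by linarith) h).2 rfl
            · exact (hx6 w h (by linarith)).2 rfl
          have hzx : ¬ R z x := by
            intro hzx
            obtain ⟨_, ⟨w, hw1, hw2, hw3⟩⟩ := hx4 (min δ (min (z - c') (d'' - z)))
              (lt_min hm (lt_min (by linarith) (by linarith)))
            apply hw3
            by_cases hwz : w = z
            · rw [hwz]; exact hzx
            · have e1 := min_le_right δ (min (z - c') (d'' - z))
              have e2 := min_le_left (z - c') (d'' - z)
              have e3 := min_le_right (z - c') (d'' - z)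
              exact hin w (by linarith) (by linarith) hwz
          have hxz : R x z := by
            rcases htot x z hx1 hx2 (by linarith) (by linarith)
              (hne z x h1 h2 hx3 z h1 h2).symm with h | h
            · exact h
            · exact absurd h hzx
          exact htr y x z (by linarith) (by linarith) hx1 hx2 (by linarith) (by linarith)
            (hin y h3 h4 h5) hxz
        have e1 := hall (c' + (d'' - c') / 3) (c' + (d'' - c') / 2) (by linarith) (by linarith)
          (by linarith) (by linarith) (by intro h; linarith)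
        have e2 := hall (c' + (d'' - c') / 2) (c' + (d'' - c') / 3) (by linarith) (by linarith)
          (by linarith) (by linarith) (by intro h; linarith)
        exact hasym _ _ (by linarith) (by linarith) (by linarith) (by linarith) e1 e2
      | false =>
        left
        intro y y' h1 h2 h3
        obtain ⟨x, hx1, hx2, hx3, hx4, hx5, hx6⟩ := hG ((y + y') / 2) (by linarith) (by linarith)
        have e1 : R y x := (hx5 y (by linarith) (by linarith)).2 rfl
        have e2 : ¬ R y' x := by
          rw [hx6 y' (by linarith) (by linarith)]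
          simp
        have e3 : R x y' := by
          rcases htot x y' hx1 hx2 (by linarith) (by linarith)
            (hne ((y + y') / 2) x (by linarith) (by linarith) hx3 y' (by linarith)
              (by linarith)).symm with h | h
          · exact h
          · exact absurd h e2
        exact htr y x y' (by linarith) (by linarith) hx1 hx2 (by linarith) (by linarith) e1 e3
    | false =>
      cases s2 with
      | true =>
        right
        intro y y' h1 h2 h3
        obtain ⟨x, hx1, hx2, hx3, hx4, hx5, hx6⟩ := hG ((y + y') / 2) (by linarith) (by linarith)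
        have e1 : R y' x := (hx6 y' (by linarith) (by linarith)).2 rfl
        have e2 : ¬ R y x := by
          rw [hx5 y (by linarith) (by linarith)]
          simp
        have e3 : R x y := by
          rcases htot x y hx1 hx2 (by linarith) (by linarith)
            (hne ((y + y') / 2) x (by linarith) (by linarith) hx3 y (by linarith)
              (by linarith)).symm with h | h
          · exact h
          · exact absurd h e2
        exact htr y' x y (by linarith) (by linarith) hx1 hx2 (by linarith) (by linarith) e1 e3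
      | false =>
        exfalso
        have hall : ∀ z y, c' < z → z < d'' → c' < y → y < d'' → y ≠ z → R z y := by
          intro z y h1 h2 h3 h4 h5
          obtain ⟨x, hx1, hx2, hx3, hx4, hx5, hx6⟩ := hG z h1 (by linarith)
          have hin : ∀ w, c' < w → w < d'' → w ≠ z → ¬ R w x := by
            intro w hw1 hw2 hw3
            rcases lt_or_gt_of_ne hw3 with h | h
            · rw [hx5 w (by linarith) h]; simp
            · rw [hx6 w h (by linarith)]; simp
          have hzx : R z x := by
            by_contra hzx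
            obtain ⟨⟨w, hw1, hw2, hw3⟩, _⟩ := hx4 (min δ (min (z - c') (d'' - z)))
              (lt_min hm (lt_min (by linarith) (by linarith)))
            by_cases hwz : w = z
            · rw [hwz] at hw3; exact hzx hw3
            · have e1 := min_le_right δ (min (z - c') (d'' - z))
              have e2 := min_le_left (z - c') (d'' - z)
              have e3 := min_le_right (z - c') (d'' - z)
              exact hin w (by linarith) (by linarith) hwz hw3
          have hxy : R x y := by
            rcases htot x y hx1 hx2 (by linarith) (by linarith)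
              (hne z x h1 h2 hx3 y h3 h4).symm with h | h
            · exact h
            · exact absurd h (hin y h3 h4 h5)
          exact htr z x y (by linarith) (by linarith) hx1 hx2 (by linarith) (by linarith)
            hzx hxy
        have e1 := hall (c' + (d'' - c') / 3) (c' + (d'' - c') / 2) (by linarith) (by linarith)
          (by linarith) (by linarith) (by intro h; linarith)
        have e2 := hall (c' + (d'' - c') / 2) (c' + (d'' - c') / 3) (by linarith) (by linarith)
          (by linarith) (by linarith) (by intro h; linarith)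
        exact hasym _ _ (by linarith) (by linarith) (by linarith) (by linarith) e1 e2
  · -- no isolated boundary points
    have hnb : ∀ x z, c < x → x < d → c < z → z < d → z ≠ x → ¬ Bd (fun y => R y x) z := by
      intro x z hx1 hx2 hz1 hz2 hzx hbd
      rcases lt_or_gt_of_ne hzx with h | h
      · obtain ⟨z', h1, h2, h3, h4⟩ := exists_isolated_bd hN hn (hRx x) hz1 h hbd
        exact hc z' h1 (by linarith) ⟨x, by linarith, by linarith, by
          intro h; linarith, h3, h4⟩
      · obtain ⟨z', h1, h2, h3, h4⟩ := exists_isolated_bd hN hn (hRx x) h hz2 hbd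
        exact hc z' (by linarith) h2 ⟨x, by linarith, by linarith, by
          intro h; linarith, h3, h4⟩
    have hleft : ∀ x, c < x → x < d → (∀ y, c < y → y < x → R y x) ∨ (∀ y, c < y → y < x → ¬ R y x) :=
      fun x h1 h2 => const_of_no_bd (fun z h3 h4 => hnb x z h1 h2 h3 (by linarith) h4.ne)
    have hright : ∀ x, c < x → x < d → (∀ y, x < y → y < d → R y x) ∨ (∀ y, x < y → y < d → ¬ R y x) :=
      fun x h1 h2 => const_of_no_bd (fun z h3 h4 => hnb x z h1 h2 (by linarith) h4 h3.ne')
    refine ⟨c, d, hac, hcd, hdb, ?_⟩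
    by_contra hcon
    push Not at hcon
    obtain ⟨⟨x, y, h1, h2, h3, h4⟩, ⟨x', y', h1', h2', h3', h4'⟩⟩ := hcon
    -- `R y x` with `x < y`; `R x' y'` with `x' < y'`
    have hle : ∀ w, c < w → w < y → ¬ R w y := by
      rcases hleft y (by linarith) h3 with h | h
      · exact absurd (h x h1 h2) h4
      · exact h
    have hle' : ∀ w, c < w → w < y' → R w y' := by
      rcases hleft y' (by linarith) h3' with h | h
      · exact h
      · exfalso
        rcases htot x' y' (by linarith) (by linarith) (by linarith) (by linarith) h2'.ne with h5 | h5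
        · exact h x' h1' h2' h5
        · exact h4' h5
    set w := (c + min y y') / 2 with hw
    have hm1 : c < min y y' := lt_min (by linarith) (by linarith)
    have hm2 := min_le_left y y'
    have hm3 := min_le_right y y'
    have hwc : c < w := by rw [hw]; linarith
    have hwy : w < y := by rw [hw]; linarith
    have hwy' : w < y' := by rw [hw]; linarith
    have e1 : ¬ R y' w :=
      hasym w y' (by linarith) (by linarith) (by linarith) (by linarith) (hle' w hwc hwy')
    have e2 : R y w := by
      rcases htot w y (by linarith) (by linarith) (by linarith) (by linarith) hwy.ne with h | h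
      · exact absurd h (hle w hwc hwy)
      · exact h
    rcases hright w hwc (by linarith) with h | h
    · exact e1 (h y' hwy' h3')
    · exact h y hwy h3 e2

/-! ### One-variable monotonicity -/

theorem exists_cont (hn : Noiseless 𝒮) {f : ℝ → ℝ} (hf : DFun 𝒮 f) {c d : ℝ} (hcd : c < d)
    (hm : {x ∈ Ioo c d | ¬ ContinuousWithinAt f (Ioo c d) x}.Countable) :
    ∃ c' d', c ≤ c' ∧ c' < d' ∧ d' ≤ d ∧ ContinuousOn f (Ioo c' d') := by
  obtain ⟨c', d', h1, h2, h3, h4⟩ := hn (fun x => ∀ ε, 0 < ε → ∃ δ, 0 < δ ∧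
    ∀ y, |y - x| < δ → |f y - f x| < ε) (by fun_prop) c d hcd
  have hca : ∀ x, (∀ ε, 0 < ε → ∃ δ, 0 < δ ∧ ∀ y, |y - x| < δ → |f y - f x| < ε) ↔
      ContinuousAt f x := by
    intro x
    rw [Metric.continuousAt_iff]
    constructor
    · intro h ε hε
      obtain ⟨δ, hδ, h⟩ := h ε hε
      exact ⟨δ, hδ, fun y hy => h y hy⟩
    · intro h ε hε
      obtain ⟨δ, hδ, h⟩ := h ε hε
      exact ⟨δ, hδ, fun y hy => h hy⟩
  rcases h4 with h4 | h4
  · refine ⟨c', d', h1, h2, h3, ?_⟩
    intro x hx
    exact ((hca x).1 (h4 x hx.1 hx.2)).continuousWithinAt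
  · exfalso
    have hsub : Ioo c' d' ⊆ {x ∈ Ioo c d | ¬ ContinuousWithinAt f (Ioo c d) x} := by
      intro x hx
      have hx' : x ∈ Ioo c d := ⟨by linarith [hx.1], by linarith [hx.2]⟩
      refine ⟨hx', fun hcon => ?_⟩
      apply h4 x hx.1 hx.2
      rw [hca]
      exact hcon.continuousAt (isOpen_Ioo.mem_nhds hx')
    have h5 := hm.mono hsub
    have := Cardinal.Real.Ioo_countable_iff.1 h5
    linarith

theorem monoStmt : MonoStmt := by
  intro 𝒮 hN hn f hf a b hab
  obtain ⟨c, d, h1, h2, h3, h4⟩ := orderMono 𝒮 hN hn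
    (fun x y => f x < f y ∨ (f x = f y ∧ x < y)) (by fun_prop) a b hab
    (by intro x _ _ h; rcases h with h | h <;> linarith [h])
    (by
      intro x y z _ _ _ _ _ _ hxy hyz
      rcases hxy with h | ⟨h, h'⟩ <;> rcases hyz with k | ⟨k, k'⟩
      · left; linarith
      · left; linarith
      · left; linarith
      · right; exact ⟨by linarith, by linarith⟩)
    (by
      intro x y _ _ _ _ hne
      rcases lt_trichotomy (f x) (f y) with h | h | h
      · left; left; exact h
      · rcases lt_or_gt_of_ne hne with h' | h'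
        · left; right; exact ⟨h, h'⟩
        · right; right; exact ⟨h.symm, h'⟩
      · right; left; exact h)
  rcases h4 with h4 | h4
  · have hmono : MonotoneOn f (Ioo c d) := by
      intro x hx y hy hxy
      rcases eq_or_lt_of_le hxy with h | h
      · rw [h]
      · rcases h4 x y hx.1 h hy.2 with h | h
        · exact h.le
        · exact h.1.le
    by_cases hc : ∃ x y, c < x ∧ x < y ∧ y < d ∧ f x = f y
    · obtain ⟨x, y, hx, hxy, hy, he⟩ := hc
      have key : ∀ z, x < z → z < y → f z = f x := by
        intro z hz1 hz2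
        apply le_antisymm
        · rw [he]
          exact hmono ⟨by linarith, by linarith⟩ ⟨by linarith, by linarith⟩ hz2.le
        · exact hmono ⟨by linarith, by linarith⟩ ⟨by linarith, by linarith⟩ hz1.le
      refine ⟨x, y, by linarith, hxy, by linarith, Or.inl ?_⟩
      intro z w hz1 hz2 hw1 hw2
      rw [key z hz1 hz2, key w hw1 hw2]
    · push Not at hc
      obtain ⟨c', d', h5, h6, h7, h8⟩ := exists_cont hn hf h2
        hmono.countable_not_continuousWithinAt
      refine ⟨c', d', by linarith, h6, by linarith, Or.inr (Or.inl ⟨?_, h8⟩)⟩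
      intro x y hx hxy hy
      exact lt_of_le_of_ne (hmono ⟨by linarith, by linarith⟩ ⟨by linarith, by linarith⟩ hxy.le)
        (hc x y (by linarith) hxy (by linarith))
  · have hanti : ∀ x y, c < x → x < y → y < d → f y < f x := by
      intro x y hx hxy hy
      rcases h4 x y hx hxy hy with h | h
      · exact h
      · linarith [h.2]
    have hmono : AntitoneOn f (Ioo c d) := by
      intro x hx y hy hxy
      rcases eq_or_lt_of_le hxy with h | h
      · rw [h]
      · exact (hanti x y hx.1 h hy.2).le
    obtain ⟨c', d', h5, h6, h7, h8⟩ := exists_cont hn hf h2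
      hmono.countable_not_continuousWithinAt
    refine ⟨c', d', by linarith, h6, by linarith, Or.inr (Or.inr ⟨?_, h8⟩)⟩
    intro x y hx hxy hy
    exact hanti x y (by linarith) hxy (by linarith)

end Pool.Agent.Lib.MP_77ea03_lc
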