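import Pool.Agent.Lib.MP_77ea03_lc.Basic

/-!
Precise statements of the modules of the proof (as `Prop`s), so that they can be proved
independently of each other. `fun_prop` proves all goals `DFun 𝒮 (fun p => ...)`.
-/

set_option autoImplicit false

namespace Pool.Agent.Lib.MP_77ea03_lc

open Set

/-- All patterns occur: `N` points shattered. -/
def Shatters {α β : Type*} (W : α → β → Prop) (N : ℕ) : Prop :=
  ∃ a : Fin N → α, ∀ S : Set (Fin N), ∃ b, ∀ i, (W (a i) b ↔ i ∈ S)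

/-- MODULE A1 (splitting principle). -/
def SplittingStmt : Prop :=
  ∀ {α β : Type} (W : α → β → Prop) (L : Set (Set β)), (∀ O ∈ L, O.Nonempty) → L.Nonempty →
    (∀ F : Finset (Set β), (∀ O ∈ F, O ∈ L) → ∃ a, ∀ O ∈ F,
      (∃ O1 ∈ L, O1 ⊆ O ∧ ∀ x ∈ O1, W a x) ∧ (∃ O0 ∈ L, O0 ⊆ O ∧ ∀ x ∈ O0, ¬ W a x)) →
    ∀ N, Shatters W N

/-- MODULE A2 (Lemma C). -/
def LemmaCStmt : Prop :=
  ∀ (𝒮 : Str), NIP 𝒮 → ∀ (Z : ℝ → Prop), DFun 𝒮 Z → IsClosed {x | Z x} → (∃ x, Z x) →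
    (∀ a b : ℝ, a < b → ∃ x, a < x ∧ x < b ∧ ¬ Z x) →
    ∃ z, Z z ∧ ∃ r > 0, ∀ x, Z x → |x - z| < r → x = z

/-- MODULE A3 (Lemma N'). -/
def LemmaNStmt : Prop :=
  ∀ (𝒮 : Str), NIP 𝒮 → ∀ {α : Type} [DSort α] [DRan 𝒮 α] (Z : α → ℝ → Prop),
    DFun 𝒮 (fun p : α × ℝ => Z p.1 p.2) →
    (∀ a, ∀ p q : ℝ, p < q → ∃ c d, p ≤ c ∧ c < d ∧ d ≤ q ∧ ∀ x, c < x → x < d → ¬ Z a x) →
    ∀ p q : ℝ, p < q →
    (∀ F : Finset (ℝ × ℝ), (∀ I ∈ F, p ≤ I.1 ∧ I.1 < I.2 ∧ I.2 ≤ q) →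
      ∃ a, ∀ I ∈ F, ∃ x, I.1 < x ∧ x < I.2 ∧ Z a x) → False

/-- MODULE B (extensional definable choice): a choice function for the sort `β`. -/
def HasChoice (𝒮 : Str) (β : Type) [DSort β] : Prop :=
  ∃ ch : (β → Prop) → β, (∀ P, DFun 𝒮 P → (∃ x, P x) → P (ch P)) ∧
    ∀ {α : Type} [DSort α] [DRan 𝒮 α] (P : α → β → Prop), DFun 𝒮 (fun p : α × β => P p.1 p.2) →
      DFun 𝒮 (fun a => ch (P a))

def ChoiceStmt : Prop :=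
  ∀ (𝒮 : Str), NIP 𝒮 → Noiseless 𝒮 → ∀ (β : Type) [DSort β] [DRan 𝒮 β] [Nonempty β],
    HasChoice 𝒮 β

/-- MODULE C1 (Hales-Jewett). `lt` need not be an order here. -/
def HJStmt : Prop :=
  ∀ (K : Type) [Field K] [Infinite K] (lt : K → K → Prop) (N : ℕ),
    ¬ Shatters (fun (y : K × K) (x : K) => lt (x + y.1) (x + y.2)) N →
    ∀ F : Finset K, ∃ b d : K, d ≠ 0 ∧ ∀ t t' s : K, t ∈ F → t' ∈ F → t + s ∈ F → t' + s ∈ F →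
      (lt (b + t * d) (b + t' * d) ↔ lt (b + (t + s) * d) (b + (t' + s) * d))

/-- MODULE C2 (limit order). -/
def LimitOrderStmt : Prop :=
  ∀ (K : Type) [Field K] [Infinite K] (lt : K → K → Prop),
    (∀ x, ¬ lt x x) → (∀ x y z, lt x y → lt y z → lt x z) → (∀ x y, x ≠ y → lt x y ∨ lt y x) →
    (∃ N, ¬ Shatters (fun (y : K × K) (x : K) => lt (x + y.1) (x + y.2)) N) →
    ∃ lt1 : K → K → Prop,
      (∀ x, ¬ lt1 x x) ∧ (∀ x y z, lt1 x y → lt1 y z → lt1 x z) ∧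
      (∀ x y, x ≠ y → lt1 x y ∨ lt1 y x) ∧ (∀ x y z, lt1 x y → lt1 (x + z) (y + z)) ∧
      (∀ F : Finset (K × K), ∃ b d : K, ∀ p ∈ F,
        (lt1 p.1 p.2 ↔ lt (b + p.1 * d) (b + p.2 * d)))

/-- Externally definable sets. -/
def ExtDef (𝒮 : Str) {ι : Type} (X : Set (ι → ℝ)) : Prop :=
  ∃ (κ : Type) (_ : Finite κ) (R : Set (ι ⊕ κ → ℝ)), 𝒮.Def R ∧
    ∀ F : Finset (ι → ℝ), ∃ c : κ → ℝ, ∀ x ∈ F, (x ∈ X ↔ Sum.elim x c ∈ R)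

/-- MODULE D (Shelah expansion). -/
def ShelahStmt : Prop :=
  ∀ (𝒮 : Str), NIP 𝒮 → Noiseless 𝒮 → ∃ 𝒯 : Str,
    (∀ {ι : Type} [Finite ι] (X : Set (ι → ℝ)), ExtDef 𝒮 X → 𝒯.Def X) ∧ NIP 𝒯 ∧ Noiseless 𝒯

/-- MODULE E (noiseless in all dimensions). -/
def NoiselessNStmt : Prop :=
  ∀ (𝒮 : Str), Noiseless 𝒮 → ∀ (n : ℕ) (P : (Fin n → ℝ) → Prop), DFun 𝒮 P →
    ∀ U : Set (Fin n → ℝ), IsOpen U → U.Nonempty → ∃ V ⊆ U, IsOpen V ∧ V.Nonempty ∧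
      ((∀ x ∈ V, P x) ∨ (∀ x ∈ V, ¬ P x))

/-- MODULE F1 (order monotonicity). -/
def OrderMonoStmt : Prop :=
  ∀ (𝒮 : Str), NIP 𝒮 → Noiseless 𝒮 → ∀ (R : ℝ → ℝ → Prop),
    DFun 𝒮 (fun p : ℝ × ℝ => R p.1 p.2) → ∀ a b : ℝ, a < b →
    (∀ x, a < x → x < b → ¬ R x x) →
    (∀ x y z, a < x → x < b → a < y → y < b → a < z → z < b → R x y → R y z → R x z) →
    (∀ x y, a < x → x < b → a < y → y < b → x ≠ y → R x y ∨ R y x) →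
    ∃ c d, a ≤ c ∧ c < d ∧ d ≤ b ∧
      ((∀ x y, c < x → x < y → y < d → R x y) ∨ (∀ x y, c < x → x < y → y < d → R y x))

/-- MODULE F2 (one-variable monotonicity). -/
def MonoStmt : Prop :=
  ∀ (𝒮 : Str), NIP 𝒮 → Noiseless 𝒮 → ∀ (f : ℝ → ℝ), DFun 𝒮 f → ∀ a b : ℝ, a < b →
    ∃ c d, a ≤ c ∧ c < d ∧ d ≤ b ∧
      ((∀ x y, c < x → x < d → c < y → y < d → f x = f y) ∨
       ((∀ x y, c < x → x < y → y < d → f x < f y) ∧ ContinuousOn f (Ioo c d)) ∨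
       ((∀ x y, c < x → x < y → y < d → f y < f x) ∧ ContinuousOn f (Ioo c d)))

/-- MODULE G (orders on thin sets): a definable relation on a sort `β` that is a dense linear order
on a definable set `X` with at least two points; then some coordinate of `X` is dense in an
interval. -/
def ThinStmt : Prop :=
  ∀ (𝒮 : Str), NIP 𝒮 → Noiseless 𝒮 → ∀ (β : Type) [DSort β] [DRan 𝒮 β] (X : β → Prop)
    (R : β → β → Prop), DFun 𝒮 X → DFun 𝒮 (fun p : β × β => R p.1 p.2) →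
    (∀ x, X x → ¬ R x x) → (∀ x y z, X x → X y → X z → R x y → R y z → R x z) →
    (∀ x y, X x → X y → x ≠ y → R x y ∨ R y x) →
    (∀ x y, X x → X y → R x y → ∃ z, X z ∧ R x z ∧ R z y) →
    (∃ x y, X x ∧ X y ∧ x ≠ y) →
    ∃ (i : DSort.ix β) (a b : ℝ), a < b ∧ ∀ t, a < t → t < b → ∃ x, X x ∧ DSort.emb x i = t

/-- MODULE H (no injection lowers the dimension). -/
def ClaimDStmt : Prop :=
  ∀ (𝒮 : Str), NIP 𝒮 → Noiseless 𝒮 → ∀ (n : ℕ) (U : Set (Fin (n + 1) → ℝ)), IsOpen U →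
    U.Nonempty → ∀ f : (Fin (n + 1) → ℝ) → (Fin n → ℝ), DFun 𝒮 f → ¬ InjOn f U

/-- MODULE I (a copy of a real interval in `K`). -/
def CurveStmt : Prop :=
  ∀ (𝒮 : Str), NIP 𝒮 → Noiseless 𝒮 → ∀ (K : Type) [AddCommGroup K] [LinearOrder K]
    [IsOrderedAddMonoid K] [DSort K] [DRan 𝒮 K],
    DFun 𝒮 (fun p : K × K => p.1 + p.2) → DFun 𝒮 (fun p : K × K => p.1 < p.2) →
    (∃ x : K, x ≠ 0) → (∀ x : K, ∃ y, y + y = x) →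
    ∃ (p q : ℝ) (ι : ℝ → K), p < q ∧ DFun 𝒮 ι ∧ StrictMonoOn ι (Icc p q) ∧
      (∀ w, ι p ≤ w → w ≤ ι q → ∃ x ∈ Icc p q, ι x = w) ∧
      (∀ k > 0, ∃ n : ℕ, ι q - ι p ≤ n • k)

/-- MODULE J (final algebra). -/
def FinalStmt : Prop :=
  ∀ (𝒮 : Str), NIP 𝒮 → Noiseless 𝒮 → ∀ (K : Type) [Field K] [LinearOrder K]
    [IsOrderedAddMonoid K] [DSort K] [DRan 𝒮 K],
    DFun 𝒮 (fun p : K × K => p.1 + p.2) → DFun 𝒮 (fun p : K × K => p.1 * p.2) →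
    DFun 𝒮 (fun p : K × K => p.1 < p.2) →
    Nonempty (K ≃+* ℝ) ∨ Nonempty (K ≃+* ℂ)

end Pool.Agent.Lib.MP_77ea03_lc
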