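import Pool.Agent.Lib.MP_77ea03_lc.Spec

/-! Module A: splitting principle, Lemma C, Lemma N'. -/

set_option autoImplicit false

namespace Pool.Agent.Lib.MP_77ea03_lc

open Set

theorem splitting {α β : Type*} (W : α → β → Prop) (L : Set (Set β)) (hne : ∀ O ∈ L, O.Nonempty)
    (h0 : L.Nonempty)
    (hs : ∀ F : Finset (Set β), (∀ O ∈ F, O ∈ L) → ∃ a, ∀ O ∈ F,
      (∃ O1 ∈ L, O1 ⊆ O ∧ ∀ x ∈ O1, W a x) ∧ (∃ O0 ∈ L, O0 ⊆ O ∧ ∀ x ∈ O0, ¬ W a x)) (N : ℕ) :
    Shatters W N := by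
  classical
  have key : ∀ N : ℕ, ∃ (a : Fin N → α) (O : (Fin N → Bool) → Set β), (∀ s, O s ∈ L) ∧
      ∀ s, ∀ x ∈ O s, ∀ i, (W (a i) x ↔ s i = true) := by
    intro N
    induction N with
    | zero =>
      obtain ⟨O, hO⟩ := h0
      exact ⟨Fin.elim0, fun _ => O, fun _ => hO, fun s x _ i => i.elim0⟩
    | succ N ih =>
      obtain ⟨a, O, hO, hW⟩ := ih
      obtain ⟨b, hb⟩ := hs (Finset.univ.image O) (by
        intro P hP
        rw [Finset.mem_image] at hP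
        obtain ⟨s, _, rfl⟩ := hP
        exact hO s)
      have hb' : ∀ s, (∃ O1 ∈ L, O1 ⊆ O s ∧ ∀ x ∈ O1, W b x) ∧
          (∃ O0 ∈ L, O0 ⊆ O s ∧ ∀ x ∈ O0, ¬ W b x) := fun s =>
        hb (O s) (Finset.mem_image_of_mem _ (Finset.mem_univ _))
      choose h1 h2 using hb'
      choose O1 hO1 hO1s hO1W using h1
      choose O0 hO0 hO0s hO0W using h2
      refine ⟨Fin.snoc (α := fun _ => α) a b,
        fun s => if s (Fin.last N) = true then O1 (Fin.init s) else O0 (Fin.init s), ?_, ?_⟩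
      · intro s
        by_cases h : s (Fin.last N) = true
        · simp only [h, if_true]; exact hO1 _
        · simp only [h]; exact hO0 _
      · intro s x hx i
        have hx' : x ∈ O (Fin.init s) := by
          by_cases h : s (Fin.last N) = true
          · simp only [h, if_true] at hx; exact hO1s _ hx
          · simp only [h] at hx; exact hO0s _ hx
        induction i using Fin.lastCases with
        | last =>
          rw [Fin.snoc_last]
          by_cases h : s (Fin.last N) = true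
          · simp only [h, if_true] at hx
            simp only [h, iff_true]; exact hO1W _ x hx
          · simp only [h] at hx
            simp only [h, Bool.false_eq_true, iff_false]; exact hO0W _ x hx
        | cast j =>
          rw [Fin.snoc_castSucc]
          exact hW (Fin.init s) x hx' j
  obtain ⟨a, O, hO, hW⟩ := key N
  refine ⟨a, fun S => ?_⟩
  obtain ⟨x, hx⟩ := hne _ (hO (fun i => decide (i ∈ S)))
  refine ⟨x, fun i => ?_⟩
  rw [hW _ x hx i]
  simp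

theorem splittingStmt : SplittingStmt := fun W L h1 h2 h3 N => splitting W L h1 h2 h3 N

/-- Contradiction with NIP. -/
theorem NIP.false_of_splitting {𝒮 : Str} (hN : NIP 𝒮) {α β : Type} [DSort α] [DSort β]
    [DRan 𝒮 α] [DRan 𝒮 β] {W : α → β → Prop} (hW : DFun 𝒮 (fun p : α × β => W p.1 p.2))
    (L : Set (Set β)) (hne : ∀ O ∈ L, O.Nonempty) (h0 : L.Nonempty)
    (hs : ∀ F : Finset (Set β), (∀ O ∈ F, O ∈ L) → ∃ a, ∀ O ∈ F,
      (∃ O1 ∈ L, O1 ⊆ O ∧ ∀ x ∈ O1, W a x) ∧ (∃ O0 ∈ L, O0 ⊆ O ∧ ∀ x ∈ O0, ¬ W a x)) :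
    False := by
  obtain ⟨N, hN'⟩ := hN.sort hW
  obtain ⟨a, ha⟩ := splitting W L hne h0 hs N
  exact hN' a ha

/-! ### Lemma N' -/

theorem lemmaN : LemmaNStmt := by
  intro 𝒮 hN α _ _ Z hZ hnd p q hpq hF
  -- `W a x` : the gap `(l, r)` of `Z a` around `x` has `x` in its left half
  let W : α → ℝ → Prop := fun a x => ∃ l r : ℝ, l < x ∧ x < r ∧ (∀ y, l < y → y < r → ¬ Z a y) ∧
    (∀ l', l' < l → ∃ y, l' < y ∧ y < r ∧ Z a y) ∧ (∀ r', r < r' → ∃ y, l < y ∧ y < r' ∧ Z a y) ∧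
    x + x < l + r
  have hW : DFun 𝒮 (fun p : α × ℝ => W p.1 p.2) := by
    simp only [W]
    fun_prop
  let L : Set (Set ℝ) := {O | ∃ c d : ℝ, p ≤ c ∧ c < d ∧ d ≤ q ∧ O = Ioo c d}
  refine hN.false_of_splitting hW L ?_ ⟨Ioo p q, p, q, le_rfl, hpq, le_rfl, rfl⟩ ?_
  · rintro O ⟨c, d, _, hcd, _, rfl⟩
    exact nonempty_Ioo.2 hcd
  · intro F hFL
    classical
    have hFL' : ∀ O : Set ℝ, ∃ c d : ℝ, O ∈ F → (p ≤ c ∧ c < d ∧ d ≤ q ∧ O = Ioo c d) := by
      intro O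
      by_cases hO : O ∈ F
      · obtain ⟨c, d, h⟩ := hFL O hO
        exact ⟨c, d, fun _ => h⟩
      · exact ⟨0, 0, fun h => absurd h hO⟩
    choose c d hcd using hFL'
    obtain ⟨a, ha⟩ := hF (F.image (fun O => (c O, (c O + d O) / 2)) ∪
      F.image (fun O => ((c O + d O) / 2, d O))) (by
        intro I hI
        rw [Finset.mem_union, Finset.mem_image, Finset.mem_image] at hI
        rcases hI with ⟨O, hO, rfl⟩ | ⟨O, hO, rfl⟩
        · obtain ⟨h1, h2, h3, _⟩ := hcd O hO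
          refine ⟨h1, ?_, ?_⟩ <;> simp only <;> linarith
        · obtain ⟨h1, h2, h3, _⟩ := hcd O hO
          refine ⟨?_, ?_, ?_⟩ <;> simp only <;> linarith)
    refine ⟨a, fun O hO => ?_⟩
    obtain ⟨h1, h2, h3, hOe⟩ := hcd O hO
    obtain ⟨z, hz1, hz2, hZz⟩ := ha (c O, (c O + d O) / 2) (by
      rw [Finset.mem_union]; left; exact Finset.mem_image_of_mem _ hO)
    obtain ⟨z', hz1', hz2', hZz'⟩ := ha ((c O + d O) / 2, d O) (by
      rw [Finset.mem_union]; right; exact Finset.mem_image_of_mem _ hO)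
    simp only at hz1 hz2 hz1' hz2'
    -- a point in a gap
    obtain ⟨e, f, he, hef, hf, hgap⟩ := hnd a z z' (by linarith)
    set x := (e + f) / 2 with hx
    have hex : e < x := by rw [hx]; linarith
    have hxf : x < f := by rw [hx]; linarith
    -- left end of the gap
    set l := sSup {y | Z a y ∧ y < x} with hl
    set r := sInf {y | Z a y ∧ x < y} with hr
    have hzx : z < x := by linarith
    have hxz' : x < z' := by linarith
    have hbl : BddAbove {y | Z a y ∧ y < x} := ⟨x, fun y hy => hy.2.le⟩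
    have hbr : BddBelow {y | Z a y ∧ x < y} := ⟨x, fun y hy => hy.2.le⟩
    have hle : l ≤ e := by
      refine csSup_le (⟨z, hZz, hzx⟩ : {y | Z a y ∧ y < x}.Nonempty) ?_
      rintro y ⟨hy1, hy2⟩
      by_contra hcon
      exact hgap y (not_le.1 hcon) (by linarith) hy1
    have hre : f ≤ r := by
      refine le_csInf (⟨z', hZz', hxz'⟩ : {y | Z a y ∧ x < y}.Nonempty) ?_
      rintro y ⟨hy1, hy2⟩
      by_contra hcon
      exact hgap y (by linarith) (not_le.1 hcon) hy1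
    have hzl : z ≤ l := le_csSup hbl ⟨hZz, hzx⟩
    have hrz : r ≤ z' := csInf_le hbr ⟨hZz', hxz'⟩
    have hnZ : ∀ y, l < y → y < r → ¬ Z a y := by
      intro y hy1 hy2 hZy
      rcases lt_trichotomy y x with h | h | h
      · exact absurd (le_csSup hbl ⟨hZy, h⟩) (not_le.2 hy1)
      · exact hgap y (by linarith) (by linarith) hZy
      · exact absurd (csInf_le hbr ⟨hZy, h⟩) (not_le.2 hy2)
    have hl' : ∀ l', l' < l → ∃ y, l' < y ∧ y ≤ l ∧ Z a y := by
      intro l' hl'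
      obtain ⟨y, hy, hy2⟩ := exists_lt_of_lt_csSup (⟨z, hZz, hzx⟩ : {y | Z a y ∧ y < x}.Nonempty) hl'
      exact ⟨y, hy2, le_csSup hbl hy, hy.1⟩
    have hr' : ∀ r', r < r' → ∃ y, r ≤ y ∧ y < r' ∧ Z a y := by
      intro r' hr'
      obtain ⟨y, hy, hy2⟩ := exists_lt_of_csInf_lt
        (⟨z', hZz', hxz'⟩ : {y | Z a y ∧ x < y}.Nonempty) hr'
      exact ⟨y, csInf_le hbr hy, hy2, hy.1⟩
    have hlr : l < r := by linarith
    -- uniqueness of the gap
    have huniq : ∀ y, l < y → y < r → (W a y ↔ y + y < l + r) := by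
      intro y hy1 hy2
      constructor
      · rintro ⟨l1, r1, h1, h2, h3, h4, h5, h6⟩
        have e1 : l1 = l := by
          apply le_antisymm
          · by_contra hcon
            obtain ⟨w, hw1, hw2, hw3⟩ := h4 l (not_le.1 hcon)
            by_cases hwr : w < r
            · exact hnZ w hw1 hwr hw3
            · by_cases hw1' : l1 < w
              · exact h3 w hw1' hw2 hw3
              · linarith
          · by_contra hcon
            obtain ⟨w, hw1, hw2, hw3⟩ := hl' l1 (not_le.1 hcon)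
            exact h3 w hw1 (by linarith) hw3
        have e2 : r1 = r := by
          apply le_antisymm
          · by_contra hcon
            obtain ⟨w, hw1, hw2, hw3⟩ := hr' r1 (not_le.1 hcon)
            exact h3 w (by linarith) hw2 hw3
          · by_contra hcon
            obtain ⟨w, hw1, hw2, hw3⟩ := h5 r (not_le.1 hcon)
            by_cases hwr : l < w
            · exact hnZ w hwr hw2 hw3
            · linarith
        rw [e1, e2] at h6
        exact h6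
      · intro h
        refine ⟨l, r, hy1, hy2, hnZ, ?_, ?_, h⟩
        · intro l' hl''
          obtain ⟨w, hw1, hw2, hw3⟩ := hl' l' hl''
          exact ⟨w, hw1, by linarith, hw3⟩
        · intro r' hr''
          obtain ⟨w, hw1, hw2, hw3⟩ := hr' r' hr''
          exact ⟨w, by linarith, hw2, hw3⟩
    refine ⟨⟨Ioo l ((l + r) / 2), ⟨l, (l + r) / 2, by linarith, by linarith, by linarith, rfl⟩,
      ?_, ?_⟩, ⟨Ioo ((l + r) / 2) r, ⟨(l + r) / 2, r, by linarith, by linarith, by linarith, rfl⟩,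
      ?_, ?_⟩⟩
    · rw [hOe]
      intro y hy
      exact ⟨by linarith [hy.1], by linarith [hy.2]⟩
    · intro y hy
      rw [huniq y hy.1 (by linarith [hy.2])]
      linarith [hy.2]
    · rw [hOe]
      intro y hy
      exact ⟨by linarith [hy.1], by linarith [hy.2]⟩
    · intro y hy
      rw [huniq y (by linarith [hy.1]) hy.2]
      linarith [hy.1]

/-! ### Lemma C -/

/-- `(y, y')` is a piece of `Z` at scale `ε`. -/
def Piece (Z : ℝ → Prop) (ε y y' : ℝ) : Prop :=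
  Z y ∧ Z y' ∧ (∀ w, y - ε < w → w < y → ¬ Z w) ∧ (∀ w, y' < w → w < y' + ε → ¬ Z w) ∧
    (∀ z, Z z → y ≤ z → z < y' → ∃ w, z < w ∧ w < z + ε ∧ Z w)

theorem Piece.not_before {Z : ℝ → Prop} (hcl : IsClosed {x | Z x}) {ε y y' u u' x : ℝ} (hε : 0 < ε)
    (h1 : Piece Z ε y y') (h2 : Piece Z ε u u') (hy : x ≤ y') (hu : u ≤ x) : ¬ y < u := by
  intro hlt
  obtain ⟨hZy, hZy', hgy, hgy', hmid⟩ := h1
  obtain ⟨hZu, hZu', hgu, hgu', hmidu⟩ := h2
  have hcl' : IsClosed {z | Z z ∧ z ≤ u - ε} := hcl.inter isClosed_Iic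
  have hyu : y ≤ u - ε := by
    by_contra hcon
    exact hgu y (not_le.1 hcon) hlt hZy
  have hne : {z | Z z ∧ z ≤ u - ε}.Nonempty := ⟨y, hZy, hyu⟩
  have hbd : BddAbove {z | Z z ∧ z ≤ u - ε} := ⟨u - ε, fun z hz => hz.2⟩
  have hmem := hcl'.csSup_mem hne hbd
  set z := sSup {z | Z z ∧ z ≤ u - ε} with hz
  obtain ⟨hZz, hzu⟩ := hmem
  have hyz : y ≤ z := le_csSup hbd ⟨hZy, hyu⟩
  obtain ⟨w, hw1, hw2, hw3⟩ := hmid z hZz hyz (by linarith)
  have : w ≤ u - ε := by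
    by_contra hcon
    exact hgu w (not_le.1 hcon) (by linarith) hw3
  exact absurd (le_csSup hbd ⟨hw3, this⟩) (not_le.2 hw1)

theorem Piece.unique {Z : ℝ → Prop} (hcl : IsClosed {x | Z x}) {ε y y' u u' x : ℝ} (hε : 0 < ε)
    (h1 : Piece Z ε y y') (h2 : Piece Z ε u u') (hy1 : y ≤ x) (hy : x ≤ y') (hu : u ≤ x)
    (hu' : x ≤ u') : y = u ∧ y' = u' := by
  have e1 : y = u := le_antisymm (not_lt.1 (h2.not_before hcl hε h1 hu' hy1))
    (not_lt.1 (h1.not_before hcl hε h2 hy hu))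
  refine ⟨e1, ?_⟩
  obtain ⟨hZy, hZy', hgy, hgy', hmid⟩ := h1
  obtain ⟨hZu, hZu', hgu, hgu', hmidu⟩ := h2
  rcases lt_trichotomy y' u' with h | h | h
  · obtain ⟨w, hw1, hw2, hw3⟩ := hmidu y' hZy' (by linarith) h
    exact absurd hw3 (hgy' w hw1 hw2)
  · exact h
  · obtain ⟨w, hw1, hw2, hw3⟩ := hmid u' hZu' (by linarith) h
    exact absurd hw3 (hgu' w hw1 hw2)

theorem lemmaC : LemmaCStmt := by
  intro 𝒮 hN Z hZ hcl hne hnd
  by_contra hiso
  push Not at hiso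
  let W : ℝ → ℝ → Prop := fun ε x => 0 < ε ∧ ∃ y y' : ℝ, y ≤ x ∧ x ≤ y' ∧ x + x < y + y' ∧
    (Z y ∧ Z y' ∧ (∀ w, y - ε < w → w < y → ¬ Z w) ∧ (∀ w, y' < w → w < y' + ε → ¬ Z w) ∧
    (∀ z, Z z → y ≤ z → z < y' → ∃ w, z < w ∧ w < z + ε ∧ Z w))
  have hW : DFun 𝒮 (fun p : ℝ × ℝ => W p.1 p.2) := by
    simp only [W]
    fun_prop
  let L : Set (Set ℝ) := {O | ∃ c d : ℝ, (∃ x, c < x ∧ x < d ∧ Z x) ∧ O = {x | Z x} ∩ Ioo c d}
  refine hN.false_of_splitting hW L ?_ ?_ ?_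
  · rintro O ⟨c, d, ⟨x, hx1, hx2, hx3⟩, rfl⟩
    exact ⟨x, hx3, hx1, hx2⟩
  · obtain ⟨x, hx⟩ := hne
    exact ⟨{x | Z x} ∩ Ioo (x - 1) (x + 1), x - 1, x + 1, ⟨x, by linarith, by linarith, hx⟩, rfl⟩
  · intro F hFL
    -- the scale works for all small `ε`
    have hgood : ∀ O ∈ F, ∀ᶠ ε in nhdsWithin (0 : ℝ) (Ioi 0), ∃ c d y z, O = {x | Z x} ∩ Ioo c d ∧
        c < y ∧ y ≤ z ∧ z < d ∧ Z y ∧ Z z ∧ (∀ w, y - ε < w → w < y → ¬ Z w) ∧
        (∀ w, z < w → w < z + ε → ¬ Z w) := by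
      intro O hO
      obtain ⟨c, d, ⟨w₀, hw1, hw2, hw3⟩, hOe⟩ := hFL O hO
      obtain ⟨x, hx1, hx2, hx3⟩ := hnd c w₀ hw1
      obtain ⟨x', hx1', hx2', hx3'⟩ := hnd w₀ d hw2
      have hcl1 : IsClosed {z | Z z ∧ x ≤ z} := hcl.inter isClosed_Ici
      have hcl2 : IsClosed {z | Z z ∧ z ≤ x'} := hcl.inter isClosed_Iic
      have hb1 : BddBelow {z | Z z ∧ x ≤ z} := ⟨x, fun z hz => hz.2⟩
      have hb2 : BddAbove {z | Z z ∧ z ≤ x'} := ⟨x', fun z hz => hz.2⟩
      have hm1 := hcl1.csInf_mem ⟨w₀, hw3, hx2.le⟩ hb1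
      have hm2 := hcl2.csSup_mem ⟨w₀, hw3, hx1'.le⟩ hb2
      set y := sInf {z | Z z ∧ x ≤ z} with hy
      set z := sSup {z | Z z ∧ z ≤ x'} with hz
      obtain ⟨hZy, hxy⟩ := hm1
      obtain ⟨hZz, hzx⟩ := hm2
      have hyw : y ≤ w₀ := csInf_le hb1 ⟨hw3, hx2.le⟩
      have hwz : w₀ ≤ z := le_csSup hb2 ⟨hw3, hx1'.le⟩
      have hxy' : x < y := lt_of_le_of_ne hxy (fun h => hx3 (h ▸ hZy))
      have hzx' : z < x' := lt_of_le_of_ne hzx (fun h => hx3' (h ▸ hZz))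
      have hev : ∀ᶠ ε in nhdsWithin (0 : ℝ) (Ioi 0), ε < min (y - x) (x' - z) := by
        apply nhdsWithin_le_nhds
        exact gt_mem_nhds (lt_min (by linarith) (by linarith))
      refine hev.mono ?_
      intro ε hε
      rw [lt_min_iff] at hε
      refine ⟨c, d, y, z, hOe, by linarith, by linarith, by linarith, hZy, hZz, ?_, ?_⟩
      · intro w h1 h2 h3
        exact absurd (csInf_le hb1 ⟨h3, by linarith⟩) (not_le.2 h2)
      · intro w h1 h2 h3
        exact absurd (le_csSup hb2 ⟨h3, by linarith⟩) (not_le.2 h1)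
    have hall := (Filter.eventually_all_finset F).2 hgood
    have hpos : ∀ᶠ ε in nhdsWithin (0 : ℝ) (Ioi 0), 0 < ε := eventually_mem_nhdsWithin
    obtain ⟨ε, hε, hεpos⟩ := (hall.and hpos).exists
    refine ⟨ε, fun O hO => ?_⟩
    obtain ⟨c, d, y, z₀, hOe, hcy, hyz, hzd, hZy, hZz, hgy, hgz⟩ := hε O hO
    -- first big gap after `y`
    have hbA : BddBelow {z | Z z ∧ y ≤ z ∧ ∀ w, z < w → w < z + ε → ¬ Z w} :=
      ⟨y, fun z hz => hz.2.1⟩
    have hneA : {z | Z z ∧ y ≤ z ∧ ∀ w, z < w → w < z + ε → ¬ Z w}.Nonempty :=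
      ⟨z₀, hZz, hyz, hgz⟩
    set y' := sInf {z | Z z ∧ y ≤ z ∧ ∀ w, z < w → w < z + ε → ¬ Z w} with hy'
    have hmem : y' ∈ {z | Z z ∧ y ≤ z ∧ ∀ w, z < w → w < z + ε → ¬ Z w} := by
      obtain ⟨z1, hz1, hz1'⟩ := exists_lt_of_csInf_lt hneA (show y' < y' + ε by linarith)
      rcases eq_or_lt_of_le (csInf_le hbA hz1) with h | h
      · rw [← hy'] at h
        rw [h]; exact hz1
      · obtain ⟨z2, hz2, hz2'⟩ := exists_lt_of_csInf_lt hneA h
        have h3 : y' ≤ z2 := csInf_le hbA hz2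
        exact absurd hz1.1 (hz2.2.2 z1 hz2' (by linarith))
    obtain ⟨hZy', hyy', hgy'⟩ := hmem
    have hyne : y < y' := by
      refine lt_of_le_of_ne hyy' (fun h => ?_)
      rw [← h] at hgy'
      obtain ⟨x, hx1, hx2, hx3⟩ := hiso y hZy ε hεpos
      rw [abs_lt] at hx2
      rcases lt_or_gt_of_ne hx3 with h1 | h1
      · exact hgy x (by linarith [hx2.1]) h1 hx1
      · exact hgy' x h1 (by linarith [hx2.2]) hx1
    have hpiece : Piece Z ε y y' := by
      refine ⟨hZy, hZy', hgy, hgy', ?_⟩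
      intro z hz hyz' hzy'
      by_contra hcon
      push Not at hcon
      have : y' ≤ z := csInf_le hbA ⟨hz, hyz', fun w h1 h2 h3 => hcon w h1 h2 h3⟩
      linarith
    have hy'z : y' ≤ z₀ := csInf_le hbA ⟨hZz, hyz, hgz⟩
    refine ⟨⟨{x | Z x} ∩ Ioo (y - ε) ((y + y') / 2),
      ⟨y - ε, (y + y') / 2, ⟨y, by linarith, by linarith, hZy⟩, rfl⟩, ?_, ?_⟩,
      ⟨{x | Z x} ∩ Ioo ((y + y') / 2) (y' + ε),
      ⟨(y + y') / 2, y' + ε, ⟨y', by linarith, by linarith, hZy'⟩, rfl⟩, ?_, ?_⟩⟩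
    · rw [hOe]
      rintro x ⟨hx, hx1, hx2⟩
      have : y ≤ x := by
        by_contra hcon
        exact hgy x hx1 (not_le.1 hcon) hx
      exact ⟨hx, by linarith, by linarith⟩
    · rintro x ⟨hx, hx1, hx2⟩
      have : y ≤ x := by
        by_contra hcon
        exact hgy x hx1 (not_le.1 hcon) hx
      exact ⟨hεpos, y, y', this, by linarith, by linarith, hpiece⟩
    · rw [hOe]
      rintro x ⟨hx, hx1, hx2⟩
      have : x ≤ y' := by
        by_contra hcon
        exact hgy' x (not_le.1 hcon) hx2 hx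
      exact ⟨hx, by linarith, by linarith⟩
    · rintro x ⟨hx, hx1, hx2⟩
      have hxy' : x ≤ y' := by
        by_contra hcon
        exact hgy' x (not_le.1 hcon) hx2 hx
      rintro ⟨_, u, u', hu, hu', huu, hpu⟩
      obtain ⟨e1, e2⟩ := hpiece.unique hcl hεpos (show Piece Z ε u u' from hpu)
        (by linarith) hxy' hu hu'
      rw [← e1, ← e2] at huu
      linarith

end Pool.Agent.Lib.MP_77ea03_lc
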