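import Pool.Agent.Lib.MP_77ea03_lc.Choice

/-! Module G: dense linear orders do not live on thin sets. -/

set_option autoImplicit false

namespace Pool.Agent.Lib.MP_77ea03_lc

open Set DSort

namespace ThinB

variable {𝒮 : Str} {β : Type} [DSort β] [DRan 𝒮 β]

/-- `R` is a dense strict linear order on `X`. -/
structure DLin (X : β → Prop) (R : β → β → Prop) : Prop where
  irr : ∀ x, X x → ¬ R x x
  tr : ∀ x y z, X x → X y → X z → R x y → R y z → R x z
  tot : ∀ x y, X x → X y → x ≠ y → R x y ∨ R y x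
  dn : ∀ x y, X x → X y → R x y → ∃ z, X z ∧ R x z ∧ R z y

/-- `Y` is dense in `[a, b]`. -/
def DIn (X : β → Prop) (R : β → β → Prop) (Y : β → Prop) (a b : β) : Prop :=
  X a ∧ X b ∧ R a b ∧ ∀ c d, X c → X d → ¬ R c a → ¬ R b d → R c d →
    ∃ y, X y ∧ Y y ∧ R c y ∧ R y d

/-- `Y` is nowhere dense. -/
def ND (X : β → Prop) (R : β → β → Prop) (Y : β → Prop) : Prop := ∀ a b, ¬ DIn X R Y a b

variable {X : β → Prop} {R : β → β → Prop}

omit [DSort β] in
theorem DLin.asym (h : DLin X R) {x y : β} (hx : X x) (hy : X y) (h1 : R x y) : ¬ R y x :=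
  fun h2 => h.irr x hx (h.tr x y x hx hy hx h1 h2)

omit [DSort β] in
theorem DLin.trl (h : DLin X R) {x y z : β} (hx : X x) (hy : X y) (hz : X z) (h1 : ¬ R y x)
    (h2 : R y z) : R x z := by
  by_cases hxy : x = y
  · rwa [hxy]
  · rcases h.tot x y hx hy hxy with h3 | h3
    · exact h.tr x y z hx hy hz h3 h2
    · exact absurd h3 h1

omit [DSort β] in
theorem DLin.trr (h : DLin X R) {x y z : β} (hx : X x) (hy : X y) (hz : X z) (h1 : R x y)
    (h2 : ¬ R z y) : R x z := by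
  by_cases hzy : z = y
  · rwa [hzy]
  · rcases h.tot z y hz hy hzy with h3 | h3
    · exact absurd h3 h2
    · exact h.tr x y z hx hy hz h1 h3

omit [DSort β] in
theorem nd_iff {Y : β → Prop} : ND X R Y ↔ ∀ a b, X a → X b → R a b →
    ∃ c d, X c ∧ X d ∧ ¬ R c a ∧ ¬ R b d ∧ R c d ∧ ∀ y, X y → R c y → R y d → ¬ Y y := by
  unfold ND DIn
  constructor
  · intro h a b ha hb hab
    have := h a b
    push Not at this
    obtain ⟨c, d, h1, h2, h3, h4, h5, h6⟩ := this ha hb hab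
    exact ⟨c, d, h1, h2, h3, h4, h5, fun y e1 e2 e3 e4 => h6 y e1 e4 e2 e3⟩
  · rintro h a b ⟨ha, hb, hab, hd⟩
    obtain ⟨c, d, h1, h2, h3, h4, h5, h6⟩ := h a b ha hb hab
    obtain ⟨y, e1, e2, e3, e4⟩ := hd c d h1 h2 h3 h4 h5
    exact h6 y e1 e3 e4 e2

omit [DSort β] in
theorem ND.mono {Y Z : β → Prop} (h : ND X R Y) (hs : ∀ x, X x → Z x → Y x) : ND X R Z := by
  rw [nd_iff] at *
  intro a b ha hb hab
  obtain ⟨c, d, h1, h2, h3, h4, h5, h6⟩ := h a b ha hb hab
  exact ⟨c, d, h1, h2, h3, h4, h5, fun y e1 e2 e3 e4 => h6 y e1 e2 e3 (hs y e1 e4)⟩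

omit [DSort β] in
theorem ND.or (hl : DLin X R) {Y Z : β → Prop} (h : ND X R Y) (h' : ND X R Z) :
    ND X R (fun x => Y x ∨ Z x) := by
  rw [nd_iff] at *
  intro a b ha hb hab
  obtain ⟨c, d, h1, h2, h3, h4, h5, h6⟩ := h a b ha hb hab
  obtain ⟨c', d', h1', h2', h3', h4', h5', h6'⟩ := h' c d h1 h2 h5
  refine ⟨c', d', h1', h2', ?_, ?_, h5', ?_⟩
  · intro hca
    exact h3 (hl.trl h1 h1' ha h3' hca)
  · intro hbd
    exact h4 (hl.trr hb h2' h2 hbd h4')
  · rintro y e1 e2 e3 (e4 | e4)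
    · exact h6 y e1 (hl.trl h1 h1' e1 h3' e2) (hl.trr e1 h2' h2 e3 h4') e4
    · exact h6' y e1 e2 e3 e4

/-- Class of `x` with respect to the points of `N`. -/
def Cl (X : β → Prop) (R : β → β → Prop) (N : β → Prop) (x y : β) : Prop :=
  X y ∧ ∀ z, X z → N z → (R z x ∧ R z y) ∨ (R x z ∧ R y z)

omit [DSort β] in
theorem Cl.eq (hl : DLin X R) {N : β → Prop} {x x' : β} (hx : X x) (h : Cl X R N x x') :
    (fun y => Cl X R N x y) = (fun y => Cl X R N x' y) := by
  funext y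
  apply propext
  unfold Cl at *
  constructor
  · rintro ⟨hy, h1⟩
    refine ⟨hy, fun z hz hNz => ?_⟩
    rcases h.2 z hz hNz with ⟨e1, e2⟩ | ⟨e1, e2⟩ <;> rcases h1 z hz hNz with ⟨e3, e4⟩ | ⟨e3, e4⟩
    · exact Or.inl ⟨e2, e4⟩
    · exact absurd e1 (hl.asym hx hz e3)
    · exact absurd e3 (hl.asym hx hz e1)
    · exact Or.inr ⟨e2, e4⟩
  · rintro ⟨hy, h1⟩
    refine ⟨hy, fun z hz hNz => ?_⟩
    rcases h.2 z hz hNz with ⟨e1, e2⟩ | ⟨e1, e2⟩ <;> rcases h1 z hz hNz with ⟨e3, e4⟩ | ⟨e3, e4⟩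
    · exact Or.inl ⟨e1, e4⟩
    · exact absurd e2 (hl.asym h.1 hz e3)
    · exact absurd e3 (hl.asym h.1 hz e2)
    · exact Or.inr ⟨e1, e4⟩

theorem tree (hN : NIP 𝒮) (hn : Noiseless 𝒮) (hl : DLin X R) (hX : DFun 𝒮 X)
    (hR : DFun 𝒮 (fun p : β × β => R p.1 p.2)) {α : Type} [DSort α] [DRan 𝒮 α]
    (N : α → β → Prop) (hNd : DFun 𝒮 (fun p : α × β => N p.1 p.2)) (hND : ∀ t, ND X R (N t))
    {Y : β → Prop} {a b : β} (hY : DIn X R Y a b)
    (hcov : ∀ A : Finset β, (∀ y ∈ A, X y ∧ Y y) → ∃ t, ∀ y ∈ A, N t y) : False := by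
  obtain ⟨ha, hb, hab, hYd⟩ := hY
  have hne : Nonempty β := ⟨a⟩
  obtain ⟨ch, hch, hchD⟩ := hasChoice 𝒮 hN hn β
  let Q : α → β → β → Prop := fun t x y => Cl X R (N t) x y ∧
    (∃ y1, Cl X R (N t) x y1 ∧ R y1 y) ∧ (∃ y2, Cl X R (N t) x y2 ∧ R y y2)
  have hQ : DFun 𝒮 (fun p : (α × β) × β => Q p.1.1 p.1.2 p.2) := by
    simp only [Q, Cl]
    fun_prop
  have hm : DFun 𝒮 (fun p : α × β => ch (Q p.1 p.2)) := hchD (α := α × β) (fun p y => Q p.1 p.2 y) hQ
  have hQ1 : ∀ t x, DFun 𝒮 (Q t x) := by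
    intro t x
    simp only [Q, Cl]
    fun_prop
  have hW : DFun 𝒮 (fun p : α × β => R p.2 (ch (Q p.1 p.2))) := by
    exact DFun.comp' (g := fun p : β × β => R p.1 p.2) hR (DFun.prodMk DFun.snd_aux hm)
  have hQeq : ∀ t x x', X x → Cl X R (N t) x x' → Q t x = Q t x' := by
    intro t x x' hx h
    have e := Cl.eq hl hx h
    funext y
    have e' : ∀ y, Cl X R (N t) x y = Cl X R (N t) x' y := fun y => congrFun e y
    simp only [Q, e']
  let L : Set (Set β) := {O | ∃ c d, X c ∧ X d ∧ ¬ R c a ∧ ¬ R b d ∧ R c d ∧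
    O = {y | X y ∧ R c y ∧ R y d}}
  refine hN.false_of_splitting (W := fun (t : α) (y : β) => R y (ch (Q t y))) hW L ?_ ⟨{y | X y ∧ R a y ∧ R y b}, a, b, ha, hb, hl.irr a ha,
    hl.irr b hb, hab, rfl⟩ ?_
  · rintro O ⟨c, d, hc, hd, _, _, hcd, rfl⟩
    obtain ⟨z, hz, h1, h2⟩ := hl.dn c d hc hd hcd
    exact ⟨z, hz, h1, h2⟩
  · intro F hFL
    classical
    have hex : ∀ O : Set β, ∃ c d e1 e2, O ∈ F → (X c ∧ X d ∧ ¬ R c a ∧ ¬ R b d ∧ R c d ∧
        O = {y | X y ∧ R c y ∧ R y d}) ∧ (X e1 ∧ Y e1 ∧ X e2 ∧ Y e2 ∧ R c e1 ∧ R e1 e2 ∧ R e2 d) := by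
      intro O
      by_cases hO : O ∈ F
      · obtain ⟨c, d, hc, hd, h1, h2, hcd, hOe⟩ := hFL O hO
        obtain ⟨w, hw, hcw, hwd⟩ := hl.dn c d hc hd hcd
        obtain ⟨e1, he1, hYe1, hce1, he1w⟩ := hYd c w hc hw h1
          (fun h => h2 (hl.tr b w d hb hw hd h hwd)) hcw
        obtain ⟨e2, he2, hYe2, hwe2, he2d⟩ := hYd w d hw hd
          (fun h => h1 (hl.tr c w a hc hw ha hcw h)) h2 hwd
        exact ⟨c, d, e1, e2, fun _ => ⟨⟨hc, hd, h1, h2, hcd, hOe⟩, he1, hYe1, he2, hYe2, hce1,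
          hl.tr e1 w e2 he1 hw he2 he1w hwe2, he2d⟩⟩
      · exact ⟨a, a, a, a, fun h => absurd h hO⟩
    choose c d e1 e2 hcd using hex
    obtain ⟨t, ht⟩ := hcov (F.image e1 ∪ F.image e2) (by
      intro y hy
      rw [Finset.mem_union, Finset.mem_image, Finset.mem_image] at hy
      rcases hy with ⟨O, hO, rfl⟩ | ⟨O, hO, rfl⟩
      · obtain ⟨_, h1, h2, _⟩ := hcd O hO
        exact ⟨h1, h2⟩
      · obtain ⟨_, _, _, h1, h2, _⟩ := hcd O hO
        exact ⟨h1, h2⟩)
    refine ⟨t, fun O hO => ?_⟩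
    obtain ⟨⟨hc, hd, hca, hbd, hcd', hOe⟩, he1, _, he2, _, hce1, he12, he2d⟩ := hcd O hO
    have hN1 : N t (e1 O) := ht _ (by
      rw [Finset.mem_union]; left; exact Finset.mem_image_of_mem _ hO)
    have hN2 : N t (e2 O) := ht _ (by
      rw [Finset.mem_union]; right; exact Finset.mem_image_of_mem _ hO)
    obtain ⟨c', d', hc', hd', h1, h2, h3, h4⟩ := (nd_iff.1 (hND t)) (e1 O) (e2 O) he1 he2 he12
    obtain ⟨x, hx, hcx, hxd⟩ := hl.dn c' d' hc' hd' h3
    -- points of `(c', d')` are in the class of `x`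
    have hin : ∀ y, X y → R c' y → R y d' → Cl X R (N t) x y := by
      intro y hy hcy hyd
      refine ⟨hy, fun z hz hNz => ?_⟩
      by_cases hcz : R c' z
      · have hzd : ¬ R z d' := fun h => h4 z hz hcz h hNz
        right
        exact ⟨hl.trr hx hd' hz hxd hzd, hl.trr hy hd' hz hyd hzd⟩
      · left
        exact ⟨hl.trl hz hc' hx hcz hcx, hl.trl hz hc' hy hcz hcy⟩
    -- the class of `x` is inside `(e1, e2)`
    have hcls : ∀ y, Cl X R (N t) x y → R (e1 O) y ∧ R y (e2 O) := by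
      rintro y ⟨hy, h⟩
      have hex : R (e1 O) x := hl.trl he1 hc' hx h1 hcx
      have hxe : R x (e2 O) := hl.trr hx hd' he2 hxd h2
      constructor
      · rcases h (e1 O) he1 hN1 with ⟨_, h5⟩ | ⟨h5, _⟩
        · exact h5
        · exact absurd h5 (hl.asym he1 hx hex)
      · rcases h (e2 O) he2 hN2 with ⟨h5, _⟩ | ⟨_, h5⟩
        · exact absurd h5 (hl.asym hx he2 hxe)
        · exact h5
    obtain ⟨y1, hy1, hcy1, hy1x⟩ := hl.dn c' x hc' hx hcx
    obtain ⟨y2, hy2, hxy2, hy2d⟩ := hl.dn x d' hx hd' hxd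
    have hQex : ∃ y, Q t x y := ⟨x, hin x hx hcx hxd,
      ⟨y1, hin y1 hy1 hcy1 (hl.tr _ _ _ hy1 hx hd' hy1x hxd), hy1x⟩,
      ⟨y2, hin y2 hy2 (hl.tr _ _ _ hc' hx hy2 hcx hxy2) hy2d, hxy2⟩⟩
    obtain ⟨hmc, ⟨u1, hu1, hu1m⟩, ⟨u2, hu2, hmu2⟩⟩ := hch (Q t x) (hQ1 t x) hQex
    set m := ch (Q t x) with hmdef
    have hmX := hmc.1
    have hu1X := hu1.1
    have hu2X := hu2.1
    -- convexity of the class
    have hconv : ∀ u v y, Cl X R (N t) x u → Cl X R (N t) x v → X y → R u y → R y v →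
        Cl X R (N t) x y := by
      rintro u v y ⟨hu, hu'⟩ ⟨hv, hv'⟩ hy huy hyv
      refine ⟨hy, fun z hz hNz => ?_⟩
      rcases hu' z hz hNz with ⟨e1, e2⟩ | ⟨e1, e2⟩
      · exact Or.inl ⟨e1, hl.tr _ _ _ hz hu hy e2 huy⟩
      · rcases hv' z hz hNz with ⟨e3, e4⟩ | ⟨e3, e4⟩
        · exact absurd e3 (hl.asym hx hz e1)
        · exact Or.inr ⟨e1, hl.tr _ _ _ hy hv hz hyv e4⟩
    have hac : ∀ y, X y → R (c O) y → ¬ R y a := fun y hy h1 h2 =>
      hca (hl.tr _ _ _ hc hy ha h1 h2)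
    have hdb : ∀ y, X y → R y (d O) → ¬ R b y := fun y hy h1 h2 =>
      hbd (hl.tr _ _ _ hb hy hd h2 h1)
    have hcu1 : R (c O) u1 := hl.tr _ _ _ hc he1 hu1X hce1 (hcls u1 hu1).1
    have hcm : R (c O) m := hl.tr _ _ _ hc hu1X hmX hcu1 hu1m
    have hu2d : R u2 (d O) := hl.tr _ _ _ hu2X he2 hd (hcls u2 hu2).2 he2d
    have hmd : R m (d O) := hl.tr _ _ _ hmX hu2X hd hmu2 hu2d
    refine ⟨⟨{y | X y ∧ R u1 y ∧ R y m}, ⟨u1, m, hu1X, hmX, hac u1 hu1X hcu1, hdb m hmX hmd, hu1m,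
      rfl⟩, ?_, ?_⟩, ⟨{y | X y ∧ R m y ∧ R y u2}, ⟨m, u2, hmX, hu2X, hac m hmX hcm,
      hdb u2 hu2X hu2d, hmu2, rfl⟩, ?_, ?_⟩⟩
    · rw [hOe]
      rintro y ⟨hy, h5, h6⟩
      exact ⟨hy, hl.tr _ _ _ hc hu1X hy hcu1 h5, hl.tr _ _ _ hy hmX hd h6 hmd⟩
    · rintro y ⟨hy, h5, h6⟩
      have := hQeq t x y hx (hconv u1 m y hu1 hmc hy h5 h6)
      rw [← this]
      exact h6
    · rw [hOe]
      rintro y ⟨hy, h5, h6⟩
      exact ⟨hy, hl.tr _ _ _ hc hmX hy hcm h5, hl.tr _ _ _ hy hu2X hd h6 hu2d⟩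
    · rintro y ⟨hy, h5, h6⟩
      have := hQeq t x y hx (hconv m u2 y hmc hu2 hy h5 h6)
      rw [← this]
      exact hl.asym hmX hy h5

omit [DSort β] in
/-- Compactness. -/
theorem nd_compact (hl : DLin X R) (f : β → ℝ) {C : Set ℝ} (hC : IsCompact C)
    (h : ∀ t ∈ C, ∃ r, 0 < r ∧ ND X R (fun x => |f x - t| < r)) : ND X R (fun x => f x ∈ C) := by
  refine hC.induction_on (p := fun S => ND X R (fun x => f x ∈ S)) ?_ ?_ ?_ ?_
  · rintro a b ⟨ha, hb, hab, hd⟩
    obtain ⟨y, _, hy, _⟩ := hd a b ha hb (hl.irr a ha) (hl.irr b hb) hab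
    exact hy
  · intro s t hst ht
    exact ht.mono (fun x _ hx => hst hx)
  · intro s t hs ht
    exact (hs.or hl ht).mono (fun x _ hx => hx)
  · intro t ht
    obtain ⟨r, hr, h⟩ := h t ht
    refine ⟨Metric.ball t r, mem_nhdsWithin_of_mem_nhds (Metric.ball_mem_nhds t hr), ?_⟩
    refine h.mono (fun x _ hx => ?_)
    rw [Metric.mem_ball, Real.dist_eq] at hx
    exact hx

theorem thin_aux (hN : NIP 𝒮) (hn : Noiseless 𝒮) (hR : DFun 𝒮 (fun p : β × β => R p.1 p.2))
    (s : Finset (ix β)) : ∀ (X : β → Prop), DFun 𝒮 X → DLin X R → (∃ x y, X x ∧ X y ∧ x ≠ y) →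
      (∀ x y, X x → X y → (∀ i ∈ s, emb x i = emb y i) → x = y) →
      (∀ i ∈ s, ∀ a b : ℝ, a < b → ∃ t, a < t ∧ t < b ∧ ∀ x, X x → emb x i ≠ t) → False := by
  classical
  induction s using Finset.induction_on with
  | empty =>
    intro X _ _ ⟨x, y, hx, hy, hxy⟩ hdet _
    exact hxy (hdet x y hx hy (by simp))
  | insert j s _ ih =>
    intro X hX hl hne hdet hpr
    have hembj : DFun 𝒮 (fun x : β => emb x j) := DFun.emb' j
    have hpair : ∃ a b, X a ∧ X b ∧ R a b := by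
      obtain ⟨x, y, hx, hy, hxy⟩ := hne
      rcases hl.tot x y hx hy hxy with h | h
      · exact ⟨x, y, hx, hy, h⟩
      · exact ⟨y, x, hy, hx, h⟩
    by_cases hA : ∃ c : ℝ, ¬ ND X R (fun x => emb x j = c)
    · -- a large fibre
      obtain ⟨c, hc⟩ := hA
      unfold ND at hc
      push Not at hc
      obtain ⟨a, b, ha, hb, hab, hd⟩ := hc
      refine ih (fun x => (X x ∧ emb x j = c) ∧ R a x ∧ R x b) (by fun_prop) ?_ ?_ ?_ ?_
      · refine ⟨?_, ?_, ?_, ?_⟩
        · rintro x ⟨⟨hx, _⟩, _⟩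
          exact hl.irr x hx
        · rintro x y z ⟨⟨hx, _⟩, _⟩ ⟨⟨hy, _⟩, _⟩ ⟨⟨hz, _⟩, _⟩
          exact hl.tr x y z hx hy hz
        · rintro x y ⟨⟨hx, _⟩, _⟩ ⟨⟨hy, _⟩, _⟩
          exact hl.tot x y hx hy
        · rintro x y ⟨⟨hx, _⟩, hax, hxb⟩ ⟨⟨hy, _⟩, hay, hyb⟩ hxy
          obtain ⟨z, hz, hzc, h1, h2⟩ := hd x y hx hy (hl.asym ha hx hax) (hl.asym hy hb hyb) hxy
          exact ⟨z, ⟨⟨hz, hzc⟩, hl.tr _ _ _ ha hx hz hax h1, hl.tr _ _ _ hz hy hb h2 hyb⟩, h1, h2⟩
      · obtain ⟨w, hw, haw, hwb⟩ := hl.dn a b ha hb hab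
        obtain ⟨x, hx, hxc, h1, h2⟩ := hd a w ha hw (hl.irr a ha)
          (hl.asym hw hb hwb) haw
        obtain ⟨y, hy, hyc, h3, h4⟩ := hd w b hw hb (hl.asym ha hw haw) (hl.irr b hb) hwb
        have hxy := hl.tr _ _ _ hx hw hy h2 h3
        refine ⟨x, y, ⟨⟨hx, hxc⟩, h1, hl.tr _ _ _ hx hw hb h2 hwb⟩,
          ⟨⟨hy, hyc⟩, hl.tr _ _ _ ha hw hy haw h3, h4⟩, ?_⟩
        rintro rfl
        exact hl.irr x hx hxy
      · rintro x y ⟨⟨hx, hxc⟩, _⟩ ⟨⟨hy, hyc⟩, _⟩ h
        apply hdet x y hx hy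
        intro i hi
        rw [Finset.mem_insert] at hi
        rcases hi with rfl | hi
        · rw [hxc, hyc]
        · exact h i hi
      · intro i hi p q hpq
        obtain ⟨t, h1, h2, h3⟩ := hpr i (Finset.mem_insert_of_mem hi) p q hpq
        exact ⟨t, h1, h2, fun x hx => h3 x hx.1.1⟩
    · push Not at hA
      let Θ : ℝ → Prop := fun c => ∀ r : ℝ, 0 < r → ∃ a b, X a ∧ X b ∧ R a b ∧
        ∀ c' d', X c' → X d' → ¬ R c' a → ¬ R b d' → R c' d' →
          ∃ y, X y ∧ |emb y j - c| < r ∧ R c' y ∧ R y d'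
      have hΘ : DFun 𝒮 Θ := by
        simp only [Θ]
        fun_prop
      have hnΘ : ∀ c, ¬ Θ c → ∃ r, 0 < r ∧ ND X R (fun x => |emb x j - c| < r) := by
        intro c hc
        simp only [Θ] at hc
        push Not at hc
        obtain ⟨r, hr, h⟩ := hc
        refine ⟨r, hr, ?_⟩
        rintro a b ⟨ha, hb, hab, hd⟩
        obtain ⟨c', d', h1, h2, h3, h4, h5, h6⟩ := h a b ha hb hab
        obtain ⟨y, e1, e2, e3, e4⟩ := hd c' d' h1 h2 h3 h4 h5
        exact h6 y e1 e2 e3 e4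
      by_cases hΘne : ∃ c, Θ c
      · have hcl : IsClosed {c | Θ c} := by
          rw [← isOpen_compl_iff, Metric.isOpen_iff]
          intro c hc
          obtain ⟨r, hr, h⟩ := hnΘ c hc
          refine ⟨r / 2, by linarith, ?_⟩
          intro c1 hc1 hΘ1
          rw [Metric.mem_ball, Real.dist_eq] at hc1
          obtain ⟨a, b, hab⟩ := hΘ1 (r / 2) (by linarith)
          refine (h.mono (Z := fun x => |emb x j - c1| < r / 2) ?_) a b hab
          intro x _ hx
          calc |emb x j - c| = |(emb x j - c1) + (c1 - c)| := by ring_nf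
            _ ≤ |emb x j - c1| + |c1 - c| := abs_add_le _ _
            _ < r := by linarith
        obtain ⟨c, hc, r0, hr0, hiso⟩ := lemmaC 𝒮 hN Θ hΘ hcl hΘne (by
          intro p q hpq
          have hπ : DFun 𝒮 (fun t : ℝ => ∃ x, X x ∧ emb x j = t) := by fun_prop
          obtain ⟨p', q', h1, h2, h3, h4⟩ := hn _ hπ p q hpq
          rcases h4 with h4 | h4
          · exfalso
            obtain ⟨t, e1, e2, e3⟩ := hpr j (Finset.mem_insert_self _ _) p' q' h2
            obtain ⟨x, hx, hxt⟩ := h4 t e1 e2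
            exact e3 x hx hxt
          · refine ⟨(p' + q') / 2, by linarith, by linarith, ?_⟩
            intro h
            obtain ⟨a, b, ha, hb, hab, hd⟩ := h ((q' - p') / 2) (by linarith)
            obtain ⟨y, hy, hy2, _⟩ := hd a b ha hb (hl.irr a ha) (hl.irr b hb) hab
            rw [abs_lt] at hy2
            exact h4 (emb y j) (by linarith) (by linarith) ⟨y, hy, rfl⟩)
        obtain ⟨a, b, ha, hb, hab, hd⟩ := hc (r0 / 2) (by linarith)
        refine tree hN hn hl hX hR (fun (r : ℝ) x => 0 < r ∧ r ≤ |emb x j - c| ∧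
          |emb x j - c| ≤ r0 / 2) (by fun_prop) ?_
          (Y := fun x => emb x j ≠ c ∧ |emb x j - c| < r0 / 2) (a := a) (b := b) ?_ ?_
        · intro r
          by_cases hr : 0 < r
          · have hcomp : IsCompact {t : ℝ | r ≤ |t - c| ∧ |t - c| ≤ r0 / 2} := by
              have h1 : IsCompact (Metric.closedBall c (r0 / 2)) := isCompact_closedBall _ _
              have h2 : IsClosed {t : ℝ | r ≤ |t - c|} :=
                isClosed_le continuous_const (by fun_prop)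
              have := h1.inter_left h2
              have e : {t : ℝ | r ≤ |t - c| ∧ |t - c| ≤ r0 / 2}
                  = {t : ℝ | r ≤ |t - c|} ∩ Metric.closedBall c (r0 / 2) := by
                ext t
                simp only [mem_inter_iff, mem_ofPred_eq, Metric.mem_closedBall, Real.dist_eq]
              rw [e]
              exact this
            refine (nd_compact hl (fun x => emb x j) hcomp ?_).mono ?_
            · rintro t ⟨h1, h2⟩
              apply hnΘ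
              intro h3
              have := hiso t h3 (by linarith)
              rw [this] at h1
              simp at h1
              linarith
            · rintro x _ ⟨_, h1, h2⟩
              exact ⟨h1, h2⟩
          · rintro a b ⟨ha, hb, hab, hd⟩
            obtain ⟨y, _, hy, _⟩ := hd a b ha hb (hl.irr a ha) (hl.irr b hb) hab
            exact hr hy.1
        · refine ⟨ha, hb, hab, ?_⟩
          intro c' d' hc' hd' h1 h2 h3
          obtain ⟨c'', d'', hc'', hd'', h4, h5, h6, h7⟩ := (nd_iff.1 (hA c)) c' d' hc' hd' h3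
          obtain ⟨y, hy, hy2, hy3, hy4⟩ := hd c'' d'' hc'' hd''
            (fun h => h1 (hl.trl hc' hc'' ha h4 h)) (fun h => h2 (hl.trr hb hd'' hd' h h5)) h6
          exact ⟨y, hy, ⟨h7 y hy hy3 hy4, hy2⟩, hl.trl hc' hc'' hy h4 hy3,
            hl.trr hy hd'' hd' hy4 h5⟩
        · intro A
          induction A using Finset.induction_on with
          | empty => intro _; exact ⟨1, by simp⟩
          | insert y A _ ihA =>
            intro hA'
            obtain ⟨r, hr⟩ := ihA (fun z hz => hA' z (Finset.mem_insert_of_mem hz))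
            obtain ⟨hy, hy1, hy2⟩ := hA' y (Finset.mem_insert_self _ _)
            have hpos : 0 < |emb y j - c| := abs_pos.2 (sub_ne_zero.2 hy1)
            by_cases hAe : A = ∅
            · subst hAe
              refine ⟨|emb y j - c|, ?_⟩
              intro z hz
              simp only [Finset.mem_insert, Finset.notMem_empty, or_false] at hz
              subst hz
              exact ⟨hpos, le_rfl, hy2.le⟩
            · obtain ⟨w, hw⟩ := Finset.nonempty_iff_ne_empty.2 hAe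
              have hrpos := (hr w hw).1
              refine ⟨min r |emb y j - c|, ?_⟩
              intro z hz
              rw [Finset.mem_insert] at hz
              rcases hz with rfl | hz
              · exact ⟨lt_min hrpos hpos, min_le_right _ _, hy2.le⟩
              · exact ⟨lt_min hrpos hpos, (min_le_left _ _).trans (hr z hz).2.1, (hr z hz).2.2⟩
      · push Not at hΘne
        obtain ⟨a, b, ha, hb, hab⟩ := hpair
        refine tree hN hn hl hX hR (fun (r : ℝ) x => |emb x j| ≤ r) (by fun_prop) ?_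
          (Y := fun _ => True) (a := a) (b := b) ?_ ?_
        · intro r
          refine (nd_compact hl (fun x => emb x j) (isCompact_Icc (a := -r) (b := r)) ?_).mono ?_
          · intro t _
            exact hnΘ t (hΘne t)
          · intro x _ hx
            exact abs_le.1 hx
        · refine ⟨ha, hb, hab, ?_⟩
          intro c d hc hd _ _ hcd
          obtain ⟨z, hz, h1, h2⟩ := hl.dn c d hc hd hcd
          exact ⟨z, hz, trivial, h1, h2⟩
        · intro A
          induction A using Finset.induction_on with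
          | empty => intro _; exact ⟨0, by simp⟩
          | insert y A _ ihA =>
            intro hA'
            obtain ⟨r, hr⟩ := ihA (fun z hz => hA' z (Finset.mem_insert_of_mem hz))
            refine ⟨max r |emb y j|, ?_⟩
            intro z hz
            rw [Finset.mem_insert] at hz
            rcases hz with rfl | hz
            · exact le_max_right _ _
            · exact (hr z hz).trans (le_max_left _ _)

end ThinB

theorem thinStmtB : ThinStmt := by
  intro 𝒮 hN hn β _ _ X R hX hR h1 h2 h3 h4 h5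
  by_contra hcon
  push Not at hcon
  have := Fintype.ofFinite (ix β)
  refine ThinB.thin_aux hN hn hR Finset.univ X hX ⟨h1, h2, h3, h4⟩ h5 ?_ ?_
  · intro x y _ _ h
    apply inj
    funext i
    exact h i (Finset.mem_univ i)
  · intro i _ a b hab
    obtain ⟨t, e1, e2, e3⟩ := hcon i a b hab
    exact ⟨t, e1, e2, e3⟩

end Pool.Agent.Lib.MP_77ea03_lc
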